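import Pool.Agent.J6H74.SAF.Rk

/-!
# The class of a projection
-/

set_option autoImplicit false

open scoped InnerProductSpace

namespace Pool.Agent.J6H74.SAF

open Pool.Agent.TH723.AF (op op_ext vec_ext inner_b norm_b op_apply op_of_some op_of_none inner_op
  op_mul star_op inner_op_symm)

universe u v

/-! ### sums over heads -/

lemma sum_Hd_succ {M : Type*} [AddCommMonoid M] (D : Dg) (k : ℕ) (f : List ℕ → M) :
    ∑ a ∈ Hd D (k + 1), f a = ∑ a ∈ Hd D k, ∑ c ∈ Finset.range (dg D a), f (c :: a) := by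
  classical
  rw [Hd, Finset.sum_biUnion]
  · refine Finset.sum_congr rfl fun a _ => ?_
    rw [Finset.sum_image]
    intro c _ c' _ h
    exact (List.cons.inj h).1
  · intro a _ a' _ hne
    rw [Function.onFun, Finset.disjoint_left]
    intro x hx hx'
    obtain ⟨c, -, rfl⟩ := Finset.mem_image.1 hx
    obtain ⟨c', -, h⟩ := Finset.mem_image.1 hx'
    exact hne (List.cons.inj h).2.symm

lemma card_getD (l : List ℕ) (x : ℕ) :
    ((Finset.range l.length).filter fun c => l.getD c 0 = x).card = l.count x := by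
  induction l with
  | nil => simp
  | cons y l ih =>
    rw [List.length_cons, Finset.range_add_one', Finset.filter_insert, List.count_cons]
    have h1 : ((Finset.map ⟨fun i => i + 1, fun i j => by simp⟩ (Finset.range l.length)).filter
        fun c => (y :: l).getD c 0 = x).card = l.count x := by
      rw [Finset.filter_map, Finset.card_map, ← ih]
      rfl
    by_cases h : y = x
    · rw [if_pos (by simpa using h), Finset.card_insert_of_notMem (by simp), h1]
      simp [h]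
    · rw [if_neg (by simpa using h), h1]
      simp [h]

lemma sum_map_count {M : Type*} [AddCommMonoid M] (l : List ℕ) (f : ℕ → M) {N : ℕ}
    (h : ∀ x ∈ l, x < N) : (l.map f).sum = ∑ j ∈ Finset.range N, l.count j • f j := by
  rw [Finset.sum_list_map_count]
  apply Finset.sum_subset
  · intro x hx
    exact Finset.mem_range.2 (h x (List.mem_toFinset.1 hx))
  · intro x _ hx
    rw [List.mem_toFinset] at hx
    rw [List.count_eq_zero_of_not_mem hx, zero_smul]

lemma sum_getD {M : Type*} [AddCommMonoid M] (l : List ℕ) (f : ℕ → M) :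
    ∑ c ∈ Finset.range l.length, f (l.getD c 0) = (l.map f).sum := by
  induction l with
  | nil => simp
  | cons y l ih =>
    rw [List.length_cons, Finset.sum_range_succ', List.map_cons, List.sum_cons, ← ih, add_comm]
    rfl

variable {H : Type v} [NormedAddCommGroup H] [InnerProductSpace ℂ H] [CompleteSpace H]
  {b : HilbertBasis ℕ ℂ H}

/-- the indices of the heads of length `k` which end in `j` -/
noncomputable def SP (D : Dg) (k j : ℕ) : Finset ℕ :=
  ((Hd D k).filter fun a => st D a = j).image fun a => pos D a 0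

section

variable {D : Dg} {m : ℕ → ℕ} (hD : Ok D m)

include hD

lemma pos_mem_SP {k j : ℕ} {a : List ℕ} (ha : a ∈ Hd D k) (r : ℕ) :
    pos D a r ∈ SP D k j ↔ st D a = j ∧ r = 0 := by
  unfold SP
  rw [Finset.mem_image]
  constructor
  · rintro ⟨a', h1, h2⟩
    rw [Finset.mem_filter] at h1
    rw [mem_Hd] at ha h1
    obtain ⟨rfl, rfl⟩ := pos_inj hD (h1.1.1.trans ha.1.symm) h1.1.2 ha.2 h2
    exact ⟨h1.2, rfl⟩
  · rintro ⟨h1, rfl⟩
    exact ⟨a, Finset.mem_filter.2 ⟨ha, h1⟩, rfl⟩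

lemma PB_pos {k j : ℕ} {a : List ℕ} (ha : a ∈ Hd D k) (r : ℕ) :
    PB b (SP D k j) (b (pos D a r)) = if st D a = j ∧ r = 0 then b (pos D a r) else 0 := by
  by_cases h : st D a = j ∧ r = 0
  · rw [if_pos h, PB_of_mem b ((pos_mem_SP hD ha r).2 h)]
  · rw [if_neg h, PB_of_notMem b (fun h' => h ((pos_mem_SP hD ha r).1 h'))]

lemma Cm_of_mem {k : ℕ} {T : H →L[ℂ] H} (hT : T ∈ Fk b hD k) (j : ℕ) : Cm b (SP D k j) T := by
  rw [mem_Fk] at hT
  induction hT using Submodule.span_induction with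
  | mem T hT =>
    obtain ⟨a, c, h1, h2, h3, h4, h5, rfl⟩ := hT
    have hc : c ∈ Hd D k := mem_Hd.2 ⟨h2, h4⟩
    have : E b D a c * PB b (SP D k j) = PB b (SP D k j) * E b D a c := by
      apply ext_k b hD k
      intro a' h1' h2' r
      have ha' : a' ∈ Hd D k := mem_Hd.2 ⟨h1', h2'⟩
      rw [mul_apply_eq_comp, mul_apply_eq_comp, PB_pos hD ha']
      by_cases h : a = a'
      · subst h
        rw [E_pos b hD h3 h4, PB_pos hD hc, ← h5]
        split_ifs
        · exact E_pos b hD h3 h4 r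
        · exact map_zero _
      · rw [E_ne b hD (h1.trans h1'.symm) h3 h2' h, map_zero]
        split_ifs
        · exact E_ne b hD (h1.trans h1'.symm) h3 h2' h r
        · exact map_zero _
    intro x
    exact congrArg (fun T : H →L[ℂ] H => T x) this
  | zero => intro x; simp
  | add x y _ _ hx hy =>
    intro z
    rw [add_apply, add_apply, map_add, hx, hy]
  | smul c x _ hx =>
    intro z
    rw [smul_apply, smul_apply, map_smul, hx]

lemma rank_sum {k : ℕ} {p : H →L[ℂ] H} (hp : p ∈ Fk b hD k) (hpj : Pj p) (j : ℕ) :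
    (rank b (SP D k j) p : ℝ) =
      ∑ a ∈ (Hd D k).filter (fun a => st D a = j), ‖p (b (pos D a 0))‖ ^ 2 := by
  rw [rank_eq (Cm_of_mem hD hp j) hpj]
  unfold SP
  rw [Finset.sum_image]
  intro a ha a' ha' h
  rw [Finset.mem_coe, Finset.mem_filter, mem_Hd] at ha ha'
  exact (pos_inj hD (ha.1.1.trans ha'.1.1.symm) ha.1.2 ha'.1.2 h).1

lemma norm_pos {k : ℕ} {p : H →L[ℂ] H} (hp : p ∈ Fk b hD k) (hpj : Pj p) {a : List ℕ}
    (ha : a ∈ Hd D k) (r : ℕ) : ‖p (b (pos D a r))‖ ^ 2 = ‖p (b (pos D a 0))‖ ^ 2 := by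
  rw [← hpj.normsq, ← hpj.normsq, hpj.inner, hpj.inner, mc b hD hp ha ha, mc b hD hp ha ha,
    if_pos rfl, if_pos rfl]

lemma rank_succ {k : ℕ} {p : H →L[ℂ] H} (hp : p ∈ Fk b hD k) (hpj : Pj p) (j' : ℕ) :
    rank b (SP D (k + 1) j') p =
      ∑ j ∈ Finset.range (m k), (D k j).count j' * rank b (SP D k j) p := by
  have h1 := rank_sum hD (Fk_mono b hD (Nat.le_succ k) hp) hpj j'
  rw [Finset.sum_filter, sum_Hd_succ] at h1
  have h2 : ∀ a ∈ Hd D k, (∑ c ∈ Finset.range (dg D a), if st D (c :: a) = j' then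
      ‖p (b (pos D (c :: a) 0))‖ ^ 2 else 0) =
      ((D k (st D a)).count j' : ℝ) * ‖p (b (pos D a 0))‖ ^ 2 := by
    intro a ha
    have hl := (mem_Hd.1 ha).1
    rw [← card_getD, ← nsmul_eq_mul, ← Finset.sum_const, Finset.sum_filter]
    unfold dg
    rw [hl]
    refine Finset.sum_congr rfl fun c _ => ?_
    rw [st, hl, pos_cons, norm_pos hD hp hpj ha]
  rw [Finset.sum_congr rfl h2] at h1
  have h3 : ∑ a ∈ Hd D k, ((D k (st D a)).count j' : ℝ) * ‖p (b (pos D a 0))‖ ^ 2 =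
      ∑ j ∈ Finset.range (m k), ((D k j).count j' : ℝ) * (rank b (SP D k j) p : ℝ) := by
    rw [← Finset.sum_fiberwise_of_maps_to (s := Hd D k) (t := Finset.range (m k))
      (g := fun a => st D a)]
    · refine Finset.sum_congr rfl fun j _ => ?_
      rw [rank_sum hD hp hpj, Finset.mul_sum]
      refine Finset.sum_congr rfl fun a ha => ?_
      rw [(Finset.mem_filter.1 ha).2]
    · intro a ha
      rw [mem_Hd] at ha
      rw [Finset.mem_range, ← ha.1]
      exact st_lt hD ha.2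
  rw [h3] at h1
  exact_mod_cast h1

/-- a nonzero projection has a nonzero rank -/
lemma exists_rank {k : ℕ} {p : H →L[ℂ] H} (hp : p ∈ Fk b hD k) (hpj : Pj p) (h : p ≠ 0) :
    ∃ j < m k, rank b (SP D k j) p ≠ 0 := by
  by_contra h1
  push Not at h1
  apply h
  apply ext_k b hD k
  intro a h2 h3 r
  have ha : a ∈ Hd D k := mem_Hd.2 ⟨h2, h3⟩
  have h4 : st D a < m k := by rw [← h2]; exact st_lt hD h3
  have h5 := rank_sum hD hp hpj (st D a)
  rw [h1 _ h4, Nat.cast_zero] at h5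
  have h6 := (Finset.sum_eq_zero_iff_of_nonneg (fun w _ => sq_nonneg _)).1 h5.symm a
    (Finset.mem_filter.2 ⟨ha, rfl⟩)
  rw [← norm_pos hD hp hpj ha r] at h6
  have h7 : ‖p (b (pos D a r))‖ = 0 := pow_eq_zero_iff two_ne_zero |>.1 h6
  rw [norm_eq_zero.1 h7]
  rfl

end

/-! ### approximation -/

/-- the jump function -/
noncomputable def chi (t : ℝ) : ℝ := if t < 1 / 2 then 0 else 1

lemma chi_cont {x : ℝ} (hx : x ≠ 1 / 2) : ContinuousAt chi x := by
  rcases lt_or_gt_of_ne hx with h | h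
  · have : chi =ᶠ[nhds x] fun _ => 0 := by
      filter_upwards [eventually_lt_nhds h] with y hy
      exact if_pos hy
    exact (continuousAt_const).congr this.symm
  · have : chi =ᶠ[nhds x] fun _ => 1 := by
      filter_upwards [eventually_gt_nhds h] with y hy
      exact if_neg (not_lt.2 hy.le)
    exact (continuousAt_const).congr this.symm

lemma exists_proj {F : NonUnitalStarSubalgebra ℂ (H →L[ℂ] H)}
    (hclosed : IsClosed (F : Set (H →L[ℂ] H))) {y p : H →L[ℂ] H} (hy : y ∈ F) (hp : Pj p)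
    (h : ‖p - y‖ ≤ 1 / 200) : ∃ p' ∈ F, Pj p' ∧ ‖p - p'‖ ≤ 1 / 16 := by
  set a : H →L[ℂ] H := (1 / 2 : ℝ) • (y + star y) with ha
  have ha_mem : a ∈ F := by
    have h1 : a = (1 / 2 : ℂ) • (y + star y) := by
      rw [ha]
      ext x
      simp only [smul_apply]
      rw [← Complex.coe_smul]
      norm_num
    rw [h1]
    exact SMulMemClass.smul_mem _ (add_mem hy (star_mem hy))
  have ha_sa : IsSelfAdjoint a := by
    rw [ha]
    apply IsSelfAdjoint.smul (by simp [isSelfAdjoint_iff])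
    exact IsSelfAdjoint.add_star_self y
  have hpa : ‖p - a‖ ≤ 1 / 200 := by
    have h1 : p - a = (1 / 2 : ℝ) • ((p - y) + star (p - y)) := by
      rw [star_sub, hp.st, ha]
      module
    rw [h1, norm_smul]
    have h2 : ‖(p - y) + star (p - y)‖ ≤ 1 / 200 + 1 / 200 := by
      refine (norm_add_le _ _).trans ?_
      rw [norm_star]
      exact add_le_add h h
    rw [Real.norm_of_nonneg (by norm_num)]
    linarith
  have hp1 := hp.norm_le_one
  have ha1 : ‖a‖ ≤ 1 + 1 / 200 := by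
    have : a = p - (p - a) := by abel
    rw [this]
    exact (norm_sub_le _ _).trans (add_le_add hp1 hpa)
  have hsq : ‖a * a - a‖ ≤ 1 / 50 := by
    have h1 : a * a - a = -(a * (p - a)) - (p - a) * p + (p - a) := by
      rw [mul_sub, sub_mul, hp.mul]
      abel
    rw [h1]
    have h2 : ‖a * (p - a)‖ ≤ (1 + 1 / 200) * (1 / 200) :=
      (norm_mul_le _ _).trans (mul_le_mul ha1 hpa (norm_nonneg _) (by norm_num))
    have h3 : ‖(p - a) * p‖ ≤ 1 / 200 * 1 :=
      (norm_mul_le _ _).trans (mul_le_mul hpa hp1 (norm_nonneg _) (by norm_num))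
    calc ‖-(a * (p - a)) - (p - a) * p + (p - a)‖
        ≤ ‖-(a * (p - a)) - (p - a) * p‖ + ‖p - a‖ := norm_add_le _ _
      _ ≤ ‖-(a * (p - a))‖ + ‖(p - a) * p‖ + ‖p - a‖ := by gcongr; exact norm_sub_le _ _
      _ ≤ (1 + 1 / 200) * (1 / 200) + 1 / 200 * 1 + 1 / 200 := by
          rw [norm_neg]
          gcongr
      _ ≤ 1 / 50 := by norm_num
  have hspec : ∀ x ∈ quasispectrum ℝ a, |x * x - x| ≤ 1 / 50 := by
    intro x hx
    have h1 := norm_apply_le_norm_cfcₙ (fun t : ℝ => t * t - t) a hx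
      (by fun_prop) (by simp) ha_sa
    have h2 : cfcₙ (fun t : ℝ => t * t - t) a = a * a - a := by
      rw [cfcₙ_sub (fun t : ℝ => t * t) (fun t : ℝ => t) a, cfcₙ_mul (fun t : ℝ => t)
        (fun t : ℝ => t) a, cfcₙ_id' ℝ a]
    rw [h2] at h1
    exact h1.trans hsq
  have hne : ∀ x ∈ quasispectrum ℝ a, x ≠ 1 / 2 := by
    rintro x hx rfl
    have := hspec _ hx
    norm_num [abs_of_neg] at this
  have hcont : ContinuousOn chi (quasispectrum ℝ a) := fun x hx =>
    (chi_cont (hne x hx)).continuousWithinAt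
  have hchi0 : chi 0 = 0 := if_pos (by norm_num)
  refine ⟨cfcₙ chi a, cfcₙ_mem chi ha_mem, ⟨?_, ?_⟩, ?_⟩
  · rw [← cfcₙ_mul chi chi a hcont hchi0 hcont hchi0]
    congr 1
    funext t
    unfold chi
    split_ifs <;> simp
  · exact cfcₙ_predicate chi a
  · have h1 : ‖a - cfcₙ chi a‖ ≤ 1 / 25 := by
      have h2 : a - cfcₙ chi a = cfcₙ (fun t : ℝ => t - chi t) a := by
        rw [cfcₙ_sub (fun t : ℝ => t) chi a (by fun_prop) rfl hcont hchi0, cfcₙ_id' ℝ a]
      rw [h2]
      apply norm_cfcₙ_le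
      intro x hx
      have h3 := hspec x hx
      rw [Real.norm_eq_abs]
      unfold chi
      have h4 : x * x - x = x * (x - 1) := by ring
      rw [h4, abs_mul] at h3
      split_ifs with h5
      · rw [sub_zero]
        have h6 : 1 / 2 ≤ |x - 1| := by
          rw [abs_of_neg (by linarith)]
          linarith
        nlinarith [abs_nonneg x]
      · have h6 : 1 / 2 ≤ |x| := by
          push Not at h5
          exact h5.trans (le_abs_self _)
        nlinarith [abs_nonneg (x - 1)]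
    have h3 : p - cfcₙ chi a = (p - a) + (a - cfcₙ chi a) := by abel
    rw [h3]
    refine (norm_add_le _ _).trans ?_
    linarith

/-! ### the class -/

variable {V : Type u} [AddCommGroup V] [Module ℚ V]

/-- vectors attached to the vertices of a diagram -/
structure Vc (D : Dg) (m : ℕ → ℕ) (τ : V →ₗ[ℚ] ℚ) (v : ℕ → ℕ → V) : Prop where
  rel : ∀ k i, i < m k → v k i = ((D k i).map (v (k + 1))).sum
  pos : ∀ k i, i < m k → 0 < τ (v k i)
  li : ∀ k, LinearIndependent ℚ (fun i : Fin (m k) => v k i)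

/-- the class of a projection in stage `k` -/
noncomputable def clk (b : HilbertBasis ℕ ℂ H) (D : Dg) (m : ℕ → ℕ) (v : ℕ → ℕ → V) (k : ℕ)
    (p : H →L[ℂ] H) : V :=
  ∑ j ∈ Finset.range (m k), rank b (SP D k j) p • v k j

section

variable {D : Dg} {m : ℕ → ℕ} (hD : Ok D m) {τ : V →ₗ[ℚ] ℚ} {v : ℕ → ℕ → V} (hv : Vc D m τ v)

include hD hv

lemma clk_succ {k : ℕ} {p : H →L[ℂ] H} (hp : p ∈ Fk b hD k) (hpj : Pj p) :
    clk b D m v (k + 1) p = clk b D m v k p := by
  unfold clk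
  have h1 : ∀ j ∈ Finset.range (m k), rank b (SP D k j) p • v k j =
      ∑ j' ∈ Finset.range (m (k + 1)), ((D k j).count j' * rank b (SP D k j) p) • v (k + 1) j' := by
    intro j hj
    rw [Finset.mem_range] at hj
    rw [hv.rel k j hj, sum_map_count _ _ (hD.lt k j hj), Finset.smul_sum]
    refine Finset.sum_congr rfl fun j' _ => ?_
    rw [smul_smul, mul_comm]
  rw [Finset.sum_congr rfl h1, Finset.sum_comm]
  refine Finset.sum_congr rfl fun j' _ => ?_
  rw [rank_succ hD hp hpj, Finset.sum_smul]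

lemma clk_le {k k' : ℕ} (h : k ≤ k') {p : H →L[ℂ] H} (hp : p ∈ Fk b hD k) (hpj : Pj p) :
    clk b D m v k' p = clk b D m v k p := by
  induction k', h using Nat.le_induction with
  | base => rfl
  | succ k' h ih => rw [clk_succ hD hv (Fk_mono b hD h hp) hpj, ih]

omit hD hv in
/-- `x` is the class of the projection `p` -/
def IsCl (b : HilbertBasis ℕ ℂ H) (hD : Ok D m) (v : ℕ → ℕ → V) (p : H →L[ℂ] H) (x : V) : Prop :=
  ∃ k p', p' ∈ Fk b hD k ∧ Pj p' ∧ ‖p - p'‖ ≤ 1 / 16 ∧ x = clk b D m v k p'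

omit hv in
lemma exists_cl (v : ℕ → ℕ → V) {p : H →L[ℂ] H} (hp : Pj p) (h : p ∈ AD b hD) :
    ∃ x, IsCl b hD v p x := by
  have h' : p ∈ closure (⋃ k, (Fk b hD k : Set (H →L[ℂ] H))) := h
  obtain ⟨y, hy, hd⟩ := Metric.mem_closure_iff.1 h' (1 / 200) (by norm_num)
  obtain ⟨n, hn⟩ := Set.mem_iUnion.1 hy
  rw [dist_eq_norm] at hd
  obtain ⟨p', h1, h2, h3⟩ := exists_proj (Fk_closed b hD n) hn hp hd.le
  exact ⟨_, n, p', h1, h2, h3, rfl⟩

omit hv in
lemma IsCl.combo {p : H →L[ℂ] H} {x : V} (h : IsCl b hD v p x) :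
    ∃ k, ∃ n : ℕ → ℕ, x = ∑ j ∈ Finset.range (m k), n j • v k j := by
  obtain ⟨k, p', -, -, -, rfl⟩ := h
  exact ⟨k, fun j => rank b (SP D k j) p', rfl⟩

lemma IsCl.pos {p : H →L[ℂ] H} {x : V} (h : IsCl b hD v p x) (hp : Pj p) (h0 : p ≠ 0) :
    0 < τ x := by
  obtain ⟨k, p', h1, h2, h3, rfl⟩ := h
  have h4 : p' ≠ 0 := by
    rintro rfl
    rw [sub_zero] at h3
    apply h0
    have h4 : ‖p‖ * ‖p‖ = ‖p‖ := by
      have := CStarRing.norm_star_mul_self (x := p)
      rw [hp.st, hp.mul] at this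
      exact this.symm
    have h5 : ‖p‖ = 0 := by
      by_contra h6
      have h7 : ‖p‖ = 1 := mul_right_cancel₀ h6 (h4.trans (one_mul ‖p‖).symm)
      rw [h7] at h3
      norm_num at h3
    exact norm_eq_zero.1 h5
  obtain ⟨j, hj, hr⟩ := exists_rank hD h1 h2 h4
  unfold clk
  rw [map_sum]
  apply Finset.sum_pos'
  · intro i hi
    rw [map_nsmul]
    exact nsmul_nonneg (hv.pos k i (Finset.mem_range.1 hi)).le _
  · refine ⟨j, Finset.mem_range.2 hj, ?_⟩
    rw [map_nsmul, nsmul_eq_mul]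
    have := hv.pos k j hj
    have h5 : (0 : ℚ) < (rank b (SP D k j) p' : ℚ) := by
      exact_mod_cast Nat.pos_of_ne_zero hr
    positivity

lemma IsCl.add {p p₁ p₂ : H →L[ℂ] H} {x x₁ x₂ : V} (h : IsCl b hD v p x)
    (h₁ : IsCl b hD v p₁ x₁) (h₂ : IsCl b hD v p₂ x₂) (he : p = p₁ + p₂) : x = x₁ + x₂ := by
  obtain ⟨k, q, a1, a2, a3, rfl⟩ := h
  obtain ⟨k₁, q₁, b1, b2, b3, rfl⟩ := h₁
  obtain ⟨k₂, q₂, c1, c2, c3, rfl⟩ := h₂
  set K := max k (max k₁ k₂) with hK
  have e0 := Fk_mono b hD (show k ≤ K by omega) a1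
  have e1 := Fk_mono b hD (show k₁ ≤ K by omega) b1
  have e2 := Fk_mono b hD (show k₂ ≤ K by omega) c1
  rw [← clk_le hD hv (show k ≤ K by omega) a1 a2, ← clk_le hD hv (show k₁ ≤ K by omega) b1 b2,
    ← clk_le hD hv (show k₂ ≤ K by omega) c1 c2]
  unfold clk
  rw [← Finset.sum_add_distrib]
  refine Finset.sum_congr rfl fun j _ => ?_
  rw [← add_smul]
  congr 1
  refine rank_add (Cm_of_mem hD e0 j) a2 (Cm_of_mem hD e1 j) b2 (Cm_of_mem hD e2 j) c2 ?_
  have : q₁ + q₂ - q = (p - q) - (p₁ - q₁) - (p₂ - q₂) := by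
    rw [he]
    abel
  rw [this]
  calc _ ≤ ‖(p - q) - (p₁ - q₁)‖ + ‖p₂ - q₂‖ := norm_sub_le _ _
    _ ≤ ‖p - q‖ + ‖p₁ - q₁‖ + ‖p₂ - q₂‖ := by gcongr; exact norm_sub_le _ _
    _ ≤ 1 / 4 := by linarith

lemma IsCl.eqv {p p₁ w : H →L[ℂ] H} {x x₁ : V} (h : IsCl b hD v p x) (h₁ : IsCl b hD v p₁ x₁)
    (hp : Pj p) (hw : w ∈ AD b hD) (e : star w * w = p) (e₁ : w * star w = p₁) : x = x₁ := by
  have hw' : w ∈ closure (⋃ k, (Fk b hD k : Set (H →L[ℂ] H))) := hw
  obtain ⟨y, hy, hd⟩ := Metric.mem_closure_iff.1 hw' (1 / 20) (by norm_num)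
  obtain ⟨n, hn⟩ := Set.mem_iUnion.1 hy
  rw [dist_eq_norm] at hd
  obtain ⟨k, q, a1, a2, f0, rfl⟩ := h
  obtain ⟨k₁, q₁, b1, b2, f1, rfl⟩ := h₁
  set K := max n (max k k₁) with hK
  have e0 := Fk_mono b hD (show k ≤ K by omega) a1
  have e1 := Fk_mono b hD (show k₁ ≤ K by omega) b1
  have e2 : y ∈ Fk b hD K := Fk_mono b hD (show n ≤ K by omega) hn
  rw [← clk_le hD hv (show k ≤ K by omega) a1 a2, ← clk_le hD hv (show k₁ ≤ K by omega) b1 b2]
  have hv1 : ‖w‖ ≤ 1 := by
    have h3 := CStarRing.norm_star_mul_self (x := w)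
    rw [e] at h3
    have h4 := hp.norm_le_one
    by_contra h5
    push Not at h5
    nlinarith
  have hw1 : ‖y‖ ≤ 1 + 1 / 20 := by
    have : y = w - (w - y) := by abel
    rw [this]
    exact (norm_sub_le _ _).trans (add_le_add hv1 hd.le)
  unfold clk
  refine Finset.sum_congr rfl fun j _ => ?_
  congr 1
  refine rank_congr (Cm_of_mem hD e0 j) a2 (Cm_of_mem hD e1 j) b2 (Cm_of_mem hD e2 j)
    (δ := 1 / 4) (by norm_num) ?_ ?_
  · have : star y * y - q = (p - q) - (star (w - y) * w + star y * (w - y)) := by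
      rw [← e, star_sub, sub_mul, mul_sub]
      abel
    rw [this]
    have g1 : ‖star (w - y) * w‖ ≤ 1 / 20 * 1 := by
      refine (norm_mul_le _ _).trans ?_
      rw [norm_star]
      exact mul_le_mul hd.le hv1 (norm_nonneg _) (by norm_num)
    have g2 : ‖star y * (w - y)‖ ≤ (1 + 1 / 20) * (1 / 20) := by
      refine (norm_mul_le _ _).trans ?_
      rw [norm_star]
      exact mul_le_mul hw1 hd.le (norm_nonneg _) (by norm_num)
    calc _ ≤ ‖p - q‖ + ‖star (w - y) * w + star y * (w - y)‖ := norm_sub_le _ _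
      _ ≤ ‖p - q‖ + (‖star (w - y) * w‖ + ‖star y * (w - y)‖) := by
          gcongr; exact norm_add_le _ _
      _ ≤ 1 / 16 + (1 / 20 * 1 + (1 + 1 / 20) * (1 / 20)) := by gcongr
      _ ≤ 1 / 4 := by norm_num
  · have : y * star y - q₁ = (p₁ - q₁) - ((w - y) * star w + y * star (w - y)) := by
      rw [← e₁, star_sub, sub_mul, mul_sub]
      abel
    rw [this]
    have g1 : ‖(w - y) * star w‖ ≤ 1 / 20 * 1 := by
      refine (norm_mul_le _ _).trans ?_
      rw [norm_star]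
      exact mul_le_mul hd.le hv1 (norm_nonneg _) (by norm_num)
    have g2 : ‖y * star (w - y)‖ ≤ (1 + 1 / 20) * (1 / 20) := by
      refine (norm_mul_le _ _).trans ?_
      rw [norm_star]
      exact mul_le_mul hw1 hd.le (norm_nonneg _) (by norm_num)
    calc _ ≤ ‖p₁ - q₁‖ + ‖(w - y) * star w + y * star (w - y)‖ := norm_sub_le _ _
      _ ≤ ‖p₁ - q₁‖ + (‖(w - y) * star w‖ + ‖y * star (w - y)‖) := by
          gcongr; exact norm_add_le _ _
      _ ≤ 1 / 16 + (1 / 20 * 1 + (1 + 1 / 20) * (1 / 20)) := by gcongr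
      _ ≤ 1 / 4 := by norm_num

end

end Pool.Agent.J6H74.SAF
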