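import Pool.Agent.J6H74.SAF.Cnt

/-!
# Embeddings from vectors
-/

set_option autoImplicit false

open scoped InnerProductSpace

namespace Pool.Agent.J6H74.SAF

universe u v

variable {H : Type v} [NormedAddCommGroup H] [InnerProductSpace ℂ H] [CompleteSpace H]

/-! ### extension to the closure -/

theorem extend_hom {A : NonUnitalStarSubalgebra ℂ (H →L[ℂ] H)} (f : A →⋆ₙₐ[ℂ] (H →L[ℂ] H))
    (hf : ∀ x, ‖f x‖ = ‖x‖) :
    ∃ g : A.topologicalClosure →⋆ₙₐ[ℂ] (H →L[ℂ] H),
      (∀ x : A, g ⟨x, NonUnitalStarSubalgebra.le_topologicalClosure _ x.2⟩ = f x) ∧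
      ∀ x, ‖g x‖ = ‖x‖ := by
  let e : A →L[ℂ] A.topologicalClosure :=
    { toFun := fun x => ⟨x, NonUnitalStarSubalgebra.le_topologicalClosure _ x.2⟩
      map_add' := fun _ _ => rfl
      map_smul' := fun _ _ => rfl
      cont := by
        apply Continuous.subtype_mk
        exact continuous_subtype_val }
  let fL : A →L[ℂ] (H →L[ℂ] H) := LinearMap.mkContinuous
    { toFun := f
      map_add' := map_add f
      map_smul' := map_smul f } 1 (fun x => by rw [one_mul]; exact (hf x).le)
  have hfL : ∀ x, fL x = f x := fun _ => rfl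
  have hiso : Isometry e := by
    apply Isometry.of_dist_eq
    intro x y
    rfl
  have hd : DenseRange e := by
    intro y
    rw [mem_closure_iff_nhds_basis Metric.nhds_basis_ball]
    intro ε hε
    have hy : (y : H →L[ℂ] H) ∈ closure (A : Set (H →L[ℂ] H)) := y.2
    obtain ⟨x, hx, hxy⟩ := Metric.mem_closure_iff.1 hy ε hε
    refine ⟨e ⟨x, hx⟩, ⟨⟨x, hx⟩, rfl⟩, ?_⟩
    rw [Metric.mem_ball, dist_comm]
    exact hxy
  let G : A.topologicalClosure →L[ℂ] (H →L[ℂ] H) := fL.extend e
  have hG : ∀ x : A, G (e x) = f x := fun x =>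
    fL.extend_eq hd hiso.isUniformInducing x
  have hstar : Continuous fun x : A.topologicalClosure => star x := by
    apply Continuous.subtype_mk
    exact continuous_star.comp continuous_subtype_val
  refine ⟨{ toFun := G
            map_smul' := fun c x => map_smul G c x
            map_zero' := map_zero G
            map_add' := map_add G
            map_mul' := ?_
            map_star' := ?_ }, fun x => hG x, ?_⟩
  · refine hd.induction_on₂ ?_ ?_
    · exact isClosed_eq (G.continuous.comp continuous_mul)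
        ((G.continuous.comp continuous_fst).mul (G.continuous.comp continuous_snd))
    · intro x y
      have h1 : e x * e y = e (x * y) := rfl
      rw [h1, hG, hG, hG, map_mul]
  · intro x
    refine hd.induction_on x ?_ ?_
    · exact isClosed_eq (G.continuous.comp hstar) (continuous_star.comp G.continuous)
    · intro y
      have h1 : star (e y) = e (star y) := rfl
      rw [h1]
      change G (e (star y)) = star (G (e y))
      rw [hG, hG, map_star]
  · intro x
    refine hd.induction_on x ?_ ?_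
    · exact isClosed_eq (continuous_norm.comp G.continuous) continuous_norm
    · intro y
      change ‖G (e y)‖ = ‖e y‖
      rw [hG, hf]
      rfl

/-! ### families of partial isometries -/

variable (b : HilbertBasis ℕ ℂ H)

/-- a family of partial isometries -/
structure CK (D : Dg) (m : ℕ → ℕ) (P : ℕ → ℕ → (H →L[ℂ] H)) (s : ℕ → ℕ → ℕ → (H →L[ℂ] H)) :
    Prop where
  one : P 0 0 = 1
  pj : ∀ k i, i < m k → Pj (P k i)
  ne : ∀ k i, i < m k → P k i ≠ 0
  orth : ∀ k i, i < m k → ∀ c < (D k i).length, ∀ c' < (D k i).length,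
    star (s k i c) * s k i c' = if c = c' then P (k + 1) ((D k i).getD c 0) else 0
  sum : ∀ k i, i < m k → ∑ c ∈ Finset.range (D k i).length, s k i c * star (s k i c) = P k i

/-- the partial isometry of a head -/
noncomputable def sa (D : Dg) (s : ℕ → ℕ → ℕ → (H →L[ℂ] H)) : List ℕ → (H →L[ℂ] H)
  | [] => 1
  | c :: a => sa D s a * s a.length (st D a) c

section

variable {D : Dg} {m : ℕ → ℕ} (hD : Ok D m) {P : ℕ → ℕ → (H →L[ℂ] H)}
  {s : ℕ → ℕ → ℕ → (H →L[ℂ] H)} (hs : CK D m P s)

include hD hs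

lemma CK.left {k i : ℕ} (hi : i < m k) {c : ℕ} (hc : c < (D k i).length) :
    P k i * s k i c = s k i c * P (k + 1) ((D k i).getD c 0) := by
  rw [← hs.sum k i hi, Finset.sum_mul, Finset.sum_eq_single_of_mem c (Finset.mem_range.2 hc)]
  · rw [mul_assoc, hs.orth k i hi c hc c hc, if_pos rfl]
  · intro c' hc' hne
    rw [mul_assoc, hs.orth k i hi c' (Finset.mem_range.1 hc') c hc, if_neg hne, mul_zero]

lemma CK.right {k i : ℕ} (hi : i < m k) {c : ℕ} (hc : c < (D k i).length) :
    s k i c * P (k + 1) ((D k i).getD c 0) = s k i c := by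
  set x := s k i c
  set Q := P (k + 1) ((D k i).getD c 0) with hQ
  have hlt : (D k i).getD c 0 < m (k + 1) := by
    rw [List.getD_eq_getElem _ _ hc]
    exact hD.lt k i hi _ (List.getElem_mem _)
  have hpj := hs.pj (k + 1) _ hlt
  have h1 : star x * x = Q := by
    rw [hs.orth k i hi c hc c hc, if_pos rfl]
  have h2 : star (x - x * Q) * (x - x * Q) = 0 := by
    have h3 : star (x - x * Q) * (x - x * Q) =
        star x * x - star x * x * Q - star Q * (star x * x) + star Q * (star x * x) * Q := by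
      rw [star_sub, star_mul]
      noncomm_ring
    rw [h3, h1, hpj.st, hpj.mul, hpj.mul]
    abel
  have h4 := (CStarRing.star_mul_self_eq_zero_iff _).1 h2
  exact (sub_eq_zero.1 h4).symm

lemma CK.left' {k i : ℕ} (hi : i < m k) {c : ℕ} (hc : c < (D k i).length) :
    P k i * s k i c = s k i c := by rw [CK.left hD hs hi hc, CK.right hD hs hi hc]

lemma sa_right {a : List ℕ} (ha : Ad D a) : sa D s a * P a.length (st D a) = sa D s a := by
  rcases a with _ | ⟨c, a⟩
  · change 1 * P 0 0 = 1
    rw [hs.one, mul_one]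
  · have h1 := st_lt hD ha.2
    have h2 : c < (D a.length (st D a)).length := ha.1
    rw [sa, mul_assoc, st, List.length_cons, CK.right hD hs h1 h2]

lemma sa_orth {a a' : List ℕ} (hl : a.length = a'.length) (ha : Ad D a) (ha' : Ad D a') :
    (open Classical in star (sa D s a) * sa D s a' = if a = a' then P a.length (st D a) else 0) := by
  classical
  induction a generalizing a' with
  | nil =>
    have : a' = [] := List.length_eq_zero_iff.1 hl.symm
    subst this
    rw [if_pos rfl]
    change star (1 : H →L[ℂ] H) * 1 = P 0 0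
    rw [hs.one, star_one, mul_one]
  | cons c a ih =>
    rcases a' with _ | ⟨c', a'⟩
    · simp at hl
    · have hl' : a.length = a'.length := by simpa using hl
      have h1 := st_lt hD ha.2
      have h2 : c < (D a.length (st D a)).length := ha.1
      rw [sa, sa, star_mul, mul_assoc, ← mul_assoc (star (sa D s a)), ih hl' ha.2 ha'.2]
      by_cases h : a = a'
      · subst h
        have h3 : c' < (D a.length (st D a)).length := ha'.1
        rw [if_pos rfl, CK.left' hD hs h1 h3, hs.orth _ _ h1 c h2 c' h3, st, List.length_cons]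
        by_cases h4 : c = c'
        · subst h4
          rw [if_pos rfl, if_pos rfl]
        · rw [if_neg h4, if_neg]
          intro h5
          exact h4 (List.cons.inj h5).1
      · rw [if_neg h, zero_mul, mul_zero, if_neg]
        intro h5
        exact h (List.cons.inj h5).2

lemma sa_sum {a a' : List ℕ} (hl : a.length = a'.length) (ha : Ad D a)
    (hst : st D a = st D a') :
    ∑ c ∈ Finset.range (dg D a), sa D s (c :: a') * star (sa D s (c :: a)) =
      sa D s a' * star (sa D s a) := by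
  have h1 := st_lt hD ha
  have h2 : ∀ c ∈ Finset.range (dg D a), sa D s (c :: a') * star (sa D s (c :: a)) =
      sa D s a' * (s a.length (st D a) c * star (s a.length (st D a) c)) * star (sa D s a) := by
    intro c _
    rw [sa, sa, star_mul, ← hl, ← hst]
    noncomm_ring
  rw [Finset.sum_congr rfl h2, ← Finset.sum_mul, ← Finset.mul_sum]
  unfold dg
  rw [hs.sum _ _ h1, mul_assoc]
  have h3 := congrArg star (sa_right hD hs ha)
  rw [star_mul, (hs.pj _ _ h1).st] at h3
  rw [h3]

end

/-! ### the homomorphism -/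

/-- the map of stage `k` -/
noncomputable def Ph (D : Dg) (s : ℕ → ℕ → ℕ → (H →L[ℂ] H)) (k : ℕ) (T : H →L[ℂ] H) :
    H →L[ℂ] H :=
  ∑ a ∈ Hd D k, ∑ c ∈ Hd D k, cf b D T a c • (sa D s c * star (sa D s a))

section

variable {D : Dg} {m : ℕ → ℕ} (hD : Ok D m) {P : ℕ → ℕ → (H →L[ℂ] H)}
  {s : ℕ → ℕ → ℕ → (H →L[ℂ] H)} (hs : CK D m P s)

lemma Ph_add (k : ℕ) (T T' : H →L[ℂ] H) : Ph b D s k (T + T') = Ph b D s k T + Ph b D s k T' := by
  unfold Ph cf
  simp only [add_apply, inner_add_right, add_smul, Finset.sum_add_distrib]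

lemma Ph_smul (k : ℕ) (z : ℂ) (T : H →L[ℂ] H) : Ph b D s k (z • T) = z • Ph b D s k T := by
  unfold Ph cf
  simp only [smul_apply, inner_smul_right, mul_smul, Finset.smul_sum]

lemma Ph_zero (k : ℕ) : Ph b D s k (0 : H →L[ℂ] H) = 0 := by
  have := Ph_smul b (D := D) (s := s) k 0 0
  rwa [zero_smul, zero_smul] at this

lemma Ph_sum {ι : Type*} (k : ℕ) (F : Finset ι) (T : ι → (H →L[ℂ] H)) :
    Ph b D s k (∑ i ∈ F, T i) = ∑ i ∈ F, Ph b D s k (T i) := by
  classical
  induction F using Finset.induction_on with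
  | empty => rw [Finset.sum_empty, Finset.sum_empty, Ph_zero]
  | insert a F ha ih => rw [Finset.sum_insert ha, Finset.sum_insert ha, Ph_add, ih]

include hD

lemma Ph_E {k : ℕ} {a c : List ℕ} (ha : a ∈ Hd D k) (hc : c ∈ Hd D k) :
    Ph b D s k (E b D a c) = sa D s c * star (sa D s a) := by
  classical
  unfold Ph cf
  rw [Finset.sum_eq_single_of_mem a ha, Finset.sum_eq_single_of_mem c hc]
  · rw [cf_E b hD ha hc ha hc, if_pos ⟨rfl, rfl, rfl⟩, one_smul]
  · intro c' hc' hne
    rw [cf_E b hD ha hc ha hc', if_neg (fun h => hne h.2.1), zero_smul]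
  · intro a' ha' hne
    refine Finset.sum_eq_zero fun c' hc' => ?_
    rw [cf_E b hD ha hc ha' hc', if_neg (fun h => hne h.1), zero_smul]

include hs

lemma Ph_mul {k : ℕ} {T T' : H →L[ℂ] H} (hT : T ∈ Fk b hD k) (hT' : T' ∈ Fk b hD k) :
    Ph b D s k (T * T') = Ph b D s k T * Ph b D s k T' := by
  classical
  rw [mem_Fk] at hT hT'
  induction hT using Submodule.span_induction with
  | mem T hT =>
    induction hT' using Submodule.span_induction with
    | mem T' hT' =>
      obtain ⟨a, c, h1, h2, h3, h4, h5, rfl⟩ := hT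
      obtain ⟨a', c', h1', h2', h3', h4', h5', rfl⟩ := hT'
      have ha := mem_Hd.2 ⟨h1, h3⟩
      have hc := mem_Hd.2 ⟨h2, h4⟩
      have ha' := mem_Hd.2 ⟨h1', h3'⟩
      have hc' := mem_Hd.2 ⟨h2', h4'⟩
      rw [Ph_E b hD ha hc, Ph_E b hD ha' hc', mul_assoc, ← mul_assoc (star (sa D s a)),
        sa_orth hD hs (h1.trans h2'.symm) h3 h4']
      by_cases h : a = c'
      · subst h
        rw [if_pos rfl, E_mul b hD h3' h3 h4, Ph_E b hD ha' hc, h5, h1, ← h2, ← mul_assoc,
          sa_right hD hs h4]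
      · rw [if_neg h, zero_mul, mul_zero, E_mul_ne b hD (h1.trans h2'.symm) h3' h4' h3 h, Ph_zero]
    | zero => rw [mul_zero, Ph_zero, mul_zero]
    | add x y _ _ hx hy => rw [mul_add, Ph_add, Ph_add, mul_add, hx, hy]
    | smul z x _ hx => rw [mul_smul_comm, Ph_smul, Ph_smul, mul_smul_comm, hx]
  | zero => rw [zero_mul, Ph_zero, zero_mul]
  | add x y _ _ hx hy => rw [add_mul, Ph_add, Ph_add, add_mul, hx, hy]
  | smul z x _ hx => rw [smul_mul_assoc, Ph_smul, Ph_smul, smul_mul_assoc, hx]

omit hs in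
lemma Ph_star {k : ℕ} {T : H →L[ℂ] H} (hT : T ∈ Fk b hD k) :
    Ph b D s k (star T) = star (Ph b D s k T) := by
  rw [mem_Fk] at hT
  induction hT using Submodule.span_induction with
  | mem T hT =>
    obtain ⟨a, c, h1, h2, h3, h4, h5, rfl⟩ := hT
    have ha := mem_Hd.2 ⟨h1, h3⟩
    have hc := mem_Hd.2 ⟨h2, h4⟩
    rw [star_E, Ph_E b hD ha hc, Ph_E b hD hc ha, star_mul, star_star]
  | zero => rw [star_zero, Ph_zero, star_zero]
  | add x y _ _ hx hy => rw [star_add, Ph_add, Ph_add, star_add, hx, hy]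
  | smul z x _ hx => rw [star_smul, Ph_smul, Ph_smul, star_smul, hx]

lemma Ph_succ {k : ℕ} {T : H →L[ℂ] H} (hT : T ∈ Fk b hD k) :
    Ph b D s (k + 1) T = Ph b D s k T := by
  rw [mem_Fk] at hT
  induction hT using Submodule.span_induction with
  | mem T hT =>
    obtain ⟨a, c, h1, h2, h3, h4, h5, rfl⟩ := hT
    have ha := mem_Hd.2 ⟨h1, h3⟩
    have hc := mem_Hd.2 ⟨h2, h4⟩
    have hdg : dg D a = dg D c := by unfold dg; rw [h1, h2, h5]
    rw [Ph_E b hD ha hc, E_succ b hD (h1.trans h2.symm) h3 h4 h5, Ph_sum,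
      ← sa_sum hD hs (h1.trans h2.symm) h3 h5]
    refine Finset.sum_congr rfl fun i hi => ?_
    have hi' := Finset.mem_range.1 hi
    have h6 : i :: a ∈ Hd D (k + 1) := mem_Hd.2 ⟨by rw [List.length_cons, h1], hi', h3⟩
    have h7 : i :: c ∈ Hd D (k + 1) :=
      mem_Hd.2 ⟨by rw [List.length_cons, h2], by rw [← hdg]; exact hi', h4⟩
    rw [Ph_E b hD h6 h7]
  | zero => rw [Ph_zero, Ph_zero]
  | add x y _ _ hx hy => rw [Ph_add, Ph_add, hx, hy]
  | smul z x _ hx => rw [Ph_smul, Ph_smul, hx]

lemma Ph_le {k k' : ℕ} (h : k ≤ k') {T : H →L[ℂ] H} (hT : T ∈ Fk b hD k) :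
    Ph b D s k' T = Ph b D s k T := by
  induction k', h using Nat.le_induction with
  | base => rfl
  | succ k' h ih => rw [Ph_succ b hD hs (Fk_mono b hD h hT), ih]

lemma Ph_inj {k : ℕ} {T : H →L[ℂ] H} (hT : T ∈ Fk b hD k) (h : Ph b D s k T = 0) : T = 0 := by
  classical
  rw [expand b hD hT]
  refine Finset.sum_eq_zero fun a ha => Finset.sum_eq_zero fun c hc => ?_
  by_cases hst : st D a = st D c
  · have h1 : star (sa D s c) * Ph b D s k T * sa D s a = 0 := by rw [h, mul_zero, zero_mul]
    have ha' := mem_Hd.1 ha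
    have hc' := mem_Hd.1 hc
    have hlt := st_lt hD ha'.2
    rw [ha'.1] at hlt
    have h2 : star (sa D s c) * Ph b D s k T * sa D s a = cf b D T a c • P k (st D a) := by
      unfold Ph
      rw [Finset.mul_sum, Finset.sum_mul, Finset.sum_eq_single_of_mem a ha]
      · rw [Finset.mul_sum, Finset.sum_mul, Finset.sum_eq_single_of_mem c hc]
        · have e1 : star (sa D s c) * cf b D T a c • (sa D s c * star (sa D s a)) * sa D s a =
              cf b D T a c • ((star (sa D s c) * sa D s c) * (star (sa D s a) * sa D s a)) := by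
            rw [mul_smul_comm, smul_mul_assoc]
            congr 1
          rw [e1, sa_orth hD hs rfl hc'.2 hc'.2, sa_orth hD hs rfl ha'.2 ha'.2, if_pos rfl,
            if_pos rfl, ha'.1, hc'.1, ← hst, (hs.pj k _ hlt).mul]
        · intro c₁ hc₁ hne
          have h3 := mem_Hd.1 hc₁
          have e1 : star (sa D s c) * cf b D T a c₁ • (sa D s c₁ * star (sa D s a)) * sa D s a =
              cf b D T a c₁ • ((star (sa D s c) * sa D s c₁) * (star (sa D s a) * sa D s a)) := by
            rw [mul_smul_comm, smul_mul_assoc]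
            congr 1
          rw [e1, sa_orth hD hs (hc'.1.trans h3.1.symm) hc'.2 h3.2, if_neg (fun h => hne h.symm),
            zero_mul, smul_zero]
      · intro a₁ ha₁ hne
        have h3 := mem_Hd.1 ha₁
        rw [Finset.mul_sum, Finset.sum_mul]
        refine Finset.sum_eq_zero fun c₁ hc₁ => ?_
        have e1 : star (sa D s c) * cf b D T a₁ c₁ • (sa D s c₁ * star (sa D s a₁)) * sa D s a =
            cf b D T a₁ c₁ • ((star (sa D s c) * sa D s c₁) * (star (sa D s a₁) * sa D s a)) := by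
          rw [mul_smul_comm, smul_mul_assoc]
          congr 1
        rw [e1, sa_orth hD hs (h3.1.trans ha'.1.symm) h3.2 ha'.2, if_neg hne, mul_zero, smul_zero]
    rw [h2] at h1
    rcases smul_eq_zero.1 h1 with h3 | h3
    · rw [h3, zero_smul]
    · exact absurd h3 (hs.ne k _ hlt)
  · rw [mc_st b hD hT ha hc hst, zero_smul]

/-- a family of partial isometries in a closed algebra gives an embedding -/
theorem exists_hom (B : NonUnitalStarSubalgebra ℂ (H →L[ℂ] H))
    (hB : IsClosed (B : Set (H →L[ℂ] H))) (h1B : (1 : H →L[ℂ] H) ∈ B)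
    (hsB : ∀ k i, i < m k → ∀ c < (D k i).length, s k i c ∈ B) :
    ∃ φ : AD b hD →⋆ₙₐ[ℂ] B, Function.Injective φ ∧
      ∀ h1 : (1 : H →L[ℂ] H) ∈ AD b hD, (φ ⟨1, h1⟩ : H →L[ℂ] H) = 1 := by
  classical
  have hsa : ∀ a, Ad D a → sa D s a ∈ B := by
    intro a
    induction a with
    | nil => exact fun _ => h1B
    | cons c a ih =>
      intro ha
      exact mul_mem (ih ha.2) (hsB _ _ (st_lt hD ha.2) c ha.1)
  have hPhB : ∀ k T, Ph b D s k T ∈ B := by
    intro k T
    refine sum_mem fun a ha => sum_mem fun c hc => SMulMemClass.smul_mem _ (mul_mem ?_ ?_)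
    · exact hsa c (mem_Hd.1 hc).2
    · exact star_mem (hsa a (mem_Hd.1 ha).2)
  -- the stage of an element
  have hst : ∀ x : FU b hD, ∃ k, (x : H →L[ℂ] H) ∈ Fk b hD k := fun x => (mem_FU b hD).1 x.2
  choose κ hκ using hst
  have hval : ∀ (x : FU b hD) (k : ℕ), (x : H →L[ℂ] H) ∈ Fk b hD k →
      Ph b D s (κ x) x = Ph b D s k x := by
    intro x k hk
    rw [← Ph_le b hD hs (le_max_left (κ x) k) (hκ x), ← Ph_le b hD hs (le_max_right (κ x) k) hk]
  let f : FU b hD →⋆ₙₐ[ℂ] (H →L[ℂ] H) :=
    { toFun := fun x => Ph b D s (κ x) x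
      map_smul' := by
        intro c x
        rw [hval (c • x) (κ x) (SMulMemClass.smul_mem c (hκ x))]
        exact Ph_smul b _ c x
      map_zero' := by
        rw [hval 0 0 (zero_mem _)]
        exact Ph_zero b _
      map_add' := by
        intro x y
        have e1 := Fk_mono b hD (le_max_left (κ x) (κ y)) (hκ x)
        have e2 := Fk_mono b hD (le_max_right (κ x) (κ y)) (hκ y)
        rw [hval (x + y) _ (add_mem e1 e2), hval x _ e1, hval y _ e2]
        exact Ph_add b _ x y
      map_mul' := by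
        intro x y
        have e1 := Fk_mono b hD (le_max_left (κ x) (κ y)) (hκ x)
        have e2 := Fk_mono b hD (le_max_right (κ x) (κ y)) (hκ y)
        rw [hval (x * y) _ (mul_mem e1 e2), hval x _ e1, hval y _ e2]
        exact Ph_mul b hD hs e1 e2
      map_star' := by
        intro x
        rw [hval (star x) _ (star_mem (hκ x))]
        exact Ph_star b hD (hκ x) }
  have hf : ∀ x, ‖f x‖ = ‖x‖ := by
    intro x
    haveI : IsClosed (Fk b hD (κ x) : Set (H →L[ℂ] H)) := Fk_closed b hD (κ x)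
    let g : Fk b hD (κ x) →⋆ₙₐ[ℂ] (H →L[ℂ] H) :=
      { toFun := fun y => Ph b D s (κ x) y
        map_smul' := fun c y => Ph_smul b _ c y
        map_zero' := Ph_zero b _
        map_add' := fun y z => Ph_add b _ y z
        map_mul' := fun y z => Ph_mul b hD hs y.2 z.2
        map_star' := fun y => Ph_star b hD y.2 }
    have hg : Function.Injective g := by
      rw [injective_iff_map_eq_zero]
      intro y hy
      exact Subtype.ext (Ph_inj b hD hs y.2 hy)
    have h2 := NonUnitalStarAlgHom.norm_map g hg ⟨x, hκ x⟩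
    exact h2
  obtain ⟨g, hg1, hg2⟩ : ∃ g : AD b hD →⋆ₙₐ[ℂ] (H →L[ℂ] H),
      (∀ (x : H →L[ℂ] H) (hx : x ∈ FU b hD) (hx' : x ∈ AD b hD), g ⟨x, hx'⟩ = f ⟨x, hx⟩) ∧
        ∀ x, ‖g x‖ = ‖x‖ := by
    obtain ⟨g, hg1, hg2⟩ := extend_hom f hf
    exact ⟨g, fun x hx _ => hg1 ⟨x, hx⟩, hg2⟩
  have hgB : ∀ x : AD b hD, g x ∈ B := by
    intro x
    have h2 : IsClosed {y : AD b hD | g y ∈ B} := by
      have h3 : Continuous g := by
        apply AddMonoidHomClass.continuous_of_bound g 1
        intro y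
        rw [one_mul]
        exact (hg2 y).le
      exact hB.preimage h3
    have hx : (x : H →L[ℂ] H) ∈ closure (FU b hD : Set (H →L[ℂ] H)) := x.2
    obtain ⟨u, hu1, hu2⟩ := mem_closure_iff_seq_limit.1 hx
    have h4 : Filter.Tendsto (fun n => (⟨u n, NonUnitalStarSubalgebra.le_topologicalClosure _
        (hu1 n)⟩ : AD b hD)) Filter.atTop (nhds x) := by
      rw [tendsto_subtype_rng]
      exact hu2
    refine h2.mem_of_tendsto h4 (Filter.Eventually.of_forall fun n => ?_)
    change g _ ∈ B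
    have h5 := hg1 (u n) (hu1 n) (NonUnitalStarSubalgebra.le_topologicalClosure _ (hu1 n))
    rw [h5]
    exact hPhB _ _
  refine ⟨NonUnitalStarAlgHom.codRestrict g B hgB, ?_, ?_⟩
  · intro x y hxy
    have h3 : g x = g y := congrArg Subtype.val hxy
    have h4 : g (x - y) = 0 := by rw [map_sub, h3, sub_self]
    have h5 := hg2 (x - y)
    rw [h4, norm_zero] at h5
    exact sub_eq_zero.1 (norm_eq_zero.1 h5.symm)
  · intro h1
    change g ⟨1, h1⟩ = 1
    have h2 : (1 : H →L[ℂ] H) ∈ Fk b hD 0 := one_mem b hD 0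
    have h3 : (1 : H →L[ℂ] H) ∈ FU b hD := (mem_FU b hD).2 ⟨0, h2⟩
    have h4 := hg1 1 h3 h1
    refine h4.trans ?_
    change Ph b D s (κ ⟨1, h3⟩) (1 : H →L[ℂ] H) = 1
    have h6 := hval ⟨1, h3⟩ 0 h2
    have h7 : Ph b D s 0 (1 : H →L[ℂ] H) = 1 := by
      have h8 : ([] : List ℕ) ∈ Hd D 0 := mem_Hd.2 ⟨rfl, trivial⟩
      rw [← E_nil (b := b) (D := D), Ph_E b hD h8 h8, E_nil]
      change (1 : H →L[ℂ] H) * star 1 = 1
      rw [star_one, mul_one]
    exact h6.trans h7

end

/-! ### the family of an equality of classes -/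

section

variable {V : Type u} [AddCommGroup V] [Module ℚ V]

variable {D D' : Dg} {m m' : ℕ → ℕ} (hD : Ok D m) (hD' : Ok D' m') {τ : V →ₗ[ℚ] ℚ}
  {v : ℕ → ℕ → V} (hv : Vc D' m' τ v)

include hD hD' hv

/-- vectors with the relations of the diagram `D` which are combinations of the vectors of the
diagram `D'` give an embedding of the algebras -/
theorem embedding_of_vectors {y : ℕ → ℕ → V}
    (hrel : ∀ k i, i < m k → y k i = ((D k i).map (y (k + 1))).sum) (h0 : y 0 0 = v 0 0)
    (hpos : ∀ k i, i < m k → 0 < τ (y k i))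
    (hcomb : ∀ k i, i < m k → ∃ k', ∃ n : ℕ → ℕ, y k i = ∑ j ∈ Finset.range (m' k'), n j • v k' j) :
    ∃ φ : AD b hD →⋆ₙₐ[ℂ] AD b hD', Function.Injective φ ∧
      ∀ h1 : (1 : H →L[ℂ] H) ∈ AD b hD, (φ ⟨1, h1⟩ : H →L[ℂ] H) = 1 := by
  classical
  -- the levels
  have hJ : ∀ k, ∃ J, ∀ i < m k, ∃ n : ℕ → ℕ, y k i = ∑ j ∈ Finset.range (m' J), n j • v J j := by
    intro k
    choose! K hK using hcomb k
    refine ⟨(Finset.range (m k)).sup K, fun i hi => ?_⟩
    exact combo_lift hD' hv (Finset.le_sup (Finset.mem_range.2 hi)) (hK i hi)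
  choose J hJ using hJ
  let L : ℕ → ℕ := fun k => (Finset.range (k + 1)).sup J
  have hL : ∀ k, L k ≤ L (k + 1) := fun k =>
    Finset.sup_mono (Finset.range_mono (Nat.le_succ _))
  have hLc : ∀ k, ∀ i < m k, ∃ n : ℕ → ℕ, y k i = ∑ j ∈ Finset.range (m' (L k)), n j • v (L k) j := by
    intro k i hi
    exact combo_lift hD' hv (Finset.le_sup (f := J) (Finset.mem_range.2 (Nat.lt_succ_self k)))
      (hJ k i hi)
  choose! n hn using hLc
  -- the sets of heads
  have hcount : ∀ k i, i < m k → ∀ t < m' (L k),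
      n k i t ≤ ((Hd D' (L k)).filter fun a => st D' a = t).card := by
    intro k i hi t ht
    have h1 := sum_heads hD hrel k
    have h2 := sum_heads hD' hv.rel (L k)
    have h3 : cls D' v (L k) (Hd D' (L k)) =
        ∑ t ∈ Finset.range (m' (L k)), (∑ a ∈ Hd D k, n k (st D a) t) • v (L k) t := by
      rw [h2, ← h0, ← h1]
      unfold cls
      have h4 : ∀ a ∈ Hd D k, y k (st D a) =
          ∑ t ∈ Finset.range (m' (L k)), n k (st D a) t • v (L k) t := by
        intro a ha
        have h5 := mem_Hd.1 ha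
        have h6 := st_lt hD h5.2
        rw [h5.1] at h6
        exact hn k _ h6
      rw [Finset.sum_congr rfl h4, Finset.sum_comm]
      refine Finset.sum_congr rfl fun t _ => ?_
      rw [Finset.sum_smul]
    rw [card_unique hD' hv subset_rfl h3 t ht]
    obtain ⟨a, g1, g2, g3⟩ := exists_head hD k i hi
    have h7 := Finset.single_le_sum (f := fun a => n k (st D a) t) (s := Hd D k)
      (fun _ _ => Nat.zero_le _) (mem_Hd.2 ⟨g1, g2⟩)
    simpa only [g3] using h7
  have hS : ∀ k i, ∃ S : Finset (List ℕ), i < m k → S ⊆ Hd D' (L k) ∧ cls D' v (L k) S = y k i := by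
    intro k i
    by_cases hi : i < m k
    · obtain ⟨S, h1, h2⟩ := exists_subset (v := v) hD' (hcount k i hi)
      exact ⟨S, fun _ => ⟨h1, h2.trans (hn k i hi).symm⟩⟩
    · exact ⟨∅, fun h => absurd h hi⟩
  choose S hS using hS
  -- the partial isometries
  have hiso : ∀ k i, ∃ s : ℕ → (H →L[ℂ] H), i < m k →
      (∀ c < (D k i).length, s c ∈ AD b hD') ∧
      (∀ c < (D k i).length, ∀ c' < (D k i).length, star (s c) * s c' =
        if c = c' then QS b D' (S (k + 1) ((D k i).getD c 0)) else 0) ∧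
      ∑ c ∈ Finset.range (D k i).length, s c * star (s c) = QS b D' (S k i) := by
    intro k i
    by_cases hi : i < m k
    · obtain ⟨h1, h2⟩ := hS k i hi
      obtain ⟨S', h3, h4, h5⟩ := lift_le b hD' hv (hL k) h1
      have hlt : ∀ c < (D k i).length, (D k i).getD c 0 < m (k + 1) := by
        intro c hc
        rw [List.getD_eq_getElem _ _ hc]
        exact hD.lt k i hi _ (List.getElem_mem _)
      obtain ⟨s, g1, g2, g3⟩ := exists_iso b hD' hv (N := (D k i).length)
        (X := fun c => S (k + 1) ((D k i).getD c 0)) h3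
        (fun c hc => (hS (k + 1) _ (hlt c hc)).1) (by
          rw [h5, h2, hrel k i hi, ← sum_getD]
          refine Finset.sum_congr rfl fun c hc => ?_
          exact ((hS (k + 1) _ (hlt c (Finset.mem_range.1 hc))).2).symm)
      exact ⟨s, fun _ => ⟨fun c hc => Fk_le_AD b hD' _ (g1 c hc), g2, g3.trans h4⟩⟩
    · exact ⟨fun _ => 0, fun h => absurd h hi⟩
  choose s hs using hiso
  have hPone : QS b D' (S 0 0) = 1 := by
    have hm : 0 < m 0 := hD.pos 0
    obtain ⟨h1, h2⟩ := hS 0 0 hm
    have h3 : S 0 0 = Hd D' (L 0) := by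
      by_contra hne
      have h4 : S 0 0 ⊂ Hd D' (L 0) := lt_of_le_of_ne h1 hne
      have h5 := sum_heads hD' hv.rel (L 0)
      have h6 : cls D' v (L 0) (Hd D' (L 0)) = cls D' v (L 0) (Hd D' (L 0) \ S 0 0) +
          cls D' v (L 0) (S 0 0) := (Finset.sum_sdiff h1).symm
      rw [h5, h2, h0] at h6
      have h7 : cls D' v (L 0) (Hd D' (L 0) \ S 0 0) = 0 := by
        simpa using h6
      have h8 : 0 < τ (cls D' v (L 0) (Hd D' (L 0) \ S 0 0)) := by
        unfold cls
        rw [map_sum]
        apply Finset.sum_pos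
        · intro a ha
          have h9 := mem_Hd.1 (Finset.mem_sdiff.1 ha).1
          have h10 := st_lt hD' h9.2
          rw [h9.1] at h10
          exact hv.pos _ _ h10
        · exact Finset.sdiff_nonempty.2 h4.2
      rw [h7, map_zero] at h8
      exact lt_irrefl _ h8
    rw [h3]
    have h11 : Hd D' 0 = {[]} := rfl
    obtain ⟨S', g1, g2, g3⟩ := lift_le b hD' hv (Nat.zero_le (L 0)) (S := Hd D' 0) subset_rfl
    have h12 : QS b D' (Hd D' (L 0)) = 1 := by
      apply ext_k b hD' (L 0)
      intro a h1 h2 r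
      unfold QS
      rw [sum_apply, Finset.sum_eq_single_of_mem a (mem_Hd.2 ⟨h1, h2⟩), E_pos b hD' h2 h2]
      · rfl
      · intro c hc hne
        have h13 := mem_Hd.1 hc
        exact E_ne b hD' (h13.1.trans h1.symm) h13.2 h2 hne r
    exact h12
  have hCK : CK D m (fun k i => QS b D' (S k i)) s := by
    refine ⟨hPone, fun k i hi => QS_pj b hD' (hS k i hi).1, fun k i hi => ?_,
      fun k i hi => (hs k i hi).2.1, fun k i hi => (hs k i hi).2.2⟩
    obtain ⟨h1, h2⟩ := hS k i hi
    have h3 : (S k i).Nonempty := by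
      by_contra h4
      rw [Finset.not_nonempty_iff_eq_empty] at h4
      have h5 := hpos k i hi
      rw [← h2, h4] at h5
      simp [cls] at h5
    obtain ⟨a, ha⟩ := h3
    have ha' := mem_Hd.1 (h1 ha)
    intro h4
    have h5 := congrArg (fun T : H →L[ℂ] H => T (b (pos D' a 0))) h4
    simp only [zero_apply] at h5
    unfold QS at h5
    rw [sum_apply, Finset.sum_eq_single_of_mem a ha, E_pos b hD' ha'.2 ha'.2] at h5
    · have h6 := b.orthonormal.1 (pos D' a 0)
      rw [h5, norm_zero] at h6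
      exact zero_ne_one h6
    · intro c hc hne
      have hc' := mem_Hd.1 (h1 hc)
      exact E_ne b hD' (hc'.1.trans ha'.1.symm) hc'.2 ha'.2 hne 0
  exact exists_hom b hD hCK (AD b hD') (AD_closed b hD') (Fk_le_AD b hD' 0 (one_mem b hD' 0))
    fun k i hi => (hs k i hi).1

end

end Pool.Agent.J6H74.SAF
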