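import Pool.Agent.J6H74.SAF.Emb

/-!
# Sets of heads and their classes
-/

set_option autoImplicit false

open scoped InnerProductSpace

namespace Pool.Agent.J6H74.SAF

universe u v

variable {H : Type v} [NormedAddCommGroup H] [InnerProductSpace ℂ H] [CompleteSpace H]
  (b : HilbertBasis ℕ ℂ H)

variable {V : Type u} [AddCommGroup V] [Module ℚ V]

/-- the class of a set of heads of length `k` -/
def cls (D : Dg) (v : ℕ → ℕ → V) (k : ℕ) (S : Finset (List ℕ)) : V := ∑ a ∈ S, v k (st D a)

/-- the sum over all heads -/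
lemma sum_heads {D : Dg} {m : ℕ → ℕ} (hD : Ok D m) {w : ℕ → ℕ → V}
    (hw : ∀ k i, i < m k → w k i = ((D k i).map (w (k + 1))).sum) (k : ℕ) :
    cls D w k (Hd D k) = w 0 0 := by
  unfold cls
  induction k with
  | zero => simp [Hd, st]
  | succ k ih =>
    rw [sum_Hd_succ, ← ih]
    refine Finset.sum_congr rfl fun a ha => ?_
    rw [mem_Hd] at ha
    have h1 := st_lt hD ha.2
    rw [ha.1] at h1
    rw [hw k _ h1, ← sum_getD]
    unfold dg
    rw [ha.1]
    refine Finset.sum_congr rfl fun c _ => ?_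
    rw [st, ha.1]

section

variable {D : Dg} {m : ℕ → ℕ} (hD : Ok D m) {τ : V →ₗ[ℚ] ℚ} {v : ℕ → ℕ → V} (hv : Vc D m τ v)

include hD

omit [Module ℚ V] in
lemma cls_eq {k : ℕ} {S : Finset (List ℕ)} (hS : S ⊆ Hd D k) :
    cls D v k S = ∑ t ∈ Finset.range (m k), (S.filter fun a => st D a = t).card • v k t := by
  classical
  unfold cls
  rw [← Finset.sum_fiberwise_of_maps_to (s := S) (t := Finset.range (m k)) (g := fun a => st D a)]
  · refine Finset.sum_congr rfl fun t _ => ?_
    rw [← Finset.sum_const]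
    exact Finset.sum_congr rfl fun a ha => by rw [(Finset.mem_filter.1 ha).2]
  · intro a ha
    have h1 := mem_Hd.1 (hS ha)
    rw [Finset.mem_range, ← h1.1]
    exact st_lt hD h1.2

include hv

omit hD in
lemma coef_unique {k : ℕ} {n n' : ℕ → ℕ}
    (h : ∑ t ∈ Finset.range (m k), n t • v k t = ∑ t ∈ Finset.range (m k), n' t • v k t) :
    ∀ t < m k, n t = n' t := by
  have h1 := hv.li k
  rw [Fintype.linearIndependent_iff] at h1
  have h2 := h1 (fun i => (n i : ℚ) - (n' i : ℚ)) (by
    simp only [sub_smul, Finset.sum_sub_distrib]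
    rw [Fin.sum_univ_eq_sum_range (fun i => ((n i : ℚ)) • v k i),
      Fin.sum_univ_eq_sum_range (fun i => ((n' i : ℚ)) • v k i), sub_eq_zero]
    simpa only [Nat.cast_smul_eq_nsmul] using h)
  intro t ht
  have h3 := h2 ⟨t, ht⟩
  simp only [sub_eq_zero] at h3
  exact_mod_cast h3

lemma card_unique {k : ℕ} {S : Finset (List ℕ)} (hS : S ⊆ Hd D k) {n : ℕ → ℕ}
    (h : cls D v k S = ∑ t ∈ Finset.range (m k), n t • v k t) :
    ∀ t < m k, (S.filter fun a => st D a = t).card = n t := by
  rw [cls_eq hD hS] at h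
  exact coef_unique hv h

lemma lift_one {k : ℕ} {S : Finset (List ℕ)} (hS : S ⊆ Hd D k) :
    ∃ S' ⊆ Hd D (k + 1), QS b D S' = QS b D S ∧ cls D v (k + 1) S' = cls D v k S := by
  classical
  have hdis : (S : Set (List ℕ)).PairwiseDisjoint
      (fun a => (Finset.range (dg D a)).image (fun c => c :: a)) := by
    intro a _ a' _ hne
    rw [Function.onFun, Finset.disjoint_left]
    intro x hx hx'
    obtain ⟨c, -, rfl⟩ := Finset.mem_image.1 hx
    obtain ⟨c', -, h⟩ := Finset.mem_image.1 hx'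
    exact hne (List.cons.inj h).2.symm
  refine ⟨S.biUnion fun a => (Finset.range (dg D a)).image (fun c => c :: a), ?_, ?_, ?_⟩
  · intro x hx
    obtain ⟨a, ha, hx⟩ := Finset.mem_biUnion.1 hx
    obtain ⟨c, hc, rfl⟩ := Finset.mem_image.1 hx
    have h1 := mem_Hd.1 (hS ha)
    exact mem_Hd.2 ⟨by simp [h1.1], Finset.mem_range.1 hc, h1.2⟩
  · unfold QS
    rw [Finset.sum_biUnion hdis]
    refine Finset.sum_congr rfl fun a ha => ?_
    exact (QS_succ b hD (mem_Hd.1 (hS ha)).2).symm
  · unfold cls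
    rw [Finset.sum_biUnion hdis]
    refine Finset.sum_congr rfl fun a ha => ?_
    have h1 := mem_Hd.1 (hS ha)
    have h2 := st_lt hD h1.2
    rw [h1.1] at h2
    rw [Finset.sum_image (fun c _ c' _ h => (List.cons.inj h).1), hv.rel k _ h2, ← sum_getD]
    unfold dg
    rw [h1.1]
    refine Finset.sum_congr rfl fun c _ => ?_
    rw [st, h1.1]

lemma lift_le {k k' : ℕ} (hk : k ≤ k') {S : Finset (List ℕ)} (hS : S ⊆ Hd D k) :
    ∃ S' ⊆ Hd D k', QS b D S' = QS b D S ∧ cls D v k' S' = cls D v k S := by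
  induction k', hk using Nat.le_induction with
  | base => exact ⟨S, hS, rfl, rfl⟩
  | succ k' _ ih =>
    obtain ⟨S', h1, h2, h3⟩ := ih
    obtain ⟨S'', h4, h5, h6⟩ := lift_one b hD hv h1
    exact ⟨S'', h4, h5.trans h2, h6.trans h3⟩

lemma combo_lift {k k' : ℕ} (hk : k ≤ k') {x : V}
    (h : ∃ n : ℕ → ℕ, x = ∑ j ∈ Finset.range (m k), n j • v k j) :
    ∃ n : ℕ → ℕ, x = ∑ j ∈ Finset.range (m k'), n j • v k' j := by
  induction k', hk using Nat.le_induction with
  | base => exact h
  | succ k' _ ih =>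
    obtain ⟨n, hn⟩ := ih
    refine ⟨fun j' => ∑ j ∈ Finset.range (m k'), (D k' j).count j' * n j, ?_⟩
    have h1 : ∀ j ∈ Finset.range (m k'), n j • v k' j =
        ∑ j' ∈ Finset.range (m (k' + 1)), ((D k' j).count j' * n j) • v (k' + 1) j' := by
      intro j hj
      rw [Finset.mem_range] at hj
      rw [hv.rel k' j hj, sum_map_count _ _ (hD.lt k' j hj), Finset.smul_sum]
      refine Finset.sum_congr rfl fun j' _ => ?_
      rw [smul_smul, mul_comm]
    rw [hn, Finset.sum_congr rfl h1, Finset.sum_comm]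
    refine Finset.sum_congr rfl fun j' _ => ?_
    rw [Finset.sum_smul]

omit hv in
omit [Module ℚ V] in
lemma exists_subset {k : ℕ} {n : ℕ → ℕ}
    (hn : ∀ t < m k, n t ≤ ((Hd D k).filter fun a => st D a = t).card) :
    ∃ S ⊆ Hd D k, cls D v k S = ∑ t ∈ Finset.range (m k), n t • v k t := by
  classical
  have h1 : ∀ t, ∃ S : Finset (List ℕ), S ⊆ (Hd D k).filter (fun a => st D a = t) ∧
      (t < m k → S.card = n t) := by
    intro t
    by_cases ht : t < m k
    · obtain ⟨S, h1, h2⟩ := Finset.exists_subset_card_eq (hn t ht)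
      exact ⟨S, h1, fun _ => h2⟩
    · exact ⟨∅, Finset.empty_subset _, fun h => absurd h ht⟩
  choose S hS1 hS2 using h1
  refine ⟨(Finset.range (m k)).biUnion S, ?_, ?_⟩
  · intro a ha
    obtain ⟨t, -, h⟩ := Finset.mem_biUnion.1 ha
    exact (Finset.mem_filter.1 (hS1 t h)).1
  · unfold cls
    rw [Finset.sum_biUnion]
    · refine Finset.sum_congr rfl fun t ht => ?_
      rw [← hS2 t (Finset.mem_range.1 ht), ← Finset.sum_const]
      refine Finset.sum_congr rfl fun a ha => ?_
      rw [(Finset.mem_filter.1 (hS1 t ha)).2]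
    · intro t _ t' _ hne
      rw [Function.onFun, Finset.disjoint_left]
      intro x hx hx'
      exact hne ((Finset.mem_filter.1 (hS1 t hx)).2.symm.trans
        (Finset.mem_filter.1 (hS1 t' hx')).2)

/-- partial isometries which realise an equality of classes -/
lemma exists_iso {k N : ℕ} {S : Finset (List ℕ)} (hS : S ⊆ Hd D k) {X : ℕ → Finset (List ℕ)}
    (hX : ∀ c < N, X c ⊆ Hd D k)
    (h : cls D v k S = ∑ c ∈ Finset.range N, cls D v k (X c)) :
    ∃ s : ℕ → (H →L[ℂ] H), (∀ c < N, s c ∈ Fk b hD k) ∧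
      (∀ c < N, ∀ c' < N, star (s c) * s c' = if c = c' then QS b D (X c) else 0) ∧
      ∑ c ∈ Finset.range N, s c * star (s c) = QS b D S := by
  classical
  have h1 : ∀ t < m k, (S.filter fun a => st D a = t).card =
      ∑ c ∈ Finset.range N, ((X c).filter fun a => st D a = t).card := by
    apply card_unique hD hv hS
    rw [h]
    have h2 : ∀ c ∈ Finset.range N, cls D v k (X c) =
        ∑ t ∈ Finset.range (m k), ((X c).filter fun a => st D a = t).card • v k t :=
      fun c hc => cls_eq hD (hX c (Finset.mem_range.1 hc))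
    rw [Finset.sum_congr rfl h2, Finset.sum_comm]
    refine Finset.sum_congr rfl fun t _ => ?_
    rw [Finset.sum_smul]
  -- the bijection
  let α : Type := Σ c : Fin N, (X c)
  let f : α → ℕ := fun q => st D q.2.1
  let g : S → ℕ := fun a => st D a.1
  have hcard : ∀ t, Nonempty ({q : α // f q = t} ≃ {a : S // g a = t}) := by
    intro t
    apply Fintype.card_eq.1
    have e1 : Fintype.card {a : S // g a = t} = (S.filter fun a => st D a = t).card := by
      rw [Fintype.card_subtype, ← Finset.card_map (Function.Embedding.subtype (fun a => a ∈ S))]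
      congr 1
      ext a
      simp only [Finset.mem_map, Finset.mem_filter, Finset.mem_univ, true_and,
        Function.Embedding.subtype_apply, Subtype.exists, exists_and_left, exists_prop, g]
      constructor
      · rintro ⟨a', h3, h4, rfl⟩
        exact ⟨h4, h3⟩
      · rintro ⟨h3, h4⟩
        exact ⟨a, h4, h3, rfl⟩
    have e2 : Fintype.card {q : α // f q = t} =
        ∑ c ∈ Finset.range N, ((X c).filter fun a => st D a = t).card := by
      rw [Fintype.card_subtype, Finset.card_filter, Fintype.sum_sigma,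
        ← Fin.sum_univ_eq_sum_range (fun c => ((X c).filter fun a => st D a = t).card)]
      refine Finset.sum_congr rfl fun c _ => ?_
      rw [Finset.card_filter, ← Finset.sum_coe_sort (X c)]
    rw [e1, e2]
    by_cases ht : t < m k
    · exact (h1 t ht).symm
    · have h5 : ∀ S' : Finset (List ℕ), S' ⊆ Hd D k →
          (S'.filter fun a => st D a = t).card = 0 := by
        intro S' hS'
        rw [Finset.card_eq_zero, Finset.filter_eq_empty_iff]
        intro a ha h6
        have h7 := mem_Hd.1 (hS' ha)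
        have h8 := st_lt hD h7.2
        rw [h7.1, h6] at h8
        exact ht h8
      rw [h5 S hS]
      exact Finset.sum_eq_zero fun c hc => h5 _ (hX c (Finset.mem_range.1 hc))
  let e : α ≃ S := Equiv.ofFiberEquiv (fun t => (hcard t).some)
  have he : ∀ q : α, st D (e q).1 = st D q.2.1 := fun q =>
    Equiv.ofFiberEquiv_map (fun t => (hcard t).some) q
  -- the images of the heads
  let σ : ℕ → List ℕ → List ℕ := fun c a =>
    if hc : c < N then (if ha : a ∈ X c then (e ⟨⟨c, hc⟩, ⟨a, ha⟩⟩).1 else a) else a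
  have hσ : ∀ (c : ℕ) (hc : c < N) (a : List ℕ) (ha : a ∈ X c),
      σ c a = (e ⟨⟨c, hc⟩, ⟨a, ha⟩⟩).1 := by
    intro c hc a ha
    simp only [σ]
    rw [dif_pos hc, dif_pos ha]
  have hσS : ∀ c < N, ∀ a ∈ X c, σ c a ∈ S := by
    intro c hc a ha
    rw [hσ c hc a ha]
    exact (e _).2
  have hσst : ∀ c < N, ∀ a ∈ X c, st D (σ c a) = st D a := by
    intro c hc a ha
    rw [hσ c hc a ha, he]
  have hσinj : ∀ c < N, ∀ a ∈ X c, ∀ c' < N, ∀ a' ∈ X c', σ c a = σ c' a' → c = c' ∧ a = a' := by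
    intro c hc a ha c' hc' a' ha' h3
    rw [hσ c hc a ha, hσ c' hc' a' ha'] at h3
    have h4 := e.injective (Subtype.ext h3)
    have h5 := congrArg (fun q : α => ((q.1 : Fin N) : ℕ)) h4
    have h6 : c = c' := h5
    subst h6
    have h7 := congrArg (fun q : α => (q.2 : List ℕ)) h4
    exact ⟨rfl, h7⟩
  have hσsurj : ∀ d ∈ S, ∃ c < N, ∃ a ∈ X c, σ c a = d := by
    intro d hd
    obtain ⟨⟨c, a⟩, hq⟩ := e.surjective ⟨d, hd⟩
    refine ⟨c, c.2, a, a.2, ?_⟩
    rw [hσ c c.2 a a.2]
    exact congrArg Subtype.val hq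
  have hXa : ∀ c < N, ∀ a ∈ X c, a.length = k ∧ Ad D a := fun c hc a ha => mem_Hd.1 (hX c hc ha)
  have hσa : ∀ c < N, ∀ a ∈ X c, (σ c a).length = k ∧ Ad D (σ c a) := fun c hc a ha =>
    mem_Hd.1 (hS (hσS c hc a ha))
  refine ⟨fun c => ∑ a ∈ X c, E b D a (σ c a), ?_, ?_, ?_⟩
  · intro c hc
    exact sum_mem fun a ha => E_mem b hD (hX c hc ha) (hS (hσS c hc a ha)) (hσst c hc a ha).symm
  · intro c hc c' hc'
    rw [star_sum, Finset.sum_mul]
    have h3 : ∀ a ∈ X c, star (E b D a (σ c a)) * ∑ a' ∈ X c', E b D a' (σ c' a') =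
        if c = c' then E b D a a else 0 := by
      intro a ha
      rw [star_E, Finset.mul_sum]
      by_cases h4 : c = c'
      · subst h4
        rw [if_pos rfl, Finset.sum_eq_single_of_mem a ha]
        · exact E_mul b hD (hXa c hc a ha).2 (hσa c hc a ha).2 (hXa c hc a ha).2
        · intro a' ha' hne
          refine E_mul_ne b hD ((hσa c hc a ha).1.trans (hσa c hc a' ha').1.symm)
            (hXa c hc a' ha').2 (hσa c hc a' ha').2 (hσa c hc a ha).2 ?_
          intro h5
          exact hne (hσinj c hc a ha c hc a' ha' h5).2.symm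
      · rw [if_neg h4]
        refine Finset.sum_eq_zero fun a' ha' => ?_
        refine E_mul_ne b hD ((hσa c hc a ha).1.trans (hσa c' hc' a' ha').1.symm)
          (hXa c' hc' a' ha').2 (hσa c' hc' a' ha').2 (hσa c hc a ha).2 ?_
        intro h5
        exact h4 (hσinj c hc a ha c' hc' a' ha' h5).1
    rw [Finset.sum_congr rfl h3]
    by_cases h4 : c = c'
    · simp only [if_pos h4]
      rfl
    · simp only [if_neg h4, Finset.sum_const_zero]
  · have h3 : ∀ c ∈ Finset.range N, (∑ a ∈ X c, E b D a (σ c a)) *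
        star (∑ a ∈ X c, E b D a (σ c a)) = ∑ a ∈ X c, E b D (σ c a) (σ c a) := by
      intro c hc
      rw [Finset.mem_range] at hc
      rw [star_sum, Finset.sum_mul]
      refine Finset.sum_congr rfl fun a ha => ?_
      rw [Finset.mul_sum, Finset.sum_eq_single_of_mem a ha]
      · rw [star_E]
        exact E_mul b hD (hσa c hc a ha).2 (hXa c hc a ha).2 (hσa c hc a ha).2
      · intro a' ha' hne
        rw [star_E]
        exact E_mul_ne b hD ((hXa c hc a ha).1.trans (hXa c hc a' ha').1.symm)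
          (hσa c hc a' ha').2 (hXa c hc a' ha').2 (hXa c hc a ha).2 hne.symm
    rw [Finset.sum_congr rfl h3]
    unfold QS
    rw [Finset.sum_sigma']
    refine Finset.sum_bij (fun q _ => σ q.1 q.2) ?_ ?_ ?_ ?_
    · rintro ⟨c, a⟩ hq
      rw [Finset.mem_sigma, Finset.mem_range] at hq
      exact hσS c hq.1 a hq.2
    · rintro ⟨c, a⟩ hq ⟨c', a'⟩ hq' h4
      rw [Finset.mem_sigma, Finset.mem_range] at hq hq'
      obtain ⟨h5, h6⟩ := hσinj c hq.1 a hq.2 c' hq'.1 a' hq'.2 h4
      rw [Sigma.mk.injEq]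
      exact ⟨h5, heq_of_eq h6⟩
    · intro d hd
      obtain ⟨c, hc, a, ha, h4⟩ := hσsurj d hd
      exact ⟨⟨c, a⟩, Finset.mem_sigma.2 ⟨Finset.mem_range.2 hc, ha⟩, h4⟩
    · intro q _
      rfl

end

end Pool.Agent.J6H74.SAF
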