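import Mathlib

/-!
# Enlarging simplicial cones

`V` is a vector space over the rationals with a functional `τ`.  Given finitely many vectors with
positive value, there are independent vectors with positive value in the group generated by them
and the dyadic fractions, such that the given vectors are combinations with positive integer
coefficients of them.
-/

set_option autoImplicit false

open Module

namespace Pool.Agent.J6H74.SAF

universe u

variable {V : Type u} [AddCommGroup V] [Module ℚ V]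

lemma torsionFree_int : IsTorsionFree ℤ V := by
  have : IsAddTorsionFree V := by
    constructor
    intro n hn x y h
    have h' : n • x = n • y := h
    rw [← Nat.cast_smul_eq_nsmul ℚ, ← Nat.cast_smul_eq_nsmul ℚ] at h'
    exact smul_right_injective V (by exact_mod_cast hn) h'
  infer_instance

variable (τ : V →ₗ[ℚ] ℚ)

lemma exists_denom (F : Set V) (hF : F.Finite) :
    ∃ N : ℕ, 0 < N ∧ ∀ x ∈ Submodule.span ℤ F, ∃ z : ℤ, τ x * N = z := by
  have h1 : ∃ N : ℕ, 0 < N ∧ ∀ x ∈ F, ∃ z : ℤ, τ x * N = z := by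
    induction F, hF using Set.Finite.induction_on with
    | empty => exact ⟨1, one_pos, fun x hx => absurd hx (Set.notMem_empty x)⟩
    | @insert a s _ _ ih =>
      obtain ⟨N, hN, h⟩ := ih
      refine ⟨N * (τ a).den, Nat.mul_pos hN (τ a).den_pos, fun x hx => ?_⟩
      rcases Set.mem_insert_iff.1 hx with rfl | hx
      · refine ⟨(τ x).num * N, ?_⟩
        push_cast
        have := Rat.mul_den_eq_num (τ x)
        rw [← this]
        ring
      · obtain ⟨z, hz⟩ := h x hx
        refine ⟨z * (τ a).den, ?_⟩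
        push_cast
        rw [← hz]
        ring
  obtain ⟨N, hN, h⟩ := h1
  refine ⟨N, hN, fun x hx => ?_⟩
  induction hx using Submodule.span_induction with
  | mem x hx => exact h x hx
  | zero => exact ⟨0, by simp⟩
  | add x y _ _ hx hy =>
    obtain ⟨z, hz⟩ := hx
    obtain ⟨w, hw⟩ := hy
    exact ⟨z + w, by rw [map_add, add_mul, hz, hw]; push_cast; rfl⟩
  | smul c x _ hx =>
    obtain ⟨z, hz⟩ := hx
    refine ⟨c * z, ?_⟩
    rw [map_zsmul, zsmul_eq_mul, mul_assoc, hz]
    push_cast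
    rfl

/-- an element with minimal positive value -/
lemma exists_min (F : Set V) (hF : F.Finite) {g : V} (hg : g ∈ F) (hg0 : 0 < τ g) :
    ∃ y ∈ Submodule.span ℤ F, 0 < τ y ∧ ∀ x ∈ Submodule.span ℤ F, ∃ q : ℤ, τ (x - q • y) = 0 := by
  classical
  obtain ⟨N, hN, h⟩ := exists_denom τ F hF
  have hN' : (0 : ℚ) < N := by exact_mod_cast hN
  have hex : ∃ n : ℕ, 0 < n ∧ ∃ x ∈ Submodule.span ℤ F, τ x * N = n := by
    obtain ⟨z, hz⟩ := h g (Submodule.subset_span hg)
    have h1 : (0 : ℚ) < z := by rw [← hz]; positivity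
    have h2 : 0 < z := by exact_mod_cast h1
    refine ⟨z.toNat, by omega, g, Submodule.subset_span hg, ?_⟩
    rw [hz]
    have h3 : ((z.toNat : ℤ) : ℚ) = z := by rw [Int.toNat_of_nonneg h2.le]
    exact_mod_cast h3.symm
  obtain ⟨hn0, y, hy, hyn⟩ := Nat.find_spec hex
  set n := Nat.find hex with hn
  have hnQ : (0 : ℚ) < n := by exact_mod_cast hn0
  have hτy : 0 < τ y := by
    by_contra h1
    push Not at h1
    have : τ y * N ≤ 0 := mul_nonpos_of_nonpos_of_nonneg h1 hN'.le
    rw [hyn] at this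
    linarith
  refine ⟨y, hy, hτy, fun x hx => ?_⟩
  obtain ⟨z, hz⟩ := h x hx
  refine ⟨z / n, ?_⟩
  have hmem : x - (z / n : ℤ) • y ∈ Submodule.span ℤ F := sub_mem hx (Submodule.smul_mem _ _ hy)
  have hval : τ (x - (z / n : ℤ) • y) * N = (z % n : ℤ) := by
    rw [map_sub, map_zsmul, zsmul_eq_mul, sub_mul, hz, mul_assoc, hyn, Int.emod_def]
    push_cast
    ring
  have hmod0 : 0 ≤ z % n := Int.emod_nonneg _ (by exact_mod_cast hn0.ne')
  have hmod1 : z % n < n := Int.emod_lt_of_pos _ (by exact_mod_cast hn0)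
  have hzero : z % n = 0 := by
    by_contra h1
    have h2 : 0 < (z % n).toNat := by omega
    have h3 : (z % n).toNat < n := by omega
    refine Nat.find_min hex h3 ⟨h2, _, hmem, ?_⟩
    rw [hval]
    have h4 : (((z % n).toNat : ℤ) : ℚ) = ((z % n : ℤ) : ℚ) := by rw [Int.toNat_of_nonneg hmod0]
    exact_mod_cast h4.symm
  rw [hzero] at hval
  have : τ (x - (z / n : ℤ) • y) * N = 0 := by rw [hval]; simp
  exact (mul_eq_zero.1 this).resolve_right hN'.ne'

/-- the structure of a finitely generated group -/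
lemma exists_base (F : Set V) (hF : F.Finite) {g : V} (hg : g ∈ F) (hg0 : 0 < τ g) :
    ∃ (y₀ : V) (m : ℕ) (y : Fin m → V), y₀ ∈ Submodule.span ℤ F ∧
      (∀ i, y i ∈ Submodule.span ℤ F) ∧ 0 < τ y₀ ∧ (∀ i, τ (y i) = 0) ∧
      LinearIndependent ℚ y ∧
      ∀ x ∈ Submodule.span ℤ F, ∃ (q : ℤ) (f : Fin m → ℤ), x = q • y₀ + ∑ i, f i • y i := by
  obtain ⟨y₀, hy₀, hτ, hmin⟩ := exists_min τ F hF hg hg0
  set L := Submodule.span ℤ F with hL
  have hLfg : L.FG := Submodule.fg_span hF
  have hLn : IsNoetherian ℤ L := isNoetherian_of_fg_of_noetherian L hLfg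
  let K : Submodule ℤ V := L ⊓ LinearMap.ker (τ.restrictScalars ℤ)
  have hKfg : K.FG := isNoetherian_submodule.1 hLn K inf_le_left
  have hKf : Module.Finite ℤ K := Module.Finite.of_fg hKfg
  have : IsTorsionFree ℤ V := torsionFree_int
  have hfree : Module.Free ℤ K := Module.free_of_finite_type_torsion_free'
  let B := Module.finBasis ℤ K
  refine ⟨y₀, finrank ℤ K, fun i => (B i : V), hy₀, fun i => (B i).2.1, hτ, fun i => ?_, ?_, ?_⟩
  · have := (B i).2.2
    exact this
  · rw [← LinearIndependent.iff_fractionRing ℤ ℚ]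
    exact B.linearIndependent.map' K.subtype (Submodule.ker_subtype K)
  · intro x hx
    obtain ⟨q, hq⟩ := hmin x hx
    have hK : x - q • y₀ ∈ K := ⟨sub_mem hx (Submodule.smul_mem _ _ hy₀), hq⟩
    refine ⟨q, fun i => B.repr ⟨x - q • y₀, hK⟩ i, ?_⟩
    have h1 := B.sum_repr ⟨x - q • y₀, hK⟩
    have h2 := congrArg (Submodule.subtype K) h1
    rw [map_sum] at h2
    simp only [map_smul, Submodule.subtype_apply] at h2
    rw [h2]
    abel

/-- the dyadic span -/
def Dy (F : Set V) : Set V := {x | ∃ r : ℕ, (2 ^ r : ℤ) • x ∈ Submodule.span ℤ F}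

/-- new cone generators -/
theorem next_aux (F : Set V) (hF : F.Finite) (hne : F.Nonempty) (hpos : ∀ x ∈ F, 0 < τ x) :
    ∃ (m : ℕ) (w : Fin (m + 1) → V), (∀ j, 0 < τ (w j)) ∧ LinearIndependent ℚ w ∧
      (∀ j, w j ∈ Dy F) ∧ ∀ x ∈ F, ∃ n : Fin (m + 1) → ℕ, (∀ j, 0 < n j) ∧ x = ∑ j, n j • w j := by
  classical
  obtain ⟨g, hg⟩ := hne
  obtain ⟨y₀, m, y, hy₀, hy, hτ₀, hτ, hli, hrep⟩ := exists_base τ F hF hg (hpos g hg)
  choose! q f hqf using hrep
  -- bounds
  obtain ⟨β, hβ⟩ : ∃ β : ℕ, m < 2 ^ β := ⟨m, Nat.lt_two_pow_self⟩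
  obtain ⟨A, hA⟩ : ∃ A : ℕ, ∀ x ∈ F, (∑ i, (f x i).natAbs) * (1 + 2 ^ β) < 2 ^ A := by
    let M : V → ℕ := fun x => (∑ i, (f x i).natAbs) * (1 + 2 ^ β)
    refine ⟨∑ x ∈ hF.toFinset, M x, fun x hx => ?_⟩
    calc M x ≤ ∑ x ∈ hF.toFinset, M x :=
          Finset.single_le_sum (f := M) (fun _ _ => Nat.zero_le _) (hF.mem_toFinset.2 hx)
      _ < _ := Nat.lt_two_pow_self
  let c : ℕ := 2 ^ β - m
  have hc : 0 < c := by omega
  have hcm : (c : ℚ) + m = 2 ^ β := by
    have : c + m = 2 ^ β := by omega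
    exact_mod_cast this
  have h2 : (2 : ℚ) ^ (A + β) ≠ 0 := by positivity
  have h2' : (0 : ℚ) < ((2 : ℚ) ^ (A + β))⁻¹ := by positivity
  let w : Fin (m + 1) → V := Fin.cons
    (((2 : ℚ) ^ (A + β))⁻¹ • ((c : ℚ) • y₀ - (2 : ℚ) ^ A • ∑ i, y i))
    (fun i => ((2 : ℚ) ^ (A + β))⁻¹ • (y₀ + (2 : ℚ) ^ A • y i))
  have hw0 : w 0 = ((2 : ℚ) ^ (A + β))⁻¹ • ((c : ℚ) • y₀ - (2 : ℚ) ^ A • ∑ i, y i) := rfl
  have hws : ∀ i : Fin m, w i.succ = ((2 : ℚ) ^ (A + β))⁻¹ • (y₀ + (2 : ℚ) ^ A • y i) :=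
    fun i => rfl
  have key : ∀ t : Fin (m + 1) → ℚ, ∑ j, t j • w j = ((2 : ℚ) ^ (A + β))⁻¹ •
      ((t 0 * c + ∑ i : Fin m, t i.succ) • y₀ +
        (2 : ℚ) ^ A • ∑ i : Fin m, (t i.succ - t 0) • y i) := by
    intro t
    rw [Fin.sum_univ_succ, hw0]
    simp only [hws]
    rw [smul_comm (t 0)]
    simp_rw [smul_comm (t (Fin.succ _)) ((2 : ℚ) ^ (A + β))⁻¹]
    rw [← Finset.smul_sum, ← smul_add]
    congr 1
    simp only [smul_add, smul_sub, Finset.sum_add_distrib, sub_smul, Finset.sum_sub_distrib,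
      add_smul, smul_smul, ← Finset.sum_smul, Finset.smul_sum, mul_comm ((2 : ℚ) ^ A)]
    abel
  refine ⟨m, w, ?_, ?_, ?_, ?_⟩
  · intro j
    refine Fin.cases ?_ (fun i => ?_) j
    · rw [hw0, map_smul, map_sub, map_smul, map_smul, map_sum]
      simp only [hτ, Finset.sum_const_zero, smul_zero, sub_zero, smul_eq_mul, mul_zero]
      have : (0 : ℚ) < c := by exact_mod_cast hc
      exact mul_pos h2' (mul_pos this hτ₀)
    · rw [hws, map_smul, map_add, map_smul, hτ, smul_zero, add_zero, smul_eq_mul]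
      positivity
  · rw [Fintype.linearIndependent_iff]
    intro t ht
    rw [key t] at ht
    have h3 := (smul_eq_zero.1 ht).resolve_left h2'.ne'
    have h4 := congrArg τ h3
    rw [map_add, map_smul, map_smul, map_sum, map_zero] at h4
    simp only [map_smul, hτ, smul_zero, Finset.sum_const_zero, add_zero, smul_eq_mul,
      mul_zero] at h4
    have h5 : t 0 * c + ∑ i : Fin m, t i.succ = 0 := (mul_eq_zero.1 h4).resolve_right hτ₀.ne'
    rw [h5, zero_smul, zero_add] at h3
    have h6 := (smul_eq_zero.1 h3).resolve_left (by positivity)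
    have h7 := Fintype.linearIndependent_iff.1 hli _ h6
    have h8 : ∀ i : Fin m, t i.succ = t 0 := fun i => sub_eq_zero.1 (h7 i)
    simp only [h8, Finset.sum_const, Finset.card_univ, Fintype.card_fin, nsmul_eq_mul] at h5
    have h9 : t 0 * (2 : ℚ) ^ β = 0 := by rw [← hcm, mul_add, ← h5]; ring
    have h10 : t 0 = 0 := (mul_eq_zero.1 h9).resolve_right (by positivity)
    intro j
    refine Fin.cases h10 (fun i => ?_) j
    rw [h8, h10]
  · intro j
    refine ⟨A + β, ?_⟩
    have h3 : ∀ x : V, ((2 ^ (A + β) : ℤ)) • (((2 : ℚ) ^ (A + β))⁻¹ • x) = x := by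
      intro x
      rw [← Int.cast_smul_eq_zsmul ℚ, smul_smul]
      push_cast
      rw [mul_inv_cancel₀ h2, one_smul]
    refine Fin.cases ?_ (fun i => ?_) j
    · rw [hw0, h3]
      refine sub_mem ?_ ?_
      · rw [Nat.cast_smul_eq_nsmul]
        exact nsmul_mem hy₀ _
      · have h4 : (2 : ℚ) ^ A • ∑ i, y i = (2 ^ A : ℕ) • ∑ i, y i := by
          rw [← Nat.cast_smul_eq_nsmul ℚ]
          push_cast
          rfl
        rw [h4]
        exact nsmul_mem (sum_mem fun i _ => hy i) _
    · rw [hws, h3]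
      refine add_mem hy₀ ?_
      have h4 : (2 : ℚ) ^ A • y i = (2 ^ A : ℕ) • y i := by
        rw [← Nat.cast_smul_eq_nsmul ℚ]
        push_cast
        rfl
      rw [h4]
      exact nsmul_mem (hy i) _
  · intro x hx
    have hx' : x ∈ Submodule.span ℤ F := Submodule.subset_span hx
    have hxe := hqf x hx'
    have hq1 : 1 ≤ q x := by
      have h3 := congrArg τ hxe
      rw [map_add, map_zsmul, map_sum] at h3
      simp only [map_zsmul, hτ, smul_zero, Finset.sum_const_zero, add_zero, zsmul_eq_mul] at h3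
      have h4 := hpos x hx
      rw [h3] at h4
      have h5 : (0 : ℚ) < q x := by
        by_contra h6
        push Not at h6
        have := mul_nonpos_of_nonpos_of_nonneg h6 hτ₀.le
        linarith
      have h6 : 0 < q x := by exact_mod_cast h5
      omega
    -- the integer coordinates
    let s : ℤ := ∑ i, f x i
    let n0 : ℤ := 2 ^ A * q x - s
    have hsabs : |s| ≤ ((∑ i, (f x i).natAbs : ℕ) : ℤ) := by
      push_cast
      refine (Finset.abs_sum_le_sum_abs _ _).trans (Finset.sum_le_sum fun i _ => ?_)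
      rw [Int.abs_eq_natAbs]
    have hfi : ∀ i, |f x i| ≤ ((∑ i, (f x i).natAbs : ℕ) : ℤ) := by
      intro i
      rw [Int.abs_eq_natAbs]
      exact_mod_cast Finset.single_le_sum (f := fun i => (f x i).natAbs)
        (fun _ _ => Nat.zero_le _) (Finset.mem_univ i)
    have hAx : ((∑ i, (f x i).natAbs : ℕ) : ℤ) * (1 + 2 ^ β) < 2 ^ A := by exact_mod_cast hA x hx
    set Sf : ℤ := ((∑ i, (f x i).natAbs : ℕ) : ℤ) with hSf
    have hSf0 : 0 ≤ Sf := by positivity
    have hA0 : (0 : ℤ) < 2 ^ A := by positivity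
    have hβ0 : (0 : ℤ) < 2 ^ β := by positivity
    have hn0 : Sf * 2 ^ β < n0 := by
      have h3 := (abs_le.1 hsabs).2
      have h4 : 2 ^ A * 1 ≤ 2 ^ A * q x := by gcongr
      simp only [n0]
      nlinarith
    have hn0' : 0 < n0 := lt_of_le_of_lt (by positivity) hn0
    have hni : ∀ i, 0 < n0 + 2 ^ β * f x i := by
      intro i
      have h3 := (abs_le.1 (hfi i)).1
      nlinarith
    refine ⟨Fin.cons n0.toNat (fun i => (n0 + 2 ^ β * f x i).toNat), ?_, ?_⟩
    · intro j
      refine Fin.cases ?_ (fun i => ?_) j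
      · rw [Fin.cons_zero]; omega
      · rw [Fin.cons_succ]; have := hni i; omega
    · have h3 : ∀ j : Fin (m + 1), (Fin.cons n0.toNat (fun i => (n0 + 2 ^ β * f x i).toNat) :
          Fin (m + 1) → ℕ) j • w j = (Fin.cons (n0 : ℚ) (fun i => ((n0 + 2 ^ β * f x i : ℤ) : ℚ)) :
          Fin (m + 1) → ℚ) j • w j := by
        intro j
        rw [← Nat.cast_smul_eq_nsmul ℚ]
        congr 1
        refine Fin.cases ?_ (fun i => ?_) j
        · rw [Fin.cons_zero, Fin.cons_zero]
          have : ((n0.toNat : ℤ) : ℚ) = n0 := by rw [Int.toNat_of_nonneg hn0'.le]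
          exact_mod_cast this
        · rw [Fin.cons_succ, Fin.cons_succ]
          have : (((n0 + 2 ^ β * f x i).toNat : ℤ) : ℚ) = ((n0 + 2 ^ β * f x i : ℤ) : ℚ) := by
            rw [Int.toNat_of_nonneg (hni i).le]
          exact_mod_cast this
      rw [Finset.sum_congr rfl fun j _ => h3 j, key]
      simp only [Fin.cons_zero, Fin.cons_succ]
      have h4 : ∀ i : Fin m, (((n0 + 2 ^ β * f x i : ℤ) : ℚ) - (n0 : ℚ)) • y i =
          (2 : ℚ) ^ β • ((f x i : ℚ) • y i) := by
        intro i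
        rw [smul_smul]
        congr 1
        push_cast
        ring
      rw [Finset.sum_congr rfl fun i _ => h4 i, ← Finset.smul_sum]
      have h5 : (n0 : ℚ) * c + ∑ i : Fin m, ((n0 + 2 ^ β * f x i : ℤ) : ℚ) =
          (2 : ℚ) ^ (A + β) * q x := by
        push_cast
        rw [Finset.sum_add_distrib, Finset.sum_const, Finset.card_univ, Fintype.card_fin,
          nsmul_eq_mul, ← Finset.mul_sum]
        have h6 : (n0 : ℚ) = 2 ^ A * q x - ∑ i, (f x i : ℚ) := by
          simp only [n0, s]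
          push_cast
          rfl
        have h7 : (n0 : ℚ) * c + (m * n0 + 2 ^ β * ∑ i, (f x i : ℚ)) =
            n0 * (c + m) + 2 ^ β * ∑ i, (f x i : ℚ) := by ring
        rw [h7, hcm, h6, pow_add]
        ring
      rw [h5, smul_smul, ← pow_add, mul_smul, ← smul_add, smul_smul, inv_mul_cancel₀ h2, one_smul]
      conv_lhs => rw [hxe]
      rw [Int.cast_smul_eq_zsmul]
      congr 1
      refine Finset.sum_congr rfl fun i _ => ?_
      rw [Int.cast_smul_eq_zsmul]

/-- lists with prescribed counts -/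
lemma exists_list (N : ℕ) (n : ℕ → ℕ) (hn : ∀ j < N, 0 < n j) :
    ∃ l : List ℕ, (∀ j ∈ l, j < N) ∧ (∀ j < N, j ∈ l) ∧
      ∀ f : ℕ → V, (l.map f).sum = ∑ j ∈ Finset.range N, n j • f j := by
  induction N with
  | zero => exact ⟨[], by simp, by simp, by simp⟩
  | succ N ih =>
    obtain ⟨l, h1, h2, h3⟩ := ih fun j hj => hn j (by omega)
    refine ⟨l ++ List.replicate (n N) N, ?_, ?_, ?_⟩
    · intro j hj
      rcases List.mem_append.1 hj with h | h
      · have := h1 j h
        omega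
      · rw [(List.mem_replicate.1 h).2]
        omega
    · intro j hj
      rcases Nat.lt_succ_iff_lt_or_eq.1 hj with h | h
      · exact List.mem_append_left _ (h2 j h)
      · subst h
        exact List.mem_append_right _ (List.mem_replicate.2 ⟨(hn j hj).ne', rfl⟩)
    · intro f
      rw [List.map_append, List.sum_append, h3, Finset.sum_range_succ, List.map_replicate,
        List.sum_replicate]

/-- the next stage -/
theorem next_exists (B : List V) (g : V) (hB : ∀ x ∈ B, 0 < τ x) (hg : 0 < τ g) :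
    ∃ B' : List V, 0 < B'.length ∧ (∀ x ∈ B', 0 < τ x) ∧
      LinearIndependent ℚ (fun i : Fin B'.length => B'.getD i 0) ∧
      (∀ x ∈ B', x ∈ Dy (insert g {x | x ∈ B})) ∧
      (∀ x ∈ g :: B, ∃ l : List ℕ, (∀ j ∈ l, j < B'.length) ∧ (∀ j < B'.length, j ∈ l) ∧
        (l.map fun j => B'.getD j 0).sum = x) := by
  have hfin : (insert g {x | x ∈ B}).Finite := (List.finite_toSet B).insert g
  obtain ⟨m, w, h1, h2, h3, h4⟩ := next_aux τ (insert g {x | x ∈ B}) hfin ⟨g, by simp⟩ (by
    intro x hx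
    rcases Set.mem_insert_iff.1 hx with rfl | hx
    · exact hg
    · exact hB x hx)
  have hlen : (List.ofFn w).length = m + 1 := List.length_ofFn
  have hget : ∀ j (hj : j < m + 1), (List.ofFn w).getD j 0 = w ⟨j, hj⟩ := by
    intro j hj
    rw [List.getD_eq_getElem _ _ (by rw [hlen]; exact hj), List.getElem_ofFn]
  refine ⟨List.ofFn w, by rw [hlen]; omega, ?_, ?_, ?_, ?_⟩
  · intro x hx
    obtain ⟨j, rfl⟩ := (List.mem_ofFn' w x).1 hx
    exact h1 j
  · have h5 : (fun i : Fin (List.ofFn w).length => (List.ofFn w).getD i 0) =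
        w ∘ (Fin.cast hlen) := by
      funext i
      have := i.2.trans_eq hlen
      exact hget i this
    rw [h5]
    exact h2.comp _ (Fin.cast_injective hlen)
  · intro x hx
    obtain ⟨j, rfl⟩ := (List.mem_ofFn' w x).1 hx
    exact h3 j
  · intro x hx
    have hx' : x ∈ insert g {x | x ∈ B} := by
      rcases List.mem_cons.1 hx with rfl | hx
      · exact Set.mem_insert _ _
      · exact Set.mem_insert_of_mem _ hx
    obtain ⟨n, hn, hx2⟩ := h4 x hx'
    obtain ⟨l, g1, g2, g3⟩ := exists_list (V := V) (m + 1)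
      (fun j => if hj : j < m + 1 then n ⟨j, hj⟩ else 0) (by
        intro j hj
        simp only [dif_pos hj]
        exact hn _)
    refine ⟨l, fun j hj => by rw [hlen]; exact g1 j hj, fun j hj => g2 j (by rwa [hlen] at hj), ?_⟩
    rw [g3, hx2, ← Fin.sum_univ_eq_sum_range (fun j =>
      (if hj : j < m + 1 then n ⟨j, hj⟩ else 0) • (List.ofFn w).getD j 0)]
    refine Finset.sum_congr rfl fun j _ => ?_
    rw [dif_pos j.2, hget j j.2]

end Pool.Agent.J6H74.SAF
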