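import Pool.Agent.J6H74.SAF.Apx

/-!
# The classes of the images of the matrix units
-/

set_option autoImplicit false

open scoped InnerProductSpace

namespace Pool.Agent.J6H74.SAF

universe u v

variable {H : Type v} [NormedAddCommGroup H] [InnerProductSpace ℂ H] [CompleteSpace H]
  (b : HilbertBasis ℕ ℂ H)

/-- the projection of a set of heads -/
noncomputable def QS (D : Dg) (S : Finset (List ℕ)) : H →L[ℂ] H := ∑ a ∈ S, E b D a a

section

variable {D : Dg} {m : ℕ → ℕ} (hD : Ok D m)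

include hD

lemma QS_mem {k : ℕ} {S : Finset (List ℕ)} (hS : S ⊆ Hd D k) : QS b D S ∈ Fk b hD k :=
  sum_mem fun a ha => E_mem b hD (hS ha) (hS ha) rfl

lemma QS_pj {k : ℕ} {S : Finset (List ℕ)} (hS : S ⊆ Hd D k) : Pj (QS b D S) := by
  classical
  constructor
  · unfold QS
    rw [Finset.sum_mul]
    refine Finset.sum_congr rfl fun a ha => ?_
    rw [Finset.mul_sum, Finset.sum_eq_single_of_mem a ha]
    · exact E_mul b hD (mem_Hd.1 (hS ha)).2 (mem_Hd.1 (hS ha)).2 (mem_Hd.1 (hS ha)).2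
    · intro c hc hne
      have h1 := mem_Hd.1 (hS ha)
      have h2 := mem_Hd.1 (hS hc)
      exact E_mul_ne b hD (h1.1.trans h2.1.symm) h2.2 h2.2 h1.2 hne.symm
  · unfold QS
    rw [star_sum]
    exact Finset.sum_congr rfl fun a _ => star_E b D a a

lemma QS_succ {a : List ℕ} (ha : Ad D a) :
    E b D a a = QS b D ((Finset.range (dg D a)).image fun c => c :: a) := by
  unfold QS
  rw [Finset.sum_image, E_succ b hD rfl ha ha rfl]
  intro c _ c' _ h
  exact (List.cons.inj h).1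

lemma E_ne_zero {a : List ℕ} (ha : Ad D a) : E b D a a ≠ 0 := by
  intro h
  have h1 := E_pos b hD ha ha 0
  rw [h, zero_apply] at h1
  have h2 := b.orthonormal.1 (pos D a 0)
  rw [← h1, norm_zero] at h2
  exact zero_ne_one h2

end

variable {b}

section

variable {D D' : Dg} {m m' : ℕ → ℕ} {hD : Ok D m} {hD' : Ok D' m'}
  (φ : AD b hD →⋆ₙₐ[ℂ] AD b hD')

open Classical in
/-- the image of an operator -/
noncomputable def im (T : H →L[ℂ] H) : H →L[ℂ] H :=
  if h : T ∈ AD b hD then (φ ⟨T, h⟩ : H →L[ℂ] H) else 0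

variable {T T' : H →L[ℂ] H}

lemma im_of (h : T ∈ AD b hD) : im φ T = (φ ⟨T, h⟩ : H →L[ℂ] H) := dif_pos h

lemma im_mem (h : T ∈ AD b hD) : im φ T ∈ AD b hD' := by
  rw [im_of φ h]
  exact (φ ⟨T, h⟩).2

lemma im_mul (h : T ∈ AD b hD) (h' : T' ∈ AD b hD) : im φ (T * T') = im φ T * im φ T' := by
  rw [im_of φ h, im_of φ h', im_of φ (mul_mem h h')]
  have := map_mul φ ⟨T, h⟩ ⟨T', h'⟩
  exact congrArg Subtype.val this

lemma im_add (h : T ∈ AD b hD) (h' : T' ∈ AD b hD) : im φ (T + T') = im φ T + im φ T' := by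
  rw [im_of φ h, im_of φ h', im_of φ (add_mem h h')]
  have := map_add φ ⟨T, h⟩ ⟨T', h'⟩
  exact congrArg Subtype.val this

lemma im_zero : im φ 0 = 0 := by
  rw [im_of φ (zero_mem _)]
  have := map_zero φ
  exact congrArg Subtype.val this

lemma im_star (h : T ∈ AD b hD) : im φ (star T) = star (im φ T) := by
  rw [im_of φ h, im_of φ (star_mem h)]
  have := map_star φ ⟨T, h⟩
  exact congrArg Subtype.val this

lemma im_pj (h : T ∈ AD b hD) (hp : Pj T) : Pj (im φ T) := by
  constructor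
  · rw [← im_mul φ h h, hp.mul]
  · rw [← im_star φ h, hp.st]

lemma im_ne (hφ : Function.Injective φ) (h : T ∈ AD b hD) (h0 : T ≠ 0) : im φ T ≠ 0 := by
  rw [im_of φ h]
  intro h1
  apply h0
  have h2 : φ ⟨T, h⟩ = 0 := Subtype.ext h1
  have h3 : (⟨T, h⟩ : AD b hD) = 0 := hφ (by rw [h2, map_zero])
  exact congrArg Subtype.val h3

variable {V : Type u} [AddCommGroup V] [Module ℚ V] {τ : V →ₗ[ℚ] ℚ} {v : ℕ → ℕ → V}
  (hv : Vc D' m' τ v)

include hv

/-- an embedding gives vectors -/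
theorem emb_data (hφ : Function.Injective φ) :
    ∃ x : ℕ → ℕ → V, (∀ k i, i < m k → x k i = ((D k i).map (x (k + 1))).sum) ∧
      (∀ k i, i < m k → 0 < τ (x k i)) ∧
      ∀ k i, i < m k → ∃ k', ∃ n : ℕ → ℕ, x k i = ∑ j ∈ Finset.range (m' k'), n j • v k' j := by
  classical
  have hmem : ∀ {k : ℕ} {S : Finset (List ℕ)}, S ⊆ Hd D k → QS b D S ∈ AD b hD :=
    fun {k} {S} hS => Fk_le_AD b hD k (QS_mem b hD hS)
  have hEmem : ∀ {a c : List ℕ}, Ad D a → Ad D c → a.length = c.length → st D a = st D c →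
      E b D a c ∈ AD b hD := fun {a} {c} ha hc hl hs =>
    Fk_le_AD b hD a.length (E_mem b hD (mem_Hd.2 ⟨rfl, ha⟩) (mem_Hd.2 ⟨hl.symm, hc⟩) hs)
  have hEq : ∀ a, E b D a a = QS b D {a} := fun a => by rw [QS, Finset.sum_singleton]
  have hEpj : ∀ {a : List ℕ}, Ad D a → Pj (E b D a a) := by
    intro a ha
    rw [hEq]
    exact QS_pj b hD (k := a.length) (by
      rw [Finset.singleton_subset_iff]
      exact mem_Hd.2 ⟨rfl, ha⟩)
  have h0 : ∀ a, ∃ x, Ad D a → IsCl b hD' v (im φ (E b D a a)) x := by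
    intro a
    by_cases ha : Ad D a
    · obtain ⟨x, hx⟩ := exists_cl hD' v (im_pj φ (hEmem ha ha rfl rfl) (hEpj ha))
        (im_mem φ (hEmem ha ha rfl rfl))
      exact ⟨x, fun _ => hx⟩
    · exact ⟨0, fun h => absurd h ha⟩
  choose y hy using h0
  -- classes of equivalent projections
  have hyeq : ∀ {a c : List ℕ}, Ad D a → Ad D c → a.length = c.length → st D a = st D c →
      y a = y c := by
    intro a c ha hc hl hs
    have h3 := hEmem ha hc hl hs
    refine IsCl.eqv hD' hv (hy a ha) (hy c hc) (im_pj φ (hEmem ha ha rfl rfl) (hEpj ha))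
      (im_mem φ h3) ?_ ?_
    · rw [← im_star φ h3, ← im_mul φ (star_mem h3) h3, star_E, E_mul b hD ha hc ha]
    · rw [← im_star φ h3, ← im_mul φ h3 (star_mem h3), star_E, E_mul b hD hc ha hc]
  -- additivity
  have hsum : ∀ (k : ℕ) (S : Finset (List ℕ)), S ⊆ Hd D k →
      IsCl b hD' v (im φ (QS b D S)) (∑ a ∈ S, y a) := by
    intro k S
    induction S using Finset.induction_on with
    | empty =>
      intro _
      have h1 : QS b D (∅ : Finset (List ℕ)) = 0 := Finset.sum_empty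
      rw [h1, Finset.sum_empty, im_zero]
      obtain ⟨x, hx⟩ := exists_cl hD' v (p := (0 : H →L[ℂ] H)) ⟨zero_mul _, star_zero _⟩
        (zero_mem _)
      have h2 := IsCl.add hD' hv hx hx hx (add_zero 0).symm
      have h3 : x = 0 := by simpa using h2
      rwa [h3] at hx
    | insert a S ha ih =>
      intro hS
      have hS1 : S ⊆ Hd D k := fun c hc => hS (Finset.mem_insert_of_mem hc)
      have ha1 : a ∈ Hd D k := hS (Finset.mem_insert_self _ _)
      have ha2 := (mem_Hd.1 ha1).2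
      have h1 : QS b D (insert a S) = E b D a a + QS b D S := Finset.sum_insert ha
      obtain ⟨x, hx⟩ := exists_cl hD' v (im_pj φ (hmem hS) (QS_pj b hD hS)) (im_mem φ (hmem hS))
      have h2 := IsCl.add hD' hv hx (hy a ha2) (ih hS1)
        (by rw [h1, im_add φ (hEmem ha2 ha2 rfl rfl) (hmem hS1)])
      rw [Finset.sum_insert ha, ← h2]
      exact hx
  have hrel : ∀ {a : List ℕ}, Ad D a → y a = ∑ c ∈ Finset.range (dg D a), y (c :: a) := by
    intro a ha
    have h1 : ((Finset.range (dg D a)).image fun c => c :: a) ⊆ Hd D (a.length + 1) := by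
      intro x hx
      obtain ⟨c, hc, rfl⟩ := Finset.mem_image.1 hx
      exact mem_Hd.2 ⟨rfl, Finset.mem_range.1 hc, ha⟩
    have h2 := hsum _ _ h1
    rw [← QS_succ b hD ha, Finset.sum_image (fun c _ c' _ h => (List.cons.inj h).1)] at h2
    refine IsCl.eqv hD' hv (hy a ha) h2 (im_pj φ (hEmem ha ha rfl rfl) (hEpj ha))
      (w := im φ (E b D a a)) (im_mem φ (hEmem ha ha rfl rfl)) ?_ ?_
    · rw [(im_pj φ (hEmem ha ha rfl rfl) (hEpj ha)).st,
        (im_pj φ (hEmem ha ha rfl rfl) (hEpj ha)).mul]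
    · rw [(im_pj φ (hEmem ha ha rfl rfl) (hEpj ha)).st,
        (im_pj φ (hEmem ha ha rfl rfl) (hEpj ha)).mul]
  -- the heads
  have hex : ∀ k i, ∃ a : List ℕ, i < m k → a.length = k ∧ Ad D a ∧ st D a = i := by
    intro k i
    by_cases h : i < m k
    · obtain ⟨a, ha⟩ := exists_head hD k i h
      exact ⟨a, fun _ => ha⟩
    · exact ⟨[], fun h' => absurd h' h⟩
  choose hd hhd using hex
  refine ⟨fun k i => y (hd k i), ?_, ?_, ?_⟩
  · intro k i hi
    obtain ⟨h1, h2, h3⟩ := hhd k i hi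
    change y (hd k i) = _
    rw [hrel h2, ← sum_getD]
    have h4 : dg D (hd k i) = (D k i).length := by unfold dg; rw [h1, h3]
    rw [h4]
    refine Finset.sum_congr rfl fun c hc => ?_
    have hc' : c < (D k i).length := Finset.mem_range.1 hc
    have h5 : Ad D (c :: hd k i) := ⟨by rw [h4]; exact hc', h2⟩
    have h6 : st D (c :: hd k i) = (D k i).getD c 0 := by rw [st, h1, h3]
    have h7 : (D k i).getD c 0 < m (k + 1) := by
      rw [List.getD_eq_getElem _ _ hc']
      exact hD.lt k i hi _ (List.getElem_mem _)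
    obtain ⟨g1, g2, g3⟩ := hhd (k + 1) _ h7
    exact hyeq h5 g2 (by rw [List.length_cons, h1, g1]) (h6.trans g3.symm)
  · intro k i hi
    obtain ⟨h1, h2, h3⟩ := hhd k i hi
    exact IsCl.pos hD' hv (hy _ h2) (im_pj φ (hEmem h2 h2 rfl rfl) (hEpj h2))
      (im_ne φ hφ (hEmem h2 h2 rfl rfl) (E_ne_zero b hD h2))
  · intro k i hi
    obtain ⟨h1, h2, h3⟩ := hhd k i hi
    exact IsCl.combo hD' (hy _ h2)

end

end Pool.Agent.J6H74.SAF
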