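import Pool.Agent.J6H74.SAF.Cone
import Pool.Agent.H579R3.Epi1

/-!
# The group of a labelled tree

`V` is the vector space with basis the nodes `u` of the tree `List ℤ`.  The group `G Λ` of a
labelled tree is generated by the dyadic fractions of `e u / p ^ k` where `p` is the prime of the
level of `u`, of `e u / r ^ k` where `r` is the prime of a label of `u`, and of
`(e (a :: u) - e u) / q ^ k` where `q` is the prime of the edges of the level of `u`.
-/

set_option autoImplicit false

namespace Pool.Agent.J6H74.SAF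

open Pool.Agent.H579R3.Epi (K)

/-- the vector space with basis the nodes -/
abbrev VV : Type := List ℤ →₀ ℚ

/-- the basis vectors -/
noncomputable def e (u : List ℤ) : VV := Finsupp.single u 1

/-- the functional with the values `s u` on the basis vectors -/
noncomputable def Tf (s : List ℤ → ℤ) : VV →ₗ[ℚ] ℚ :=
  Finsupp.linearCombination ℚ (fun u => (s u : ℚ))

lemma Tf_e (s : List ℤ → ℤ) (u : List ℤ) : Tf s (e u) = s u := by
  unfold Tf e
  rw [Finsupp.linearCombination_single, one_smul]

/-- the sum of the coordinates -/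
noncomputable def tau : VV →ₗ[ℚ] ℚ := Tf fun _ => 1

lemma tau_e (u : List ℤ) : tau (e u) = 1 := by
  unfold tau
  rw [Tf_e]
  norm_num

/-- the primes -/
noncomputable def pm (i : ℕ) : ℕ := Nat.nth Nat.Prime i

lemma pm_prime (i : ℕ) : (pm i).Prime := Nat.prime_nth_prime _

lemma pm_inj {i j : ℕ} (h : pm i = pm j) : i = j :=
  Nat.nth_injective Nat.infinite_setOfPred_prime h

lemma pm_ne_two (i : ℕ) : pm (i + 1) ≠ 2 := by
  intro h
  have h1 : pm 0 = 2 := Nat.nth_prime_zero_eq_two
  rw [← h1] at h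
  have := pm_inj h
  omega

/-- the coefficients of the generators -/
noncomputable def co (j p k : ℕ) : ℚ := ((2 : ℚ) ^ j * (p : ℚ) ^ k)⁻¹

/-- the generators -/
def Gen (Λ : List ℤ → Set K) : Set VV :=
  {x | ∃ (j k : ℕ) (u : List ℤ), x = co j (pm (3 * u.length + 1)) k • e u ∨
    (∃ κ : K, κ ∈ Λ u ∧ x = co j (pm (3 * Encodable.encode κ + 3)) k • e u) ∨
    ∃ a : ℤ, x = co j (pm (3 * u.length + 2)) k • (e (a :: u) - e u)}

/-- the group of a labelled tree -/
noncomputable def GG (Λ : List ℤ → Set K) : Submodule ℤ VV := Submodule.span ℤ (Gen Λ)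

lemma gen1 (Λ : List ℤ → Set K) (j k : ℕ) (u : List ℤ) :
    co j (pm (3 * u.length + 1)) k • e u ∈ GG Λ :=
  Submodule.subset_span ⟨j, k, u, Or.inl rfl⟩

lemma gen2 {Λ : List ℤ → Set K} (j k : ℕ) {u : List ℤ} {κ : K} (h : κ ∈ Λ u) :
    co j (pm (3 * Encodable.encode κ + 3)) k • e u ∈ GG Λ :=
  Submodule.subset_span ⟨j, k, u, Or.inr (Or.inl ⟨κ, h, rfl⟩)⟩

lemma gen3 (Λ : List ℤ → Set K) (j k : ℕ) (u : List ℤ) (a : ℤ) :
    co j (pm (3 * u.length + 2)) k • (e (a :: u) - e u) ∈ GG Λ :=
  Submodule.subset_span ⟨j, k, u, Or.inr (Or.inr ⟨a, rfl⟩)⟩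

lemma e_mem (Λ : List ℤ → Set K) (u : List ℤ) : e u ∈ GG Λ := by
  have := gen1 Λ 0 0 u
  simpa [co] using this

lemma co_succ (j p k : ℕ) : co (j + 1) p k = (2 : ℚ)⁻¹ * co j p k := by
  unfold co
  rw [pow_succ]
  field_simp

lemma half {Λ : List ℤ → Set K} {x : VV} (hx : x ∈ GG Λ) : (2 : ℚ)⁻¹ • x ∈ GG Λ := by
  unfold GG at hx
  induction hx using Submodule.span_induction with
  | mem x hx =>
    obtain ⟨j, k, u, h | ⟨κ, hκ, h⟩ | ⟨a, h⟩⟩ := hx
    · rw [h, smul_smul, ← co_succ]
      exact gen1 Λ _ _ _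
    · rw [h, smul_smul, ← co_succ]
      exact gen2 _ _ hκ
    · rw [h, smul_smul, ← co_succ]
      exact gen3 Λ _ _ _ _
  | zero => rw [smul_zero]; exact zero_mem _
  | add x y _ _ hx hy => rw [smul_add]; exact add_mem hx hy
  | smul c x _ hx =>
    rw [smul_comm]
    exact Submodule.smul_mem _ _ hx

lemma Dy_mem {Λ : List ℤ → Set K} {F : Set VV} (hF : F ⊆ GG Λ) {x : VV} (hx : x ∈ Dy F) :
    x ∈ GG Λ := by
  obtain ⟨r, hr⟩ := hx
  have h1 : ((2 ^ r : ℤ)) • x ∈ GG Λ := Submodule.span_le.2 hF hr
  have h2 : ∀ (r : ℕ) (y : VV), ((2 ^ r : ℤ)) • y ∈ GG Λ → y ∈ GG Λ := by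
    intro r
    induction r with
    | zero => intro y hy; simpa using hy
    | succ r ih =>
      intro y hy
      apply ih
      have h3 := half hy
      have h4 : (2 : ℚ)⁻¹ • ((2 ^ (r + 1) : ℤ)) • y = ((2 ^ r : ℤ)) • y := by
        rw [← Int.cast_smul_eq_zsmul ℚ, ← Int.cast_smul_eq_zsmul ℚ, smul_smul]
        congr 1
        push_cast
        rw [pow_succ]
        field_simp
      rwa [h4] at h3
  exact h2 r x h1

/-! ### divisibility -/

section

variable {p : ℕ} (hp : p.Prime) (hp2 : p ≠ 2)

include hp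

lemma norm_int (z : ℤ) : padicNorm p z ≤ 1 := by
  have : Fact p.Prime := ⟨hp⟩
  exact padicNorm.of_int z

include hp2

lemma norm_co {j p' k : ℕ} (hp' : p'.Prime) (h : p ≠ p') : padicNorm p (co j p' k) = 1 := by
  have : Fact p.Prime := ⟨hp⟩
  unfold co
  rw [← one_div, padicNorm.div, padicNorm.one, padicNorm.mul]
  have h1 : padicNorm p ((2 : ℚ) ^ j) = 1 := by
    have h2 : ((2 : ℚ) ^ j) = ((2 ^ j : ℕ) : ℚ) := by push_cast; rfl
    rw [h2, padicNorm.nat_eq_one_iff]
    intro h3
    exact hp2 ((Nat.prime_dvd_prime_iff_eq hp Nat.prime_two).1 (hp.dvd_of_dvd_pow h3))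
  have h2 : padicNorm p ((p' : ℚ) ^ k) = 1 := by
    have h2 : ((p' : ℚ) ^ k) = ((p' ^ k : ℕ) : ℚ) := by push_cast; rfl
    rw [h2, padicNorm.nat_eq_one_iff]
    intro h3
    exact h ((Nat.prime_dvd_prime_iff_eq hp hp').1 (hp.dvd_of_dvd_pow h3))
  rw [h1, h2]
  norm_num

/-- infinitely divisible elements are killed by functionals with integral values -/
lemma Tf_zero {Λ : List ℤ → Set K} {s : List ℤ → ℤ}
    (h1 : ∀ u, p ≠ pm (3 * u.length + 1) ∨ s u = 0)
    (h2 : ∀ u, ∀ κ ∈ Λ u, p ≠ pm (3 * Encodable.encode κ + 3) ∨ s u = 0)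
    (h3 : ∀ u a, p ≠ pm (3 * u.length + 2) ∨ s (a :: u) = s u) {x : VV}
    (hx : ∀ k : ℕ, ∃ y ∈ GG Λ, x = ((p : ℚ) ^ k) • y) : Tf s x = 0 := by
  have hfact : Fact p.Prime := ⟨hp⟩
  have hint : ∀ y ∈ GG Λ, padicNorm p (Tf s y) ≤ 1 := by
    intro y hy
    unfold GG at hy
    induction hy using Submodule.span_induction with
    | mem y hy =>
      obtain ⟨j, k, u, h | ⟨κ, hκ, h⟩ | ⟨a, h⟩⟩ := hy
      · rw [h, map_smul, Tf_e, smul_eq_mul, padicNorm.mul]
        rcases h1 u with h4 | h4
        · rw [norm_co hp hp2 (pm_prime _) h4, one_mul]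
          exact norm_int hp _
        · rw [h4]
          simp
      · rw [h, map_smul, Tf_e, smul_eq_mul, padicNorm.mul]
        rcases h2 u κ hκ with h4 | h4
        · rw [norm_co hp hp2 (pm_prime _) h4, one_mul]
          exact norm_int hp _
        · rw [h4]
          simp
      · rw [h, map_smul, map_sub, Tf_e, Tf_e, smul_eq_mul, padicNorm.mul]
        rcases h3 u a with h4 | h4
        · rw [norm_co hp hp2 (pm_prime _) h4, one_mul]
          exact_mod_cast norm_int hp (s (a :: u) - s u)
        · rw [h4, sub_self]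
          simp
    | zero => rw [map_zero]; simp
    | add x y _ _ hx hy =>
      rw [map_add]
      exact (padicNorm.nonarchimedean).trans (max_le hx hy)
    | smul c x _ hx =>
      rw [map_zsmul, zsmul_eq_mul, padicNorm.mul]
      exact mul_le_one₀ (norm_int hp c) (padicNorm.nonneg _) hx
  have hle : ∀ k : ℕ, padicNorm p (Tf s x) ≤ ((p : ℚ) ^ k)⁻¹ := by
    intro k
    obtain ⟨y, hy, hxy⟩ := hx k
    rw [hxy, map_smul, smul_eq_mul, padicNorm.mul]
    have h4 : padicNorm p ((p : ℚ) ^ k) = ((p : ℚ) ^ k)⁻¹ := by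
      have h5 : ∀ n : ℕ, padicNorm p ((p : ℚ) ^ n) = ((p : ℚ) ^ n)⁻¹ := by
        intro n
        induction n with
        | zero => simp
        | succ n ih =>
          rw [pow_succ, padicNorm.mul, ih, padicNorm.padicNorm_p_of_prime, mul_inv]
      exact h5 k
    rw [h4]
    have h5 : (0 : ℚ) ≤ ((p : ℚ) ^ k)⁻¹ := by positivity
    exact mul_le_of_le_one_right h5 (hint y hy)
  by_contra h0
  have h4 : 0 < padicNorm p (Tf s x) := by
    have := padicNorm.nonneg (p := p) (Tf s x)
    rcases this.lt_or_eq with h | h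
    · exact h
    · exact absurd (padicNorm.zero_of_padicNorm_eq_zero h.symm) h0
  obtain ⟨k, hk⟩ := exists_nat_gt (padicNorm p (Tf s x))⁻¹
  have h5 : (k : ℚ) < (p : ℚ) ^ k := by exact_mod_cast Nat.lt_pow_self hp.one_lt
  have h6 := hle k
  have h7 : (0 : ℚ) < (p : ℚ) ^ k := by
    have : (0 : ℚ) < p := by exact_mod_cast hp.pos
    positivity
  rw [le_inv_comm₀ h4 h7] at h6
  linarith

end

open Classical in
lemma Tf_ind (w : List ℤ) (x : VV) : Tf (fun u => if u = w then 1 else 0) x = x w := by
  unfold Tf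
  rw [Finsupp.linearCombination_apply, Finsupp.sum]
  by_cases hw : w ∈ x.support
  · rw [Finset.sum_eq_single_of_mem w hw]
    · simp
    · intro u _ hne
      simp [hne]
  · rw [Finsupp.notMem_support_iff.1 hw]
    refine Finset.sum_eq_zero fun u hu => ?_
    have : u ≠ w := by rintro rfl; exact hw hu
    simp [this]

/-! ### from maps of the groups to maps of the trees -/

section

variable {Λ Λ' : List ℤ → Set K} {α : VV →ₗ[ℚ] VV} (hα : ∀ x ∈ GG Λ, α x ∈ GG Λ')

include hα

lemma al_div {x : VV} {p : ℕ} (hp : p.Prime) (h : ∀ k, co 0 p k • x ∈ GG Λ) (k : ℕ) :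
    ∃ y ∈ GG Λ', α x = ((p : ℚ) ^ k) • y := by
  refine ⟨α (co 0 p k • x), hα _ (h k), ?_⟩
  rw [map_smul, smul_smul]
  have : ((p : ℚ) ^ k) * co 0 p k = 1 := by
    unfold co
    have : (p : ℚ) ≠ 0 := by exact_mod_cast hp.ne_zero
    field_simp
  rw [this, one_smul]

lemma al_level (u w : List ℤ) (h : w.length ≠ u.length) : α (e u) w = 0 := by
  classical
  rw [← Tf_ind]
  refine Tf_zero (pm_prime (3 * u.length + 1)) (pm_ne_two _) ?_ ?_ ?_
    (al_div hα (pm_prime _) fun k => gen1 Λ 0 k u)
  · intro u'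
    by_cases h1 : u' = w
    · left
      intro h2
      have := pm_inj h2
      rw [h1] at this
      omega
    · right
      exact if_neg h1
  · intro u' κ _
    left
    intro h2
    have := pm_inj h2
    omega
  · intro u' a
    left
    intro h2
    have := pm_inj h2
    omega

lemma al_label {u w : List ℤ} {κ : K} (hκ : κ ∈ Λ u) (h : κ ∉ Λ' w) : α (e u) w = 0 := by
  classical
  rw [← Tf_ind]
  refine Tf_zero (pm_prime (3 * Encodable.encode κ + 3)) (pm_ne_two _) ?_ ?_ ?_
    (al_div hα (pm_prime _) fun k => gen2 0 k hκ)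
  · intro u'
    left
    intro h2
    have := pm_inj h2
    omega
  · intro u' κ' hκ'
    by_cases h1 : u' = w
    · left
      intro h2
      have h3 := pm_inj h2
      have h4 : Encodable.encode κ = Encodable.encode κ' := by omega
      have h5 := Encodable.encode_injective h4
      rw [h1, ← h5] at hκ'
      exact h hκ'
    · right
      exact if_neg h1
  · intro u' a
    left
    intro h2
    have := pm_inj h2
    omega

lemma al_edge {u w : List ℤ} (hl : w.length = u.length) (h : α (e u) w ≠ 0) (a : ℤ) :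
    ∃ a' : ℤ, α (e (a :: u)) (a' :: w) ≠ 0 := by
  classical
  let s : List ℤ → ℤ := fun v => if v = w then 1 else if ∃ a', v = a' :: w then 1 else 0
  have h1 : Tf s (α (e (a :: u) - e u)) = 0 := by
    refine Tf_zero (pm_prime (3 * u.length + 2)) (pm_ne_two _) ?_ ?_ ?_
      (al_div hα (pm_prime _) fun k => gen3 Λ 0 k u a)
    · intro u'
      left
      intro h2
      have := pm_inj h2
      omega
    · intro u' κ' _
      left
      intro h2
      have := pm_inj h2
      omega
    · intro u' c
      by_cases h2 : u'.length = u.length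
      · right
        have h3 : ¬ (c :: u' = w) := by
          intro h4
          have := congrArg List.length h4
          rw [List.length_cons] at this
          omega
        have h5 : ¬ (∃ a', u' = a' :: w) := by
          rintro ⟨a', h4⟩
          have := congrArg List.length h4
          rw [List.length_cons] at this
          omega
        have h6 : (∃ a', c :: u' = a' :: w) ↔ u' = w := by
          constructor
          · rintro ⟨a', h4⟩
            exact (List.cons.inj h4).2
          · rintro rfl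
            exact ⟨c, rfl⟩
        simp only [s]
        rw [if_neg h3]
        by_cases h7 : u' = w
        · rw [if_pos (h6.2 h7), if_pos h7]
        · rw [if_neg (fun h => h7 (h6.1 h)), if_neg h7, if_neg h5]
      · left
        intro h3
        have := pm_inj h3
        omega
  rw [map_sub, map_sub, sub_eq_zero] at h1
  have h2 : Tf s (α (e u)) = α (e u) w := by
    rw [← Tf_ind]
    unfold Tf
    rw [Finsupp.linearCombination_apply, Finsupp.linearCombination_apply, Finsupp.sum, Finsupp.sum]
    refine Finset.sum_congr rfl fun v hv => ?_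
    congr 1
    simp only [s]
    by_cases h3 : v = w
    · rw [if_pos h3, if_pos h3]
    · rw [if_neg h3, if_neg h3, if_neg]
      rintro ⟨a', rfl⟩
      rw [Finsupp.mem_support_iff] at hv
      refine hv (al_level hα u _ ?_)
      rw [List.length_cons]
      omega
  rw [h2] at h1
  by_contra h3
  push Not at h3
  apply h
  rw [← h1]
  unfold Tf
  rw [Finsupp.linearCombination_apply, Finsupp.sum]
  refine Finset.sum_eq_zero fun v hv => ?_
  rw [Finsupp.mem_support_iff] at hv
  have h4 : s v = 0 := by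
    simp only [s]
    rw [if_neg, if_neg]
    · rintro ⟨a', rfl⟩
      exact hv (h3 a')
    · rintro rfl
      refine hv (al_level hα _ _ ?_)
      rw [List.length_cons]
      omega
  rw [h4]
  simp

/-- a map of the groups gives a map of the labelled trees -/
theorem map_of_linear (h0 : α (e []) ≠ 0) :
    ∃ g : List ℤ → List ℤ, g [] = [] ∧ (∀ k p, ∃ k', g (k :: p) = k' :: g p) ∧
      ∀ p, Λ p ⊆ Λ' (g p) := by
  classical
  have hroot : α (e []) [] ≠ 0 := by
    intro h
    apply h0
    ext w
    rw [Finsupp.zero_apply]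
    by_cases hw : w = []
    · rw [hw, h]
    · exact al_level hα [] w (by
        rw [List.length_nil]
        exact fun h => hw (List.length_eq_zero_iff.1 h))
  let nx : List ℤ → List ℤ → ℤ → ℤ := fun u w a =>
    if h : ∃ a', α (e (a :: u)) (a' :: w) ≠ 0 then h.choose else 0
  let g : List ℤ → List ℤ := fun p => List.rec [] (fun a u w => nx u w a :: w) p
  have hg0 : g [] = [] := rfl
  have hg1 : ∀ a u, g (a :: u) = nx u (g u) a :: g u := fun a u => rfl
  have hZ : ∀ u, (g u).length = u.length ∧ α (e u) (g u) ≠ 0 := by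
    intro u
    induction u with
    | nil => exact ⟨rfl, hroot⟩
    | cons a u ih =>
      have h1 := al_edge hα ih.1 ih.2 a
      rw [hg1]
      refine ⟨by rw [List.length_cons, List.length_cons, ih.1], ?_⟩
      simp only [nx]
      rw [dif_pos h1]
      exact h1.choose_spec
  refine ⟨g, hg0, fun a u => ⟨_, hg1 a u⟩, fun u κ hκ => ?_⟩
  by_contra h
  exact (hZ u).2 (al_label hα hκ h)

end

/-! ### from maps of the trees to maps of the groups -/

section

variable {Λ Λ' : List ℤ → Set K} {g : List ℤ → List ℤ} (hlen : ∀ u, (g u).length = u.length)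
  (hcons : ∀ k p, ∃ k', g (k :: p) = k' :: g p) (hL : ∀ p, Λ p ⊆ Λ' (g p))

lemma map_e (g : List ℤ → List ℤ) (u : List ℤ) :
    Finsupp.lmapDomain ℚ ℚ g (e u) = e (g u) := by
  unfold e
  rw [Finsupp.lmapDomain_apply, Finsupp.mapDomain_single]

include hlen hcons hL

lemma map_mem {x : VV} (hx : x ∈ GG Λ) : Finsupp.lmapDomain ℚ ℚ g x ∈ GG Λ' := by
  unfold GG at hx
  induction hx using Submodule.span_induction with
  | mem x hx =>
    obtain ⟨j, k, u, h | ⟨κ, hκ, h⟩ | ⟨a, h⟩⟩ := hx
    · rw [h, map_smul, map_e, ← hlen u]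
      exact gen1 Λ' _ _ _
    · rw [h, map_smul, map_e]
      exact gen2 _ _ (hL u hκ)
    · rw [h, map_smul, map_sub, map_e, map_e, ← hlen u]
      obtain ⟨k', hk'⟩ := hcons a u
      rw [hk']
      exact gen3 Λ' _ _ _ _
  | zero => rw [map_zero]; exact zero_mem _
  | add x y _ _ hx hy => rw [map_add]; exact add_mem hx hy
  | smul c x _ hx =>
    rw [map_zsmul]
    exact Submodule.smul_mem _ _ hx

omit hlen hcons hL in
lemma tau_map (x : VV) : tau (Finsupp.lmapDomain ℚ ℚ g x) = tau x := by
  induction x using Finsupp.induction_linear with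
  | zero => rw [map_zero, map_zero]
  | add x y hx hy => rw [map_add, map_add, map_add, hx, hy]
  | single u q =>
    have h1 : (Finsupp.single u q : VV) = q • e u := by
      unfold e
      rw [Finsupp.smul_single, smul_eq_mul, mul_one]
    rw [h1, map_smul, map_e, map_smul, map_smul, tau_e, tau_e]

end

end Pool.Agent.J6H74.SAF
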