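import Pool.Agent.J6H74.SAF.Emb

/-!
# The completely positive approximation property
-/

set_option autoImplicit false

open scoped InnerProductSpace ComplexOrder

namespace Pool.Agent.J6H74.SAF

open Pool.Agent.TH723.AF (op_ext vec_ext norm_b)

universe u v

/-- `φ` is a completely positive contractive linear map on the set `S` of operators on `L` with
values in the operators on `M`: it is linear and contractive on `S`, and
`∑ i, ∑ j, ⟪ξ i, φ (a i ^* a j) (ξ j)⟫ ≥ 0` for all finite families `a i ∈ S`, `ξ i ∈ M`. -/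
structure CPC {L : Type u} {M : Type v} [NormedAddCommGroup L] [InnerProductSpace ℂ L]
    [CompleteSpace L] [NormedAddCommGroup M] [InnerProductSpace ℂ M]
    (S : Set (L →L[ℂ] L)) (φ : (L →L[ℂ] L) → (M →L[ℂ] M)) : Prop where
  add : ∀ a ∈ S, ∀ b ∈ S, φ (a + b) = φ a + φ b
  smul : ∀ a ∈ S, ∀ c : ℂ, φ (c • a) = c • φ a
  cp : ∀ (n : ℕ) (a : Fin n → (L →L[ℂ] L)) (ξ : Fin n → M), (∀ i, a i ∈ S) →
    0 ≤ ∑ i, ∑ j, ⟪ξ i, φ (star (a i) * a j) (ξ j)⟫_ℂ
  contr : ∀ a ∈ S, ‖φ a‖ ≤ ‖a‖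

variable {H : Type v} [NormedAddCommGroup H] [InnerProductSpace ℂ H] [CompleteSpace H]
  (b : HilbertBasis ℕ ℂ H)

/-- the column space -/
abbrev KK (n : ℕ) : Type := EuclideanSpace ℂ (Fin n)

/-- the standard basis -/
noncomputable def eps {n : ℕ} (i : Fin n) : KK n := EuclideanSpace.single i 1

lemma eps_inner {n : ℕ} (i : Fin n) (x : KK n) : ⟪eps i, x⟫_ℂ = x i := by
  unfold eps
  rw [EuclideanSpace.inner_single_left]
  simp

lemma eps_sum {n : ℕ} (x : KK n) : x = ∑ i, x i • eps i := by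
  ext j
  unfold eps
  simp [Pi.single_apply]

section

variable {D : Dg} {m : ℕ → ℕ} (hD : Ok D m) {k n : ℕ} (a : Fin n → List ℕ)

/-- the full matrix algebra of the heads -/
noncomputable def rho (D : Dg) (a : Fin n → List ℕ) (T : KK n →L[ℂ] KK n) : H →L[ℂ] H :=
  ∑ i, ∑ j, (T (eps j)) i • E b D (a j) (a i)

variable {a} (ha : ∀ i, a i ∈ Hd D k) (hinj : Function.Injective a)

include hD ha hinj

lemma rho_mul (T T' : KK n →L[ℂ] KK n) : rho b D a (T * T') = rho b D a T * rho b D a T' := by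
  classical
  have hA : ∀ i, (a i).length = k ∧ Ad D (a i) := fun i => mem_Hd.1 (ha i)
  unfold rho
  rw [Finset.sum_mul]
  refine Finset.sum_congr rfl fun i _ => ?_
  rw [Finset.sum_mul]
  have h1 : ∀ j : Fin n, (T (eps j)) i • E b D (a j) (a i) *
      ∑ i', ∑ j', (T' (eps j')) i' • E b D (a j') (a i') =
      ∑ l, ((T (eps j)) i * (T' (eps l)) j) • E b D (a l) (a i) := by
    intro j
    rw [Finset.mul_sum, Finset.sum_eq_single j]
    · rw [Finset.mul_sum]
      refine Finset.sum_congr rfl fun l _ => ?_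
      rw [smul_mul_smul_comm, E_mul b hD (hA l).2 (hA j).2 (hA i).2]
    · intro j' _ hne
      rw [Finset.mul_sum]
      refine Finset.sum_eq_zero fun l _ => ?_
      rw [smul_mul_smul_comm, E_mul_ne b hD ((hA j).1.trans (hA j').1.symm) (hA l).2 (hA j').2
        (hA j).2 (fun h => hne (hinj h).symm), smul_zero]
    · intro h
      exact absurd (Finset.mem_univ _) h
  rw [Finset.sum_congr rfl fun j _ => h1 j, Finset.sum_comm]
  refine Finset.sum_congr rfl fun l _ => ?_
  rw [← Finset.sum_smul]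
  congr 1
  rw [mul_apply_eq_comp]
  conv_lhs => rw [eps_sum (T' (eps l)), map_sum]
  simp only [map_smul, PiLp.smul_apply, WithLp.ofLp_sum, Finset.sum_apply, smul_eq_mul]
  exact Finset.sum_congr rfl fun j _ => mul_comm _ _

omit hD ha hinj in
lemma rho_star (T : KK n →L[ℂ] KK n) : rho b D a (star T) = star (rho b D a T) := by
  unfold rho
  rw [star_sum]
  simp only [star_sum, star_smul, star_E]
  rw [Finset.sum_comm]
  refine Finset.sum_congr rfl fun i _ => Finset.sum_congr rfl fun j _ => ?_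
  congr 1
  rw [← eps_inner, ← eps_inner, ContinuousLinearMap.star_eq_adjoint,
    ContinuousLinearMap.adjoint_inner_right, ← inner_conj_symm]
  rfl

omit hD ha hinj in
lemma rho_add (T T' : KK n →L[ℂ] KK n) : rho b D a (T + T') = rho b D a T + rho b D a T' := by
  unfold rho
  simp only [add_apply, PiLp.add_apply, add_smul, Finset.sum_add_distrib]

omit hD ha hinj in
lemma rho_smul (c : ℂ) (T : KK n →L[ℂ] KK n) : rho b D a (c • T) = c • rho b D a T := by
  unfold rho
  simp only [smul_apply, PiLp.smul_apply, smul_eq_mul, mul_smul, Finset.smul_sum]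

/-- the homomorphism -/
noncomputable def rhoHom : (KK n →L[ℂ] KK n) →⋆ₙₐ[ℂ] (H →L[ℂ] H) where
  toFun := rho b D a
  map_smul' := rho_smul b
  map_zero' := by
    have := rho_add b (D := D) (a := a) (0 : KK n →L[ℂ] KK n) 0
    rw [add_zero] at this
    simpa using this
  map_add' := rho_add b
  map_mul' := rho_mul b hD ha hinj
  map_star' := rho_star b

lemma rho_norm (T : KK n →L[ℂ] KK n) : ‖rho b D a T‖ ≤ ‖T‖ :=
  NonUnitalStarAlgHom.norm_apply_le (rhoHom b hD ha hinj) T

end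

section

variable {D : Dg} {m : ℕ → ℕ} (hD : Ok D m)

include hD

/-- approximation through matrix algebras -/
theorem approx (F : Finset (H →L[ℂ] H)) (hF : ∀ T ∈ F, T ∈ AD b hD) {ε : ℝ} (hε : 0 < ε) :
    ∃ (n : ℕ) (φ : (H →L[ℂ] H) → (KK n →L[ℂ] KK n)) (ψ : (KK n →L[ℂ] KK n) → (H →L[ℂ] H)),
      CPC (AD b hD : Set (H →L[ℂ] H)) φ ∧ CPC Set.univ ψ ∧ (∀ T, ψ T ∈ AD b hD) ∧
      ∀ T ∈ F, ‖ψ (φ T) - T‖ < ε := by
  classical
  -- a common stage
  have hstage : ∃ k, ∀ T ∈ F, ∃ T' ∈ Fk b hD k, ‖T - T'‖ < ε / 2 := by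
    have h1 : ∀ T, ∃ k, T ∈ F → ∃ T' ∈ Fk b hD k, ‖T - T'‖ < ε / 2 := by
      intro T
      by_cases hT : T ∈ F
      · have hx' : T ∈ closure (⋃ k, (Fk b hD k : Set (H →L[ℂ] H))) := hF T hT
        obtain ⟨y, hy, hd⟩ := Metric.mem_closure_iff.1 hx' (ε / 2) (by positivity)
        obtain ⟨k, hk⟩ := Set.mem_iUnion.1 hy
        rw [dist_eq_norm] at hd
        exact ⟨k, fun _ => ⟨y, hk, hd⟩⟩
      · exact ⟨0, fun h => absurd h hT⟩
    choose κ hκ using h1
    refine ⟨F.sup κ, fun T hT => ?_⟩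
    obtain ⟨T', h2, h3⟩ := hκ T hT
    exact ⟨T', Fk_mono b hD (Finset.le_sup hT) h2, h3⟩
  obtain ⟨k, hk⟩ := hstage
  -- the heads
  obtain ⟨n, a, ha, hinj, hsurj⟩ : ∃ (n : ℕ) (a : Fin n → List ℕ), (∀ i, a i ∈ Hd D k) ∧
      Function.Injective a ∧ ∀ c ∈ Hd D k, ∃ i, a i = c := by
    let eqv := (Hd D k).equivFin
    exact ⟨_, fun i => (eqv.symm i).1, fun i => (eqv.symm i).2,
      fun i j h => eqv.symm.injective (Subtype.ext h), fun c hc => ⟨eqv ⟨c, hc⟩, by simp⟩⟩
  have hA : ∀ i, (a i).length = k ∧ Ad D (a i) := fun i => mem_Hd.1 (ha i)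
  have hsumHd : ∀ {M : Type v} [AddCommMonoid M] (f : List ℕ → M),
      ∑ c ∈ Hd D k, f c = ∑ i, f (a i) := by
    intro M _ f
    symm
    refine Finset.sum_bij (fun i _ => a i) (fun i _ => ha i) (fun i _ j _ h => hinj h) ?_
      (fun _ _ => rfl)
    intro c hc
    obtain ⟨i, hi⟩ := hsurj c hc
    exact ⟨i, Finset.mem_univ _, hi⟩
  -- the isometry
  let J : KK n →L[ℂ] H := LinearMap.toContinuousLinearMap
    { toFun := fun x => ∑ i, x i • b (pos D (a i) 0)
      map_add' := by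
        intro x y
        simp only [PiLp.add_apply, add_smul, Finset.sum_add_distrib]
      map_smul' := by
        intro c x
        simp only [PiLp.smul_apply, smul_eq_mul, mul_smul, Finset.smul_sum, RingHom.id_apply] }
  have hJ : ∀ x, J x = ∑ i, x i • b (pos D (a i) 0) := fun _ => rfl
  have hJe : ∀ j, J (eps j) = b (pos D (a j) 0) := by
    intro j
    rw [hJ, Finset.sum_eq_single j]
    · simp [eps]
    · intro i _ hne
      simp [eps, hne]
    · intro h
      exact absurd (Finset.mem_univ _) h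
  have hort : ∀ i j, ⟪b (pos D (a i) 0), b (pos D (a j) 0)⟫_ℂ = if i = j then 1 else 0 := by
    intro i j
    by_cases h : i = j
    · subst h
      rw [if_pos rfl, inner_self_eq_norm_sq_to_K, norm_b]
      simp
    · rw [if_neg h]
      exact b.orthonormal.2 fun h' => h (hinj (pos_inj hD ((hA i).1.trans (hA j).1.symm)
        (hA i).2 (hA j).2 h').1)
  have hJn : ∀ x, ‖J x‖ = ‖x‖ := by
    intro x
    have h1 : ⟪J x, J x⟫_ℂ = ⟪x, x⟫_ℂ := by
      rw [hJ, sum_inner]
      simp only [inner_sum, inner_smul_left, inner_smul_right, hort, mul_ite, mul_one, mul_zero,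
        Finset.sum_ite_eq, Finset.mem_univ, if_true]
      rw [PiLp.inner_apply]
      refine Finset.sum_congr rfl fun i _ => ?_
      rw [RCLike.inner_apply, mul_comm]
    rw [← sq_eq_sq₀ (norm_nonneg _) (norm_nonneg _), ← inner_self_eq_norm_sq (𝕜 := ℂ),
      ← inner_self_eq_norm_sq (𝕜 := ℂ), h1]
  have hJ1 : ‖J‖ ≤ 1 := J.opNorm_le_bound zero_le_one fun x => by rw [one_mul, hJn]
  -- compression
  let φ : (H →L[ℂ] H) → (KK n →L[ℂ] KK n) := fun T =>
    (ContinuousLinearMap.adjoint J) ∘L T ∘L J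
  have hφi : ∀ (T : H →L[ℂ] H) (x y : KK n), ⟪x, φ T y⟫_ℂ = ⟪J x, T (J y)⟫_ℂ := by
    intro T x y
    exact ContinuousLinearMap.adjoint_inner_right J x (T (J y))
  have hφadd : ∀ T T', φ (T + T') = φ T + φ T' := by
    intro T T'
    apply ContinuousLinearMap.ext
    intro x
    apply ext_inner_left ℂ
    intro y
    rw [hφi, add_apply, inner_add_right, add_apply, inner_add_right, hφi, hφi]
  have hφsmul : ∀ (c : ℂ) T, φ (c • T) = c • φ T := by
    intro c T
    apply ContinuousLinearMap.ext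
    intro x
    apply ext_inner_left ℂ
    intro y
    rw [hφi, smul_apply, inner_smul_right, smul_apply, inner_smul_right, hφi]
  have hφn : ∀ T, ‖φ T‖ ≤ ‖T‖ := by
    intro T
    calc ‖φ T‖ ≤ ‖ContinuousLinearMap.adjoint J‖ * ‖T ∘L J‖ :=
          ContinuousLinearMap.opNorm_comp_le _ _
      _ ≤ 1 * (‖T‖ * 1) := by
          gcongr
          · rw [LinearIsometryEquiv.norm_map]
            exact hJ1
          · exact (ContinuousLinearMap.opNorm_comp_le _ _).trans (by gcongr)
      _ = ‖T‖ := by ring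
  have hφcp : CPC (AD b hD : Set (H →L[ℂ] H)) φ := by
    refine ⟨fun T _ T' _ => hφadd T T', fun T _ c => hφsmul c T, fun N A ξ _ => ?_,
      fun T _ => hφn T⟩
    have h1 : ∑ i, ∑ j, ⟪ξ i, φ (star (A i) * A j) (ξ j)⟫_ℂ =
        ⟪∑ i, A i (J (ξ i)), ∑ j, A j (J (ξ j))⟫_ℂ := by
      rw [sum_inner]
      refine Finset.sum_congr rfl fun i _ => ?_
      rw [inner_sum]
      refine Finset.sum_congr rfl fun j _ => ?_
      rw [hφi, mul_apply_eq_comp, ContinuousLinearMap.star_eq_adjoint,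
        ContinuousLinearMap.adjoint_inner_right]
    rw [h1, inner_self_eq_norm_sq_to_K]
    have h2 : ∀ r : ℝ, (0 : ℂ) ≤ ((r : ℝ) : ℂ) ^ 2 := fun r => by
      exact_mod_cast (sq_nonneg r : (0 : ℝ) ≤ r ^ 2)
    exact h2 _
  -- the projections onto the blocks
  let Q : ℕ → (H →L[ℂ] H) := fun v => QS b D ((Hd D k).filter fun c => st D c = v)
  have hQpj : ∀ v, Pj (Q v) := fun v => QS_pj b hD (Finset.filter_subset _ _)
  have hQE : ∀ v i, Q v * E b D (a i) (a i) = if st D (a i) = v then E b D (a i) (a i) else 0 := by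
    intro v i
    simp only [Q, QS]
    rw [Finset.sum_mul]
    by_cases h : st D (a i) = v
    · rw [if_pos h, Finset.sum_eq_single_of_mem (a i) (Finset.mem_filter.2 ⟨ha i, h⟩)]
      · exact E_mul b hD (hA i).2 (hA i).2 (hA i).2
      · intro c hc hne
        have hc' := mem_Hd.1 (Finset.mem_filter.1 hc).1
        exact E_mul_ne b hD (hc'.1.trans (hA i).1.symm) (hA i).2 (hA i).2 hc'.2 hne
    · rw [if_neg h]
      refine Finset.sum_eq_zero fun c hc => ?_
      have hc' := mem_Hd.1 (Finset.mem_filter.1 hc).1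
      refine E_mul_ne b hD (hc'.1.trans (hA i).1.symm) (hA i).2 (hA i).2 hc'.2 ?_
      rintro rfl
      exact h (Finset.mem_filter.1 hc).2
  have hQE2 : ∀ v i j, Q v * E b D (a j) (a i) =
      if st D (a i) = v then E b D (a j) (a i) else 0 := by
    intro v i j
    have h1 : E b D (a j) (a i) = E b D (a i) (a i) * E b D (a j) (a i) :=
      (E_mul b hD (hA j).2 (hA i).2 (hA i).2).symm
    rw [h1, ← mul_assoc, hQE]
    split_ifs
    · rfl
    · rw [zero_mul]
  have hEQ : ∀ v i j, E b D (a j) (a i) * Q v =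
      if st D (a j) = v then E b D (a j) (a i) else 0 := by
    intro v i j
    have h1 := congrArg star (hQE2 v j i)
    rw [star_mul, star_E, (hQpj v).st] at h1
    rw [h1]
    split_ifs
    · rw [star_E]
    · rw [star_zero]
  have hQsum : ∑ v ∈ Finset.range (m k), Q v = 1 := by
    apply ext_k b hD k
    intro c h1 h2 r
    have hc : c ∈ Hd D k := mem_Hd.2 ⟨h1, h2⟩
    have h3 := st_lt hD h2
    rw [h1] at h3
    obtain ⟨i, rfl⟩ := hsurj c hc
    have h4 : b (pos D (a i) r) = E b D (a i) (a i) (b (pos D (a i) r)) :=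
      (E_pos b hD h2 h2 r).symm
    rw [h4, ← mul_apply_eq_comp, Finset.sum_mul, Finset.sum_eq_single_of_mem _
      (Finset.mem_range.2 h3)]
    · rw [hQE, if_pos rfl]
      rfl
    · intro v _ hne
      rw [hQE, if_neg (fun h => hne h.symm)]
  have hQorth : ∀ x : H, ∑ v ∈ Finset.range (m k), ‖Q v x‖ ^ 2 = ‖x‖ ^ 2 := by
    intro x
    have h1 := congrArg (fun T : H →L[ℂ] H => RCLike.re ⟪T x, x⟫_ℂ) hQsum
    simp only [sum_apply, sum_inner, map_sum] at h1
    rw [Finset.sum_congr rfl fun v _ => ((hQpj v).normsq x).symm, h1]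
    change RCLike.re ⟪x, x⟫_ℂ = _
    rw [inner_self_eq_norm_sq]
  -- the map back
  let ψ : (KK n →L[ℂ] KK n) → (H →L[ℂ] H) := fun T =>
    ∑ v ∈ Finset.range (m k), Q v * rho b D a T * Q v
  have hψi : ∀ (T : KK n →L[ℂ] KK n) (x y : H), ⟪x, ψ T y⟫_ℂ =
      ∑ v ∈ Finset.range (m k), ⟪Q v x, rho b D a T (Q v y)⟫_ℂ := by
    intro T x y
    simp only [ψ]
    rw [sum_apply, inner_sum]
    refine Finset.sum_congr rfl fun v _ => ?_
    rw [mul_apply_eq_comp, mul_apply_eq_comp, ← (hQpj v).inner]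
  have hψval : ∀ T, ψ T = ∑ i, ∑ j, (if st D (a j) = st D (a i) then
      (T (eps j)) i • E b D (a j) (a i) else 0) := by
    intro T
    have h1 : ∀ v ∈ Finset.range (m k), Q v * rho b D a T * Q v =
        ∑ i, ∑ j, (if st D (a i) = v ∧ st D (a j) = v then
          (T (eps j)) i • E b D (a j) (a i) else 0) := by
      intro v _
      unfold rho
      rw [Finset.mul_sum, Finset.sum_mul]
      refine Finset.sum_congr rfl fun i _ => ?_
      rw [Finset.mul_sum, Finset.sum_mul]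
      refine Finset.sum_congr rfl fun j _ => ?_
      rw [mul_smul_comm, smul_mul_assoc, hQE2]
      by_cases h2 : st D (a i) = v
      · rw [if_pos h2, hEQ]
        by_cases h3 : st D (a j) = v
        · rw [if_pos h3, if_pos ⟨h2, h3⟩]
        · rw [if_neg h3, if_neg (fun h => h3 h.2), smul_zero]
      · rw [if_neg h2, if_neg (fun h => h2 h.1), zero_mul, smul_zero]
    simp only [ψ]
    rw [Finset.sum_congr rfl h1, Finset.sum_comm]
    refine Finset.sum_congr rfl fun i _ => ?_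
    rw [Finset.sum_comm]
    refine Finset.sum_congr rfl fun j _ => ?_
    have h3 := st_lt hD (hA i).2
    rw [(hA i).1] at h3
    rw [Finset.sum_eq_single_of_mem _ (Finset.mem_range.2 h3)]
    · by_cases h4 : st D (a j) = st D (a i)
      · rw [if_pos h4, if_pos ⟨rfl, h4⟩]
      · rw [if_neg h4, if_neg (fun h => h4 h.2)]
    · intro v _ hne
      rw [if_neg (fun h => hne h.1.symm)]
  have hψmem : ∀ T, ψ T ∈ AD b hD := by
    intro T
    rw [hψval]
    refine sum_mem fun i _ => sum_mem fun j _ => ?_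
    split_ifs with h
    · exact SMulMemClass.smul_mem _ (Fk_le_AD b hD k (E_mem b hD (ha j) (ha i) h))
    · exact zero_mem _
  have hψadd : ∀ T T', ψ (T + T') = ψ T + ψ T' := by
    intro T T'
    simp only [ψ, rho_add, mul_add, add_mul, Finset.sum_add_distrib]
  have hψsmul : ∀ (c : ℂ) T, ψ (c • T) = c • ψ T := by
    intro c T
    simp only [ψ, rho_smul, mul_smul_comm, smul_mul_assoc, Finset.smul_sum]
  have hψn : ∀ T, ‖ψ T‖ ≤ ‖T‖ := by
    intro T
    apply ContinuousLinearMap.opNorm_le_bound _ (norm_nonneg _)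
    intro x
    have h1 : ‖ψ T x‖ ^ 2 ≤ (‖T‖ * ‖x‖) * ‖ψ T x‖ := by
      have h2 : ‖ψ T x‖ ^ 2 = RCLike.re ⟪ψ T x, ψ T x⟫_ℂ := (inner_self_eq_norm_sq _).symm
      rw [h2, hψi, map_sum]
      calc ∑ v ∈ Finset.range (m k), RCLike.re ⟪Q v (ψ T x), rho b D a T (Q v x)⟫_ℂ
          ≤ ∑ v ∈ Finset.range (m k), (‖T‖ * ‖Q v x‖) * ‖Q v (ψ T x)‖ := by
            refine Finset.sum_le_sum fun v _ => ?_
            calc RCLike.re ⟪Q v (ψ T x), rho b D a T (Q v x)⟫_ℂ
                ≤ ‖Q v (ψ T x)‖ * ‖rho b D a T (Q v x)‖ := re_inner_le_norm _ _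
              _ ≤ ‖Q v (ψ T x)‖ * (‖rho b D a T‖ * ‖Q v x‖) := by
                  gcongr
                  exact ContinuousLinearMap.le_opNorm _ _
              _ ≤ ‖Q v (ψ T x)‖ * (‖T‖ * ‖Q v x‖) := by
                  gcongr
                  exact rho_norm b hD ha hinj T
              _ = (‖T‖ * ‖Q v x‖) * ‖Q v (ψ T x)‖ := by ring
        _ = ‖T‖ * ∑ v ∈ Finset.range (m k), ‖Q v x‖ * ‖Q v (ψ T x)‖ := by
            rw [Finset.mul_sum]
            exact Finset.sum_congr rfl fun v _ => by ring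
        _ ≤ ‖T‖ * (‖x‖ * ‖ψ T x‖) := by
            gcongr
            have h3 := Finset.sum_mul_sq_le_sq_mul_sq (Finset.range (m k)) (fun v => ‖Q v x‖)
              (fun v => ‖Q v (ψ T x)‖)
            rw [hQorth, hQorth, ← mul_pow] at h3
            exact (pow_le_pow_iff_left₀ (Finset.sum_nonneg fun v _ => by positivity)
              (by positivity) two_ne_zero).1 h3
        _ = _ := by ring
    by_contra h4
    push Not at h4
    have h5 : 0 ≤ ‖T‖ * ‖x‖ := by positivity
    nlinarith [norm_nonneg (ψ T x)]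
  have hψcp : CPC Set.univ ψ := by
    refine ⟨fun T _ T' _ => hψadd T T', fun T _ c => hψsmul c T, fun N A ξ _ => ?_,
      fun T _ => hψn T⟩
    have h1 : ∑ i, ∑ j, ⟪ξ i, ψ (star (A i) * A j) (ξ j)⟫_ℂ =
        ∑ v ∈ Finset.range (m k), ⟪∑ i, rho b D a (A i) (Q v (ξ i)),
          ∑ j, rho b D a (A j) (Q v (ξ j))⟫_ℂ := by
      simp only [hψi]
      rw [Finset.sum_congr rfl fun i _ => Finset.sum_comm, Finset.sum_comm]
      refine Finset.sum_congr rfl fun v _ => ?_
      rw [sum_inner]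
      refine Finset.sum_congr rfl fun i _ => ?_
      rw [inner_sum]
      refine Finset.sum_congr rfl fun j _ => ?_
      rw [rho_mul b hD ha hinj, rho_star, mul_apply_eq_comp, ContinuousLinearMap.star_eq_adjoint,
        ContinuousLinearMap.adjoint_inner_right]
    rw [h1]
    refine Finset.sum_nonneg fun v _ => ?_
    rw [inner_self_eq_norm_sq_to_K]
    have h2 : ∀ r : ℝ, (0 : ℂ) ≤ ((r : ℝ) : ℂ) ^ 2 := fun r => by
      exact_mod_cast (sq_nonneg r : (0 : ℝ) ≤ r ^ 2)
    exact h2 _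
  -- the composition
  have hcomp : ∀ T ∈ Fk b hD k, ψ (φ T) = T := by
    intro T hT
    rw [hψval]
    conv_rhs => rw [expand b hD hT, hsumHd]
    rw [Finset.sum_comm]
    refine Finset.sum_congr rfl fun j _ => ?_
    rw [hsumHd]
    refine Finset.sum_congr rfl fun i _ => ?_
    have h1 : (φ T (eps j)) i = cf b D T (a j) (a i) := by
      rw [← eps_inner, hφi, hJe, hJe]
      rfl
    rw [h1]
    split_ifs with h2
    · rfl
    · rw [mc_st b hD hT (ha j) (ha i) h2, zero_smul]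
  refine ⟨n, φ, ψ, hφcp, hψcp, hψmem, fun T hT => ?_⟩
  obtain ⟨T', h1, h2⟩ := hk T hT
  have h3 : ψ (φ T) - T = ψ (φ (T - T')) - (T - T') := by
    have h4 : φ T = φ (T - T') + φ T' := by rw [← hφadd, sub_add_cancel]
    rw [h4, hψadd, hcomp T' h1]
    abel
  rw [h3]
  calc ‖ψ (φ (T - T')) - (T - T')‖ ≤ ‖ψ (φ (T - T'))‖ + ‖T - T'‖ := norm_sub_le _ _
    _ ≤ ‖T - T'‖ + ‖T - T'‖ := by gcongr; exact (hψn _).trans (hφn _)
    _ < ε := by linarith

end

end Pool.Agent.J6H74.SAF
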