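import Pool.Agent.J6H74.SAF.Emb

/-!
# Simplicity
-/

set_option autoImplicit false

open scoped InnerProductSpace

namespace Pool.Agent.J6H74.SAF

open Pool.Agent.TH723.AF (op_ext vec_ext norm_b)

universe v

variable {H : Type v} [NormedAddCommGroup H] [InnerProductSpace ℂ H] [CompleteSpace H]
  (b : HilbertBasis ℕ ℂ H)

section

variable {D : Dg} {m : ℕ → ℕ} (hD : Ok D m)

lemma corner {k : ℕ} {T : H →L[ℂ] H} (hT : T ∈ Fk b hD k) {a c : List ℕ} (ha : a ∈ Hd D k)
    (hc : c ∈ Hd D k) : E b D c c * T * E b D a a = cf b D T a c • E b D a c := by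
  have ha' := mem_Hd.1 ha
  have hc' := mem_Hd.1 hc
  apply ext_k b hD k
  intro a₁ h1 h2 r
  rw [mul_apply_eq_comp, mul_apply_eq_comp, smul_apply]
  by_cases h : a = a₁
  · subst h
    rw [E_pos b hD h2 h2, E_pos b hD h2 hc'.2]
    apply vec_ext b
    intro n
    obtain ⟨c₁, s, h3, h4, rfl⟩ := exists_pos hD k n
    have h5 : ⟪b (pos D c₁ s), E b D c c (T (b (pos D a r)))⟫_ℂ =
        ⟪E b D c c (b (pos D c₁ s)), T (b (pos D a r))⟫_ℂ := by
      have h6 := ContinuousLinearMap.adjoint_inner_left (E b D c c) (T (b (pos D a r)))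
        (b (pos D c₁ s))
      rw [← ContinuousLinearMap.star_eq_adjoint, star_E] at h6
      exact h6.symm
    rw [h5, inner_smul_right]
    by_cases h7 : c = c₁
    · subst h7
      rw [E_pos b hD h4 h4, mc b hD hT ha hc]
      by_cases h8 : s = r
      · rw [if_pos h8, h8]
        have := b.orthonormal.1 (pos D c r)
        rw [inner_self_eq_norm_sq_to_K, this]
        simp
      · rw [if_neg h8]
        have h9 : pos D c s ≠ pos D c r := fun h => h8 (pos_inj hD rfl h4 h4 h).2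
        rw [b.orthonormal.2 h9, mul_zero]
    · rw [E_ne b hD (hc'.1.trans h3.symm) hc'.2 h4 h7, inner_zero_left]
      have h9 : pos D c₁ s ≠ pos D c r := fun h =>
        h7 (pos_inj hD (h3.trans hc'.1.symm) h4 hc'.2 h).1.symm
      rw [b.orthonormal.2 h9, mul_zero]
  · rw [E_ne b hD (ha'.1.trans h1.symm) ha'.2 h2 h, E_ne b hD (ha'.1.trans h1.symm) ha'.2 h2 h,
      map_zero, map_zero, smul_zero]

/-- the algebra is simple -/
theorem simple (J : Set (H →L[ℂ] H)) (hJ : J ⊆ AD b hD) (hcl : IsClosed J)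
    (h0 : (0 : H →L[ℂ] H) ∈ J)
    (hadd : ∀ x ∈ J, ∀ y ∈ J, x + y ∈ J) (hl : ∀ x ∈ J, ∀ y ∈ AD b hD, y * x ∈ J)
    (hr : ∀ x ∈ J, ∀ y ∈ AD b hD, x * y ∈ J) {T : H →L[ℂ] H} (hT : T ∈ J) (hT0 : T ≠ 0) :
    (AD b hD : Set (H →L[ℂ] H)) ⊆ J := by
  classical
  have h1AD : (1 : H →L[ℂ] H) ∈ AD b hD := Fk_le_AD b hD 0 (one_mem b hD 0)
  have happrox : ∀ x ∈ AD b hD, ∀ ε > 0, ∃ k, ∃ y ∈ Fk b hD k, ‖x - y‖ < ε := by
    intro x hx ε hε
    have hx' : x ∈ closure (⋃ k, (Fk b hD k : Set (H →L[ℂ] H))) := hx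
    obtain ⟨y, hy, hd⟩ := Metric.mem_closure_iff.1 hx' ε hε
    obtain ⟨k, hk⟩ := Set.mem_iUnion.1 hy
    rw [dist_eq_norm] at hd
    exact ⟨k, y, hk, hd⟩
  have hcoef : ∀ (x : H →L[ℂ] H) (n n' : ℕ), ‖⟪b n', x (b n)⟫_ℂ‖ ≤ ‖x‖ := by
    intro x n n'
    calc ‖⟪b n', x (b n)⟫_ℂ‖ ≤ ‖b n'‖ * ‖x (b n)‖ := norm_inner_le_norm _ _
      _ ≤ 1 * (‖x‖ * 1) := by
          rw [norm_b b n']
          gcongr
          have := x.le_opNorm (b n)
          rwa [norm_b b n] at this
      _ = ‖x‖ := by ring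
  -- a nonzero coefficient
  obtain ⟨n, n', hnn⟩ : ∃ n n', ⟪b n', T (b n)⟫_ℂ ≠ 0 := by
    by_contra h
    push Not at h
    apply hT0
    apply op_ext b
    intro n
    apply vec_ext b
    intro n'
    rw [h n n']
    simp
  -- the diagonal
  obtain ⟨S, hSJ, hS⟩ : ∃ S ∈ J, ⟪b n, S (b n)⟫_ℂ ≠ 0 := by
    obtain ⟨k, T', hT', hd⟩ := happrox T (hJ hT) ‖⟪b n', T (b n)⟫_ℂ‖ (norm_pos_iff.2 hnn)
    have h1 : ⟪b n', T' (b n)⟫_ℂ ≠ 0 := by
      intro h2
      have h3 := hcoef (T - T') n n'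
      rw [sub_apply, inner_sub_right, h2, sub_zero] at h3
      exact absurd (lt_of_le_of_lt h3 hd) (lt_irrefl _)
    obtain ⟨a, r, h2, h3, rfl⟩ := exists_pos hD k n
    obtain ⟨c, s, h4, h5, rfl⟩ := exists_pos hD k n'
    have ha := mem_Hd.2 ⟨h2, h3⟩
    have hc := mem_Hd.2 ⟨h4, h5⟩
    rw [mc b hD hT' ha hc] at h1
    have hsr : s = r := by
      by_contra h6
      rw [if_neg h6] at h1
      exact h1 rfl
    rw [if_pos hsr] at h1
    subst hsr
    have hst : st D c = st D a := by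
      by_contra h6
      exact h1 (mc_st b hD hT' ha hc (fun h => h6 h.symm))
    refine ⟨E b D c a * T, hl T hT _ (Fk_le_AD b hD k (E_mem b hD hc ha hst)), ?_⟩
    have h6 := ContinuousLinearMap.adjoint_inner_left (E b D c a) (T (b (pos D a s)))
      (b (pos D a s))
    rw [← ContinuousLinearMap.star_eq_adjoint, star_E, E_pos b hD h3 h5] at h6
    rw [mul_apply_eq_comp, ← h6]
    exact hnn
  set lam := ⟪b n, S (b n)⟫_ℂ with hlam
  have hlpos : 0 < ‖lam‖ := norm_pos_iff.2 hS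
  obtain ⟨k, S', hS', hd⟩ := happrox S (hJ hSJ) (‖lam‖ / 4) (by positivity)
  obtain ⟨a, r, h2, h3, rfl⟩ := exists_pos hD k n
  have ha := mem_Hd.2 ⟨h2, h3⟩
  set e := E b D a a with he
  have hee : e * e = e := E_mul b hD h3 h3 h3
  have heAD : e ∈ AD b hD := Fk_le_AD b hD k (E_mem b hD ha ha rfl)
  have hse : star e = e := star_E b D a a
  have hen : ‖e‖ ≤ 1 := Pj.norm_le_one ⟨hee, hse⟩
  have hcorn := corner b hD hS' ha ha
  have hcf : cf b D S' a a = ⟪b (pos D a r), S' (b (pos D a r))⟫_ℂ := by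
    rw [mc b hD hS' ha ha, if_pos rfl]
  have hcfd : ‖lam - cf b D S' a a‖ ≤ ‖S - S'‖ := by
    rw [hcf, hlam, ← inner_sub_right]
    exact hcoef (S - S') _ _
  set y := lam⁻¹ • (e * S * e) with hy
  have hyJ : y ∈ J := by
    have h4 : y = (lam⁻¹ • e) * S * e := by rw [hy, smul_mul_assoc, smul_mul_assoc]
    rw [h4]
    exact hr _ (hl _ hSJ _ (SMulMemClass.smul_mem _ heAD)) _ heAD
  have hye : ‖e - y‖ ≤ 1 / 2 := by
    have h4 : e - y = lam⁻¹ • ((lam - cf b D S' a a) • e - e * (S - S') * e) := by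
      rw [mul_sub, sub_mul, hcorn, hy, sub_smul, smul_sub, smul_sub, smul_smul, smul_sub,
        inv_mul_cancel₀ hS, one_smul]
      abel
    rw [h4, norm_smul, norm_inv]
    have h5 : ‖(lam - cf b D S' a a) • e - e * (S - S') * e‖ ≤ ‖lam‖ / 4 + ‖lam‖ / 4 := by
      refine (norm_sub_le _ _).trans (add_le_add ?_ ?_)
      · rw [norm_smul]
        calc ‖lam - cf b D S' a a‖ * ‖e‖ ≤ ‖S - S'‖ * 1 := by gcongr
          _ ≤ ‖lam‖ / 4 := by rw [mul_one]; exact hd.le
      · calc ‖e * (S - S') * e‖ ≤ ‖e * (S - S')‖ * ‖e‖ := norm_mul_le _ _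
          _ ≤ (‖e‖ * ‖S - S'‖) * ‖e‖ := by gcongr; exact norm_mul_le _ _
          _ ≤ (1 * ‖S - S'‖) * 1 := by gcongr
          _ ≤ ‖lam‖ / 4 := by rw [mul_one, one_mul]; exact hd.le
    calc ‖lam‖⁻¹ * ‖(lam - cf b D S' a a) • e - e * (S - S') * e‖
        ≤ ‖lam‖⁻¹ * (‖lam‖ / 4 + ‖lam‖ / 4) := by gcongr
      _ = 1 / 2 := by field_simp; norm_num
  -- `e` belongs to `J`
  have hyAD : y ∈ AD b hD := hJ hyJ
  set z := e - y with hz
  have hzAD : z ∈ AD b hD := sub_mem heAD hyAD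
  have hze : z * e = z := by
    rw [hz, sub_mul, hee, hy, smul_mul_assoc, mul_assoc, hee]
  have hpow : ∀ N : ℕ, e - z ^ (N + 1) ∈ J := by
    intro N
    induction N with
    | zero =>
      rw [zero_add, pow_one, hz, sub_sub_cancel]
      exact hyJ
    | succ N ih =>
      have h4 : e - z ^ (N + 1 + 1) = y + z * (e - z ^ (N + 1)) := by
        rw [mul_sub, hze, pow_succ' z (N + 1), hz]
        abel
      rw [h4]
      exact hadd _ hyJ _ (hl _ ih _ hzAD)
  have heJ : e ∈ J := by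
    have h4 : Filter.Tendsto (fun N : ℕ => e - z ^ (N + 1)) Filter.atTop (nhds (e - 0)) := by
      apply Filter.Tendsto.sub tendsto_const_nhds
      have h5 := tendsto_pow_atTop_nhds_zero_of_norm_lt_one (x := z) (by linarith)
      exact h5.comp (Filter.tendsto_add_atTop_nat 1)
    rw [sub_zero] at h4
    exact hcl.mem_of_tendsto h4 (Filter.Eventually.of_forall hpow)
  -- all diagonal matrix units of the next stage belong to `J`
  have hdiag : ∀ c ∈ Hd D (k + 1), E b D c c ∈ J := by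
    intro c hc
    have hc' := mem_Hd.1 hc
    have h4 := st_lt hD hc'.2
    rw [hc'.1] at h4
    have h5 := st_lt hD h3
    rw [h2] at h5
    obtain ⟨i, hi, hi'⟩ := List.getElem_of_mem (hD.full k _ h5 _ h4)
    have h6 : Ad D (i :: a) := by
      refine ⟨?_, h3⟩
      unfold dg
      rw [h2]
      exact hi
    have h7 : st D (i :: a) = st D c := by
      rw [st, h2, List.getD_eq_getElem _ _ hi, hi']
    have h8 : (i :: a) ∈ Hd D (k + 1) := mem_Hd.2 ⟨by rw [List.length_cons, h2], h6⟩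
    have h9 : E b D (i :: a) (i :: a) * e = E b D (i :: a) (i :: a) := by
      rw [he, E_succ b hD rfl h3 h3 rfl, Finset.mul_sum, Finset.sum_eq_single_of_mem i
        (Finset.mem_range.2 h6.1)]
      · exact E_mul b hD h6 h6 h6
      · intro j hj hne
        have h10 : Ad D (j :: a) := ⟨Finset.mem_range.1 hj, h3⟩
        exact E_mul_ne b hD (by simp) h10 h10 h6 (fun h => hne (List.cons.inj h).1.symm)
    have h10 : E b D (i :: a) (i :: a) ∈ J := by
      rw [← h9]
      exact hl _ heJ _ (Fk_le_AD b hD _ (E_mem b hD h8 h8 rfl))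
    have h11 : E b D c c = E b D (i :: a) c * E b D (i :: a) (i :: a) * E b D c (i :: a) := by
      rw [E_mul b hD h6 h6 hc'.2, E_mul b hD hc'.2 h6 hc'.2]
    rw [h11]
    exact hr _ (hl _ h10 _ (Fk_le_AD b hD _ (E_mem b hD h8 hc h7))) _
      (Fk_le_AD b hD _ (E_mem b hD hc h8 h7.symm))
  have hone : (1 : H →L[ℂ] H) ∈ J := by
    have h4 : (1 : H →L[ℂ] H) = ∑ c ∈ Hd D (k + 1), E b D c c := by
      apply ext_k b hD (k + 1)
      intro a' h5 h6 r'
      rw [sum_apply, Finset.sum_eq_single_of_mem a' (mem_Hd.2 ⟨h5, h6⟩), E_pos b hD h6 h6]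
      · rfl
      · intro c hc hne
        have h13 := mem_Hd.1 hc
        exact E_ne b hD (h13.1.trans h5.symm) h13.2 h6 hne r'
    rw [h4]
    have h5 : ∀ F : Finset (List ℕ), F ⊆ Hd D (k + 1) → ∑ c ∈ F, E b D c c ∈ J := by
      intro F
      induction F using Finset.induction_on with
      | empty => intro _; rw [Finset.sum_empty]; exact h0
      | insert c F hc ih =>
        intro hF
        rw [Finset.sum_insert hc]
        exact hadd _ (hdiag c (hF (Finset.mem_insert_self _ _))) _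
          (ih fun x hx => hF (Finset.mem_insert_of_mem hx))
    exact h5 _ subset_rfl
  intro x hx
  have := hl _ hone x hx
  rwa [mul_one] at this

end

end Pool.Agent.J6H74.SAF
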