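import Pool.Agent.J6H74.SAF.Meas
import Pool.Agent.J6H74.SAF.Simp
import Pool.Agent.J6H74.SAF.Nuc
import Pool.Agent.TH723.AF.Tree

/-!
# The main theorem
-/

set_option autoImplicit false

open scoped InnerProductSpace

namespace Pool.Agent.J6H74.SAF

open Pool.Agent.H579R3.Epi (K IsAuto TLe)
open Pool.Agent.TH723.AF (AnalyticRel exists_tree)

universe u v

variable {H : Type v} [NormedAddCommGroup H] [InnerProductSpace ℂ H] [CompleteSpace H]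

/-- the C*-algebra generated by the entries of a sequence of operators -/
noncomputable def CA (γ : ℕ → (H →L[ℂ] H)) : NonUnitalStarSubalgebra ℂ (H →L[ℂ] H) :=
  (NonUnitalStarAlgebra.adjoin ℂ (Set.range γ)).topologicalClosure

lemma CA_cod (b : HilbertBasis ℕ ℂ H) {en : ℕ → List ℕ × List ℕ} (hen : Function.Surjective en)
    (Λ : List ℤ → Set K) : CA (cod b en Λ) = AA b Λ := by
  unfold CA AA AD
  rw [adjoin_cod hen]

/-- every analytic quasi-order is the embeddability of unital simple nuclear AF algebras on a Borel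
family of codes -/
theorem main [TopologicalSpace.SeparableSpace H] (hH : ¬ FiniteDimensional ℂ H)
    (m : MeasurableSpace (H →L[ℂ] H)) {X : Type u} [MeasurableSpace X] [StandardBorelSpace X]
    (R : X → X → Prop) (hrefl : ∀ x, R x x) (htrans : ∀ x y z, R x y → R y z → R x z)
    (hR : AnalyticRel R) :
    ∃ f : X → ℕ → (H →L[ℂ] H), Measurable f ∧
      (∀ x, (1 : H →L[ℂ] H) ∈ CA (f x)) ∧
      (∀ x, ∃ N : ℕ → NonUnitalStarSubalgebra ℂ (H →L[ℂ] H), Monotone N ∧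
        (∀ n, FiniteDimensional ℂ (N n).toSubmodule) ∧
        (CA (f x) : Set (H →L[ℂ] H)) = closure (⋃ n, (N n : Set (H →L[ℂ] H)))) ∧
      (∀ x, ∀ J : Set (H →L[ℂ] H), J ⊆ CA (f x) → IsClosed J → (0 : H →L[ℂ] H) ∈ J →
        (∀ S ∈ J, ∀ T ∈ J, S + T ∈ J) → (∀ S ∈ J, ∀ T ∈ CA (f x), T * S ∈ J) →
        (∀ S ∈ J, ∀ T ∈ CA (f x), S * T ∈ J) → ∀ T ∈ J, T ≠ 0 →
        (CA (f x) : Set (H →L[ℂ] H)) ⊆ J) ∧
      (∀ x, ∀ F : Finset (H →L[ℂ] H), (∀ T ∈ F, T ∈ CA (f x)) → ∀ ε : ℝ, 0 < ε →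
        ∃ (n : ℕ) (φ : (H →L[ℂ] H) → (KK n →L[ℂ] KK n)) (ψ : (KK n →L[ℂ] KK n) → (H →L[ℂ] H)),
          CPC (CA (f x) : Set (H →L[ℂ] H)) φ ∧ CPC Set.univ ψ ∧ (∀ T, ψ T ∈ CA (f x)) ∧
          ∀ T ∈ F, ‖ψ (φ T) - T‖ < ε) ∧
      (∀ x y, R x y → ∃ φ : CA (f x) →⋆ₙₐ[ℂ] CA (f y), Function.Injective φ ∧
        ∀ h1 : (1 : H →L[ℂ] H) ∈ CA (f x), (φ ⟨1, h1⟩ : H →L[ℂ] H) = 1) ∧
      ∀ x y, (∃ φ : CA (f x) →⋆ₙₐ[ℂ] CA (f y), Function.Injective φ) → R x y := by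
  obtain ⟨b⟩ := exists_basis (H := H) hH
  obtain ⟨Λ, h1, h2, h3⟩ := exists_tree R hrefl htrans hR
  obtain ⟨en, hen⟩ := exists_surjective_nat (List ℕ × List ℕ)
  refine ⟨fun x => cod b en (Λ x), ?_, ?_, ?_, ?_, ?_, ?_, ?_⟩
  · exact measurable_pi_lambda _ fun n => measurable_cod b h1 en m n
  · intro x
    rw [CA_cod b hen]
    exact Fk_le_AD b _ 0 (one_mem b _ 0)
  · intro x
    rw [CA_cod b hen]
    exact ⟨fun n => Fk b (DD_ok (Λ x)) n, fun _ _ h => Fk_mono b _ h, fun n => Fk_finite b _ n, rfl⟩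
  · intro x
    rw [CA_cod b hen]
    intro J hJ hcl h0 hadd hl hr T hT hT0
    exact simple b (DD_ok (Λ x)) J hJ hcl h0 hadd hl hr hT hT0
  · intro x
    rw [CA_cod b hen]
    intro F hF ε hε
    exact approx b (DD_ok (Λ x)) F hF hε
  · intro x y hxy
    rw [CA_cod b hen, CA_cod b hen]
    obtain ⟨g, hg, hL⟩ := h2 x y hxy
    exact embedding_of_map b hg.nil hg.cons hL
  · intro x y
    rw [CA_cod b hen, CA_cod b hen]
    rintro ⟨φ, hφ⟩
    exact h3 x y (map_of_embedding b φ hφ)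

end Pool.Agent.J6H74.SAF
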