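import Pool.Agent.J6H74.SAF.Seq
import Pool.Agent.TH723.AF.Basis

/-!
# The coding map is Borel
-/

set_option autoImplicit false

open scoped InnerProductSpace

namespace Pool.Agent.J6H74.SAF

open Pool.Agent.H579R3.Epi (K)
open Pool.Agent.TH723.AF (op)

universe u v

/-! ### functions with measurable fibres -/

section

variable {X : Type u} [MeasurableSpace X]

/-- a function with measurable fibres -/
def MF {α : Type*} (f : X → α) : Prop := ∀ a, MeasurableSet {x | f x = a}

lemma MF.set {α : Type*} [Countable α] {f : X → α} (hf : MF f) (S : Set α) :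
    MeasurableSet {x | f x ∈ S} := by
  have : {x | f x ∈ S} = ⋃ a ∈ S, {x | f x = a} := by
    ext x
    simp
  rw [this]
  exact MeasurableSet.biUnion (Set.to_countable S) fun a _ => hf a

lemma MF.comp {α β : Type*} [Countable α] {f : X → α} (hf : MF f) (F : α → β) :
    MF fun x => F (f x) := fun c => hf.set {a | F a = c}

lemma MF.prod {α β : Type*} {f : X → α} {g : X → β} (hf : MF f) (hg : MF g) :
    MF fun x => (f x, g x) := by
  rintro ⟨a, c⟩
  have : {x | (f x, g x) = (a, c)} = {x | f x = a} ∩ {x | g x = c} := by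
    ext x
    simp [Prod.ext_iff]
  rw [this]
  exact (hf a).inter (hg c)

lemma MF.measurable {α : Type*} [Countable α] {f : X → α} (hf : MF f) {β : Type*}
    [MeasurableSpace β] (F : α → β) : Measurable fun x => F (f x) := fun S _ =>
  hf.set {a | F a ∈ S}

lemma MF.const {α : Type*} (c : α) : MF fun _ : X => c := by
  intro a
  by_cases h : c = a
  · have : {x : X | c = a} = Set.univ := by
      ext x
      simp [h]
    rw [this]
    exact MeasurableSet.univ
  · have : {x : X | c = a} = ∅ := by
      ext x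
      simp [h]
    rw [this]
    exact MeasurableSet.empty

lemma MF.ite {α : Type*} {P : X → Prop} (hP : MeasurableSet {x | P x}) {f g : X → α} (hf : MF f)
    (hg : MF g) (h : DecidablePred P) : MF fun x => if P x then f x else g x := by
  intro a
  have : {x | (if P x then f x else g x) = a} =
      ({x | P x} ∩ {x | f x = a}) ∪ ({x | P x}ᶜ ∩ {x | g x = a}) := by
    ext x
    by_cases h : P x
    · simp [h]
    · simp [h]
  rw [this]
  exact (hP.inter (hf a)).union (hP.compl.inter (hg a))

/-! ### the group -/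

variable {Λ : X → List ℤ → Set K} (hΛ : ∀ p κ, MeasurableSet {x : X | κ ∈ Λ x p})

include hΛ

lemma meas_Gen (y : VV) : MeasurableSet {x | y ∈ Gen (Λ x)} := by
  have : {x | y ∈ Gen (Λ x)} = ⋃ (j : ℕ), ⋃ (k : ℕ), ⋃ (u : List ℤ),
      ({x : X | y = co j (pm (3 * u.length + 1)) k • e u} ∪
      ((⋃ κ : K, ({x | κ ∈ Λ x u} ∩
        {x : X | y = co j (pm (3 * Encodable.encode κ + 3)) k • e u})) ∪
      ⋃ a : ℤ, {x : X | y = co j (pm (3 * u.length + 2)) k • (e (a :: u) - e u)})) := by
    ext x
    simp only [Set.mem_iUnion, Set.mem_union, Set.mem_inter_iff]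
    rfl
  rw [this]
  refine MeasurableSet.iUnion fun j => MeasurableSet.iUnion fun k => MeasurableSet.iUnion fun w =>
    MeasurableSet.union (MeasurableSet.const _) (MeasurableSet.union ?_ ?_)
  · exact MeasurableSet.iUnion fun κ => (hΛ w κ).inter (MeasurableSet.const _)
  · exact MeasurableSet.iUnion fun a => MeasurableSet.const _

lemma meas_GG (y : VV) : MeasurableSet {x | y ∈ GG (Λ x)} := by
  have : {x | y ∈ GG (Λ x)} = ⋃ F ∈ {F : Finset VV | y ∈ Submodule.span ℤ (F : Set VV)},
      ⋂ w ∈ F, {x | w ∈ Gen (Λ x)} := by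
    ext x
    simp only [Set.mem_iUnion, Set.mem_iInter, exists_prop]
    constructor
    · intro h
      obtain ⟨F, h1, h2⟩ := Submodule.mem_span_finite_of_mem_span h
      exact ⟨F, h2, fun w hw => h1 hw⟩
    · rintro ⟨F, h1, h2⟩
      exact Submodule.span_mono (fun w hw => h2 w hw) h1
  rw [this]
  refine MeasurableSet.biUnion (Set.to_countable _) fun F _ => ?_
  exact Finset.measurableSet_biInter F fun w _ => meas_Gen hΛ w

lemma meas_gs (n : ℕ) : MF fun x => gs (Λ x) n := by
  classical
  have h1 : MeasurableSet {x : X | en n ∈ GG (Λ x) ∧ 0 < tau (en n)} :=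
    (meas_GG hΛ (en n)).inter (MeasurableSet.const _)
  unfold gs
  exact MF.ite h1 (MF.const (en n)) (MF.const (e [])) _

lemma meas_BB (k : ℕ) : MF fun x => BB (Λ x) k := by
  induction k with
  | zero => exact MF.const _
  | succ k ih => exact (ih.prod (meas_gs hΛ k)).comp fun q => nB q.1 q.2

lemma meas_DD {k : ℕ} {i : X → ℕ} (hi : MF i) : MF fun x => DD (Λ x) k (i x) :=
  ((meas_BB hΛ (k + 1)).prod ((meas_BB hΛ k).prod hi)).comp
    fun q => ls q.1 (q.2.1.getD q.2.2 0)

lemma meas_st (a : List ℕ) : MF fun x => st (DD (Λ x)) a := by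
  induction a with
  | nil => exact MF.const _
  | cons c a ih => exact (meas_DD hΛ (k := a.length) ih).comp fun l => l.getD c 0

lemma meas_dg (a : List ℕ) : MF fun x => dg (DD (Λ x)) a :=
  (meas_DD hΛ (k := a.length) (meas_st hΛ a)).comp List.length

lemma meas_Ad (a : List ℕ) : MeasurableSet {x | Ad (DD (Λ x)) a} := by
  induction a with
  | nil => exact MeasurableSet.const _
  | cons c a ih => exact ((meas_dg hΛ a).set {n | c < n}).inter ih

lemma meas_al (a : List ℕ) : MF fun x => al (DD (Λ x)) a := by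
  induction a with
  | nil => exact MF.const _
  | cons c a ih => exact (ih.prod (meas_dg hΛ a)).comp fun q => q.1 * q.2

lemma meas_be (a : List ℕ) : MF fun x => be (DD (Λ x)) a := by
  induction a with
  | nil => exact MF.const _
  | cons c a ih => exact (ih.prod (meas_al hΛ a)).comp fun q => q.1 + q.2 * c

end

/-! ### the code -/

variable {H : Type v} [NormedAddCommGroup H] [InnerProductSpace ℂ H] [CompleteSpace H]
  (b : HilbertBasis ℕ ℂ H)

open Classical in
/-- the code of the algebra of a labelled tree -/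
noncomputable def cod (en : ℕ → List ℕ × List ℕ) (Λ : List ℤ → Set K) (n : ℕ) : H →L[ℂ] H :=
  if (Ad (DD Λ) (en n).1 ∧ Ad (DD Λ) (en n).2) ∧ (en n).1.length = (en n).2.length ∧
      st (DD Λ) (en n).1 = st (DD Λ) (en n).2 then E b (DD Λ) (en n).1 (en n).2 else 0

lemma measurable_cod {X : Type u} [MeasurableSpace X] {Λ : X → List ℤ → Set K}
    (hΛ : ∀ p κ, MeasurableSet {x : X | κ ∈ Λ x p}) (en : ℕ → List ℕ × List ℕ)
    (m : MeasurableSpace (H →L[ℂ] H)) (n : ℕ) : Measurable (fun x => cod b en (Λ x) n) := by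
  classical
  unfold cod
  refine Measurable.ite ?_ ?_ measurable_const
  · refine ((meas_Ad hΛ _).inter (meas_Ad hΛ _)).inter ((MeasurableSet.const _).inter ?_)
    exact ((meas_st hΛ (en n).1).prod (meas_st hΛ (en n).2)).set {q | q.1 = q.2}
  · unfold E
    exact (((meas_al hΛ (en n).1).prod (meas_be hΛ (en n).1)).prod
      ((meas_al hΛ (en n).2).prod (meas_be hΛ (en n).2))).measurable
      fun q => op b (aff q.1.1 q.1.2 q.2.1 q.2.2)

variable {b}

/-- the algebra of the code -/
lemma adjoin_cod {en : ℕ → List ℕ × List ℕ} (hen : Function.Surjective en)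
    (Λ : List ℤ → Set K) :
    NonUnitalStarAlgebra.adjoin ℂ (Set.range (cod b en Λ)) = FU b (DD_ok Λ) := by
  apply le_antisymm
  · apply NonUnitalStarAlgebra.adjoin_le
    rintro _ ⟨n, rfl⟩
    unfold cod
    split_ifs with h
    · exact (mem_FU b _).2 ⟨(en n).1.length, E_mem b _ (mem_Hd.2 ⟨rfl, h.1.1⟩)
        (mem_Hd.2 ⟨h.2.1.symm, h.1.2⟩) h.2.2⟩
    · exact zero_mem _
  · intro T hT
    obtain ⟨k, hk⟩ := (mem_FU b _).1 hT
    rw [mem_Fk] at hk
    have h4 : Submodule.span ℂ (MU b (DD Λ) k) ≤
        (NonUnitalStarAlgebra.adjoin ℂ (Set.range (cod b en Λ))).toSubmodule := by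
      apply Submodule.span_le.2
      rintro D ⟨a, c, h1, h2, h3, h4, h5, rfl⟩
      obtain ⟨n, hn⟩ := hen (a, c)
      apply NonUnitalStarAlgebra.subset_adjoin ℂ _
      refine ⟨n, ?_⟩
      unfold cod
      rw [hn]
      exact if_pos ⟨⟨h3, h4⟩, h1.trans h2.symm, h5⟩
    exact h4 hk

/-- a separable infinite dimensional Hilbert space has a basis indexed by the natural numbers -/
theorem exists_basis [TopologicalSpace.SeparableSpace H]
    (hH : ¬ FiniteDimensional ℂ H) : Nonempty (HilbertBasis ℕ ℂ H) := by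
  obtain ⟨w, b, -⟩ := exists_hilbertBasis ℂ H
  have hc : Countable w := Pool.Agent.TH723.AF.countable_of_orthonormal b.orthonormal
  have hi : Infinite w := by
    by_contra h
    rw [not_infinite_iff_finite] at h
    exact hH (Pool.Agent.TH723.AF.finite_dim_of_basis b)
  obtain ⟨e⟩ : Nonempty (ℕ ≃ w) := nonempty_equiv_of_countable
  have h1 : Orthonormal ℂ (b ∘ e) := b.orthonormal.comp _ e.injective
  refine ⟨HilbertBasis.mk h1 ?_⟩
  rw [Set.range_comp, e.surjective.range_eq, Set.image_univ, b.dense_span]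

end Pool.Agent.J6H74.SAF
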