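import Pool.Agent.TH723.AF.Op

/-!
# The AF algebra of a diagram

`D k i` is the list of the targets of the edges out of the vertex `i` of level `k`.  A head is a
list of choices (the most recent one first), and the matrix unit `E a c` of two heads `a`, `c` of
the same length sends the basis vector `b (pos a r)` to `b (pos c r)` for all `r`.
-/

set_option autoImplicit false

open scoped InnerProductSpace

namespace Pool.Agent.J6H74.SAF

open Pool.Agent.TH723.AF (op op_ext vec_ext inner_b norm_b op_apply op_of_some op_of_none inner_op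
  op_mul star_op inner_op_symm)

/-- a diagram: `D k i` is the list of the targets of the edges out of the vertex `i` of level `k` -/
abbrev Dg : Type := ℕ → ℕ → List ℕ

/-- the vertex at the end of a head -/
def st (D : Dg) : List ℕ → ℕ
  | [] => 0
  | c :: a => (D a.length (st D a)).getD c 0

/-- the number of the edges out of the end of a head -/
def dg (D : Dg) (a : List ℕ) : ℕ := (D a.length (st D a)).length

/-- the admissible heads -/
def Ad (D : Dg) : List ℕ → Prop
  | [] => True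
  | c :: a => c < dg D a ∧ Ad D a

/-- the slope of the positions of a head -/
def al (D : Dg) : List ℕ → ℕ
  | [] => 1
  | _ :: a => al D a * dg D a

/-- the offset of the positions of a head -/
def be (D : Dg) : List ℕ → ℕ
  | [] => 0
  | c :: a => be D a + al D a * c

/-- the positions of a head -/
def pos (D : Dg) (a : List ℕ) (r : ℕ) : ℕ := al D a * r + be D a

lemma pos_cons (D : Dg) (c : ℕ) (a : List ℕ) (r : ℕ) :
    pos D (c :: a) r = pos D a (dg D a * r + c) := by
  simp only [pos, al, be]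
  ring

lemma pos_nil (D : Dg) (r : ℕ) : pos D [] r = r := by simp [pos, al, be]

/-- good diagrams: there are `m k` vertices in level `k`, and each vertex has an edge to all
vertices of the next level -/
structure Ok (D : Dg) (m : ℕ → ℕ) : Prop where
  one : m 0 = 1
  pos : ∀ k, 0 < m k
  lt : ∀ k i, i < m k → ∀ j ∈ D k i, j < m (k + 1)
  full : ∀ k i, i < m k → ∀ j, j < m (k + 1) → j ∈ D k i

section

variable {D : Dg} {m : ℕ → ℕ} (hD : Ok D m)

include hD

lemma st_lt {a : List ℕ} (ha : Ad D a) : st D a < m a.length := by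
  induction a with
  | nil => rw [st, List.length_nil, hD.one]; exact Nat.one_pos
  | cons c a ih =>
    have h1 := ih ha.2
    have h2 : c < (D a.length (st D a)).length := ha.1
    rw [st, List.getD_eq_getElem _ _ h2]
    exact hD.lt _ _ h1 _ (List.getElem_mem _)

lemma dg_pos {a : List ℕ} (ha : Ad D a) : 0 < dg D a := by
  unfold dg
  apply List.length_pos_of_mem
  exact hD.full _ _ (st_lt hD ha) 0 (hD.pos _)

lemma al_pos {a : List ℕ} (ha : Ad D a) : 0 < al D a := by
  induction a with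
  | nil => exact Nat.one_pos
  | cons c a ih => exact Nat.mul_pos (ih ha.2) (dg_pos hD ha.2)

lemma pos_inj {a a' : List ℕ} (hl : a.length = a'.length) (ha : Ad D a) (ha' : Ad D a') {r r' : ℕ}
    (h : pos D a r = pos D a' r') : a = a' ∧ r = r' := by
  induction a generalizing a' r r' with
  | nil =>
    have : a' = [] := List.length_eq_zero_iff.1 hl.symm
    subst this
    rw [pos_nil, pos_nil] at h
    exact ⟨rfl, h⟩
  | cons c a ih =>
    rcases a' with _ | ⟨c', a'⟩
    · simp at hl
    · rw [pos_cons, pos_cons] at h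
      obtain ⟨h1, h2⟩ := ih (by simpa using hl) ha.2 ha'.2 h
      subst h1
      have h3 : c < dg D a := ha.1
      have h4 : c' < dg D a := ha'.1
      have h5 : r = r' := by
        have := congrArg (· / dg D a) h2
        simp only [Nat.mul_add_div (dg_pos hD ha.2), Nat.div_eq_of_lt h3, Nat.div_eq_of_lt h4,
          add_zero] at this
        exact this
      subst h5
      exact ⟨by rw [show c = c' by omega], rfl⟩

lemma exists_pos (k n : ℕ) : ∃ a r, a.length = k ∧ Ad D a ∧ pos D a r = n := by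
  induction k with
  | zero => exact ⟨[], n, rfl, trivial, pos_nil _ _⟩
  | succ k ih =>
    obtain ⟨a, r, h1, h2, h3⟩ := ih
    have h4 := dg_pos hD h2
    refine ⟨(r % dg D a) :: a, r / dg D a, by simp [h1], ⟨Nat.mod_lt _ h4, h2⟩, ?_⟩
    rw [pos_cons, Nat.div_add_mod, h3]

/-- each vertex is the end of a head -/
lemma exists_head (k i : ℕ) (hi : i < m k) : ∃ a, a.length = k ∧ Ad D a ∧ st D a = i := by
  induction k generalizing i with
  | zero =>
    rw [hD.one] at hi
    exact ⟨[], rfl, trivial, by rw [st]; omega⟩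
  | succ k ih =>
    obtain ⟨a, h1, h2, h3⟩ := ih 0 (hD.pos k)
    have h4 := hD.full k 0 (hD.pos k) i hi
    obtain ⟨c, hc, h5⟩ := List.getElem_of_mem h4
    refine ⟨c :: a, by simp [h1], ⟨?_, h2⟩, ?_⟩
    · unfold dg
      rw [h1, h3]
      exact hc
    · rw [st, h1, h3, List.getD_eq_getElem _ _ hc, h5]

end

open Classical in
/-- the admissible heads of length `k` -/
noncomputable def Hd (D : Dg) : ℕ → Finset (List ℕ)
  | 0 => {[]}
  | k + 1 => (Hd D k).biUnion fun a => (Finset.range (dg D a)).image (fun c => c :: a)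

lemma mem_Hd {D : Dg} {k : ℕ} {a : List ℕ} : a ∈ Hd D k ↔ a.length = k ∧ Ad D a := by
  classical
  induction k generalizing a with
  | zero =>
    simp only [Hd, Finset.mem_singleton, List.length_eq_zero_iff]
    constructor
    · rintro rfl
      exact ⟨rfl, trivial⟩
    · exact fun h => h.1
  | succ k ih =>
    simp only [Hd, Finset.mem_biUnion, Finset.mem_image, Finset.mem_range]
    constructor
    · rintro ⟨a', h1, c, h2, rfl⟩
      obtain ⟨h3, h4⟩ := ih.1 h1
      exact ⟨by simp [h3], h2, h4⟩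
    · rintro ⟨h1, h2⟩
      rcases a with _ | ⟨c, a⟩
      · simp at h1
      · exact ⟨a, ih.2 ⟨by simpa using h1, h2.2⟩, c, h2.1, rfl⟩

/-! ### partial bijections -/

open Classical in
/-- the values of `aff` -/
noncomputable def affF (α β α' β' n : ℕ) : Option ℕ :=
  if h : (0 < α ∧ 0 < α') ∧ ∃ r, α * r + β = n then some (α' * h.2.choose + β') else none

lemma mem_affF {α β α' β' n u : ℕ} : u ∈ affF α β α' β' n ↔
    (0 < α ∧ 0 < α') ∧ ∃ r, α * r + β = n ∧ α' * r + β' = u := by
  unfold affF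
  split_ifs with h
  · simp only [Option.mem_def, Option.some.injEq]
    constructor
    · intro h1
      exact ⟨h.1, h.2.choose, h.2.choose_spec, h1⟩
    · rintro ⟨-, r, h1, h2⟩
      have h3 := h.2.choose_spec
      have h4 : h.2.choose = r := by
        have : α * h.2.choose = α * r := by omega
        exact Nat.eq_of_mul_eq_mul_left h.1.1 this
      rw [h4, h2]
  · simp only [Option.mem_def, reduceCtorEq, false_iff]
    rintro ⟨h1, r, h2, -⟩
    exact h ⟨h1, r, h2⟩

/-- the partial bijection `α r + β ↦ α' r + β'` -/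
noncomputable def aff (α β α' β' : ℕ) : ℕ ≃. ℕ where
  toFun := affF α β α' β'
  invFun := affF α' β' α β
  inv := by
    intro w u
    change w ∈ affF α' β' α β u ↔ u ∈ affF α β α' β' w
    rw [mem_affF, mem_affF]
    constructor
    · rintro ⟨h1, r, h2, h3⟩
      exact ⟨⟨h1.2, h1.1⟩, r, h3, h2⟩
    · rintro ⟨h1, r, h2, h3⟩
      exact ⟨⟨h1.2, h1.1⟩, r, h3, h2⟩

lemma mem_aff {α β α' β' n u : ℕ} : u ∈ aff α β α' β' n ↔
    (0 < α ∧ 0 < α') ∧ ∃ r, α * r + β = n ∧ α' * r + β' = u := mem_affF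

lemma aff_symm (α β α' β' : ℕ) : (aff α β α' β').symm = aff α' β' α β := rfl

/-! ### the matrix units -/

universe v

variable {H : Type v} [NormedAddCommGroup H] [InnerProductSpace ℂ H]
  (b : HilbertBasis ℕ ℂ H)

/-- the matrix unit which sends the head `a` to the head `c` -/
noncomputable def E (D : Dg) (a c : List ℕ) : H →L[ℂ] H :=
  op b (aff (al D a) (be D a) (al D c) (be D c))

section

variable {D : Dg} {m : ℕ → ℕ} (hD : Ok D m)

include hD

lemma E_pos {a c : List ℕ} (ha : Ad D a) (hc : Ad D c) (r : ℕ) :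
    E b D a c (b (pos D a r)) = b (pos D c r) := by
  unfold E
  apply op_of_some
  exact mem_aff.2 ⟨⟨al_pos hD ha, al_pos hD hc⟩, r, rfl, rfl⟩

lemma E_zero {a c : List ℕ} {n : ℕ} (h : ∀ r, pos D a r ≠ n) : E b D a c (b n) = 0 := by
  unfold E
  apply op_of_none
  rcases h1 : aff (al D a) (be D a) (al D c) (be D c) n with _ | u
  · rfl
  · obtain ⟨-, r, h2, -⟩ := mem_aff.1 (show u ∈ aff (al D a) (be D a) (al D c) (be D c) n from h1)
    exact absurd h2 (h r)

lemma E_ne {a c a' : List ℕ} (hl : a.length = a'.length) (ha : Ad D a) (ha' : Ad D a')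
    (h : a ≠ a') (r : ℕ) : E b D a c (b (pos D a' r)) = 0 := by
  apply E_zero b hD
  intro r' h'
  exact h (pos_inj hD hl ha ha' h').1

/-- operators which agree on the positions of the heads of length `k` are equal -/
lemma ext_k (k : ℕ) {S T : H →L[ℂ] H}
    (h : ∀ a, a.length = k → Ad D a → ∀ r, S (b (pos D a r)) = T (b (pos D a r))) : S = T := by
  apply op_ext b
  intro n
  obtain ⟨a, r, h1, h2, rfl⟩ := exists_pos hD k n
  exact h a h1 h2 r

lemma E_mul {a c d : List ℕ} (ha : Ad D a) (hc : Ad D c) (hd : Ad D d) :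
    E b D c d * E b D a c = E b D a d := by
  apply ext_k b hD a.length
  intro a' h1 h2 r
  rw [mul_apply_eq_comp]
  by_cases h : a = a'
  · subst h
    rw [E_pos b hD ha hc, E_pos b hD hc hd, E_pos b hD ha hd]
  · rw [E_ne b hD h1.symm ha h2 h, E_ne b hD h1.symm ha h2 h, map_zero]

lemma E_mul_ne {a c c' d : List ℕ} (hl : c'.length = c.length) (ha : Ad D a)
    (hc : Ad D c) (hc' : Ad D c') (h : c' ≠ c) :
    E b D c' d * E b D a c = 0 := by
  apply ext_k b hD a.length
  intro a' h1 h2 r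
  rw [mul_apply_eq_comp, zero_apply]
  by_cases h' : a = a'
  · subst h'
    rw [E_pos b hD ha hc, E_ne b hD hl hc' hc h]
  · rw [E_ne b hD h1.symm ha h2 h', map_zero]

lemma E_succ {a c : List ℕ} (hl : a.length = c.length) (ha : Ad D a) (hc : Ad D c)
    (hs : st D a = st D c) :
    E b D a c = ∑ i ∈ Finset.range (dg D a), E b D (i :: a) (i :: c) := by
  have hdg : dg D a = dg D c := by unfold dg; rw [hl, hs]
  apply ext_k b hD (a.length + 1)
  intro a' h1 h2 r
  rcases a' with _ | ⟨j, a'⟩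
  · simp at h1
  · have h3 : a'.length = a.length := by simpa using h1
    rw [sum_apply]
    by_cases h : a = a'
    · subst h
      have hj : Ad D (j :: c) := ⟨by rw [← hdg]; exact h2.1, hc⟩
      rw [Finset.sum_eq_single j]
      · rw [E_pos b hD h2 hj, pos_cons, E_pos b hD ha hc, pos_cons, hdg]
      · intro i hi hij
        have hi' : Ad D (i :: a) := ⟨Finset.mem_range.1 hi, ha⟩
        exact E_ne b hD (by simp) hi' h2 (fun h4 => hij (List.cons.inj h4).1) r
      · intro hj
        exact absurd (Finset.mem_range.2 h2.1) hj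
    · rw [pos_cons, E_ne b hD h3.symm ha h2.2 h]
      symm
      apply Finset.sum_eq_zero
      intro i hi
      rw [← pos_cons]
      have hi' : Ad D (i :: a) := ⟨Finset.mem_range.1 hi, ha⟩
      exact E_ne b hD (by simp [h3]) hi' h2 (fun h4 => h (List.cons.inj h4).2) r

omit hD in
lemma E_nil : E b D [] [] = 1 := by
  apply op_ext b
  intro n
  unfold E
  rw [op_of_some b (u := n)]
  · rfl
  · exact mem_aff.2 ⟨⟨Nat.one_pos, Nat.one_pos⟩, n, by simp [al, be], by simp [al, be]⟩

end

lemma star_E [CompleteSpace H] (D : Dg) (a c : List ℕ) : star (E b D a c) = E b D c a := by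
  unfold E
  rw [star_op, aff_symm]

/-! ### the algebras of the stages -/

/-- the matrix units of stage `k` -/
def MU (D : Dg) (k : ℕ) : Set (H →L[ℂ] H) :=
  {T | ∃ a c, a.length = k ∧ c.length = k ∧ Ad D a ∧ Ad D c ∧ st D a = st D c ∧ T = E b D a c}

section

variable [CompleteSpace H] {D : Dg} {m : ℕ → ℕ} (hD : Ok D m)

include hD

lemma MU_mul {k : ℕ} {T T' : H →L[ℂ] H} (hT : T ∈ MU b D k) (hT' : T' ∈ MU b D k) :
    T * T' ∈ Submodule.span ℂ (MU b D k) := by
  obtain ⟨a, c, h1, h2, h3, h4, h5, rfl⟩ := hT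
  obtain ⟨a', c', h1', h2', h3', h4', h5', rfl⟩ := hT'
  by_cases h : a = c'
  · subst h
    rw [E_mul b hD h3' h3 h4]
    exact Submodule.subset_span ⟨a', c, h1', h2, h3', h4, h5'.trans h5, rfl⟩
  · rw [E_mul_ne b hD (by omega) h3' h4' h3 h]
    exact zero_mem _

lemma span_mul {k : ℕ} {T T' : H →L[ℂ] H} (hT : T ∈ Submodule.span ℂ (MU b D k))
    (hT' : T' ∈ Submodule.span ℂ (MU b D k)) : T * T' ∈ Submodule.span ℂ (MU b D k) := by
  induction hT using Submodule.span_induction with
  | mem T hT =>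
    induction hT' using Submodule.span_induction with
    | mem T' hT' => exact MU_mul b hD hT hT'
    | zero => rw [mul_zero]; exact zero_mem _
    | add x y _ _ hx hy => rw [mul_add]; exact add_mem hx hy
    | smul c x _ hx => rw [mul_smul_comm]; exact Submodule.smul_mem _ _ hx
  | zero => rw [zero_mul]; exact zero_mem _
  | add x y _ _ hx hy => rw [add_mul]; exact add_mem hx hy
  | smul c x _ hx => rw [smul_mul_assoc]; exact Submodule.smul_mem _ _ hx

omit hD in
lemma span_star {k : ℕ} {T : H →L[ℂ] H} (hT : T ∈ Submodule.span ℂ (MU b D k)) :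
    star T ∈ Submodule.span ℂ (MU b D k) := by
  induction hT using Submodule.span_induction with
  | mem T hT =>
    obtain ⟨a, c, h1, h2, h3, h4, h5, rfl⟩ := hT
    rw [star_E]
    exact Submodule.subset_span ⟨c, a, h2, h1, h4, h3, h5.symm, rfl⟩
  | zero => rw [star_zero]; exact zero_mem _
  | add x y _ _ hx hy => rw [star_add]; exact add_mem hx hy
  | smul c x _ hx => rw [star_smul]; exact Submodule.smul_mem _ _ hx

lemma span_succ {k : ℕ} {T : H →L[ℂ] H} (hT : T ∈ Submodule.span ℂ (MU b D k)) :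
    T ∈ Submodule.span ℂ (MU b D (k + 1)) := by
  induction hT using Submodule.span_induction with
  | mem T hT =>
    obtain ⟨a, c, h1, h2, h3, h4, h5, rfl⟩ := hT
    have hdg : dg D a = dg D c := by unfold dg; rw [h1, h2, h5]
    rw [E_succ b hD (h1.trans h2.symm) h3 h4 h5]
    refine Submodule.sum_mem _ fun i hi => Submodule.subset_span ?_
    have hi' := Finset.mem_range.1 hi
    exact ⟨i :: a, i :: c, by simp [h1], by simp [h2], ⟨hi', h3⟩, ⟨by rw [← hdg]; exact hi', h4⟩,
      by rw [st, st, h1, h2, h5], rfl⟩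
  | zero => exact zero_mem _
  | add x y _ _ hx hy => exact add_mem hx hy
  | smul c x _ hx => exact Submodule.smul_mem _ _ hx

end

/-- the algebra of stage `k` -/
noncomputable def Fk [CompleteSpace H] {D : Dg} {m : ℕ → ℕ} (hD : Ok D m) (k : ℕ) :
    NonUnitalStarSubalgebra ℂ (H →L[ℂ] H) where
  carrier := Submodule.span ℂ (MU b D k)
  mul_mem' := fun hx hy => span_mul b hD hx hy
  add_mem' := fun hx hy => add_mem hx hy
  zero_mem' := zero_mem (Submodule.span ℂ (MU b D k))
  smul_mem' := fun c _ hx => Submodule.smul_mem _ c hx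
  star_mem' := fun hx => span_star b hx

section

variable [CompleteSpace H] {D : Dg} {m : ℕ → ℕ} (hD : Ok D m)

lemma mem_Fk {k : ℕ} {T : H →L[ℂ] H} : T ∈ Fk b hD k ↔ T ∈ Submodule.span ℂ (MU b D k) := Iff.rfl

lemma Fk_mono {k j : ℕ} (h : k ≤ j) : Fk b hD k ≤ Fk b hD j := by
  induction j, h using Nat.le_induction with
  | base => exact le_rfl
  | succ j _ ih => exact ih.trans fun T hT => span_succ b hD hT

lemma E_mem {k : ℕ} {a c : List ℕ} (ha : a ∈ Hd D k) (hc : c ∈ Hd D k) (h : st D a = st D c) :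
    E b D a c ∈ Fk b hD k :=
  Submodule.subset_span ⟨a, c, (mem_Hd.1 ha).1, (mem_Hd.1 hc).1, (mem_Hd.1 ha).2,
    (mem_Hd.1 hc).2, h, rfl⟩

lemma one_mem (k : ℕ) : (1 : H →L[ℂ] H) ∈ Fk b hD k := by
  apply Fk_mono b hD (Nat.zero_le k)
  rw [← E_nil (b := b) (D := D)]
  exact E_mem b hD (mem_Hd.2 ⟨rfl, trivial⟩) (mem_Hd.2 ⟨rfl, trivial⟩) rfl

lemma Fk_finite (k : ℕ) : FiniteDimensional ℂ (Fk b hD k).toSubmodule := by
  have h : (MU b D k).Finite := by
    have : MU b D k ⊆ (fun q : List ℕ × List ℕ => E b D q.1 q.2) ''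
        ((Hd D k : Set (List ℕ)) ×ˢ (Hd D k : Set (List ℕ))) := by
      rintro T ⟨a, c, h1, h2, h3, h4, -, rfl⟩
      exact ⟨(a, c), ⟨mem_Hd.2 ⟨h1, h3⟩, mem_Hd.2 ⟨h2, h4⟩⟩, rfl⟩
    exact (((Hd D k).finite_toSet.prod (Hd D k).finite_toSet).image _).subset this
  have : FiniteDimensional ℂ (Submodule.span ℂ (MU b D k)) :=
    FiniteDimensional.span_of_finite ℂ h
  exact this

lemma Fk_closed (k : ℕ) : IsClosed (Fk b hD k : Set (H →L[ℂ] H)) := by
  have := Fk_finite b hD k
  exact Submodule.closed_of_finiteDimensional (Fk b hD k).toSubmodule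

/-- the matrix coefficient -/
noncomputable def cf (D : Dg) (T : H →L[ℂ] H) (a c : List ℕ) : ℂ :=
  ⟪b (pos D c 0), T (b (pos D a 0))⟫_ℂ

lemma cf_E (hD : Ok D m) {k : ℕ} {a c a' c' : List ℕ} (ha : a ∈ Hd D k) (hc : c ∈ Hd D k)
    (ha' : a' ∈ Hd D k) (hc' : c' ∈ Hd D k) (r s : ℕ) :
    (open Classical in ⟪b (pos D c' s), E b D a c (b (pos D a' r))⟫_ℂ =
      if a' = a ∧ c' = c ∧ s = r then 1 else 0) := by
  classical
  rw [mem_Hd] at ha hc ha' hc'
  by_cases h : a = a'
  · subst h
    rw [E_pos b hD ha.2 hc.2, inner_b]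
    by_cases h1 : c' = c ∧ s = r
    · have h2 : pos D c' s = pos D c r := by rw [h1.1, h1.2]
      rw [if_pos h2, if_pos ⟨rfl, h1⟩]
    · have h2 : ¬ pos D c' s = pos D c r := fun h2 =>
        h1 (pos_inj hD (hc'.1.trans hc.1.symm) hc'.2 hc.2 h2)
      rw [if_neg h2, if_neg (fun h3 => h1 h3.2)]
  · rw [E_ne b hD (ha.1.trans ha'.1.symm) ha.2 ha'.2 h, inner_zero_right, if_neg]
    exact fun h1 => h h1.1.symm

lemma mc {k : ℕ} {T : H →L[ℂ] H} (hT : T ∈ Fk b hD k) {a c : List ℕ} (ha : a ∈ Hd D k)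
    (hc : c ∈ Hd D k) (r s : ℕ) :
    ⟪b (pos D c s), T (b (pos D a r))⟫_ℂ = if s = r then cf b D T a c else 0 := by
  classical
  rw [mem_Fk] at hT
  induction hT using Submodule.span_induction with
  | mem T hT =>
    obtain ⟨a', c', h1, h2, h3, h4, h5, rfl⟩ := hT
    unfold cf
    rw [cf_E b hD (mem_Hd.2 ⟨h1, h3⟩) (mem_Hd.2 ⟨h2, h4⟩) ha hc,
      cf_E b hD (mem_Hd.2 ⟨h1, h3⟩) (mem_Hd.2 ⟨h2, h4⟩) ha hc]
    by_cases hrs : s = r
    · simp [hrs]
    · simp [hrs]
  | zero => simp [cf]
  | add x y _ _ hx hy =>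
    rw [add_apply, inner_add_right, hx, hy]
    unfold cf
    rw [add_apply, inner_add_right]
    split_ifs <;> simp
  | smul z x _ hx =>
    rw [smul_apply, inner_smul_right, hx]
    unfold cf
    rw [smul_apply, inner_smul_right]
    split_ifs <;> simp

lemma mc_st {k : ℕ} {T : H →L[ℂ] H} (hT : T ∈ Fk b hD k) {a c : List ℕ} (ha : a ∈ Hd D k)
    (hc : c ∈ Hd D k) (h : st D a ≠ st D c) : cf b D T a c = 0 := by
  classical
  rw [mem_Fk] at hT
  unfold cf
  induction hT using Submodule.span_induction with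
  | mem T hT =>
    obtain ⟨a', c', h1, h2, h3, h4, h5, rfl⟩ := hT
    rw [cf_E b hD (mem_Hd.2 ⟨h1, h3⟩) (mem_Hd.2 ⟨h2, h4⟩) ha hc, if_neg]
    rintro ⟨rfl, rfl, -⟩
    exact h h5
  | zero => simp
  | add x y _ _ hx hy => rw [add_apply, inner_add_right, hx, hy, add_zero]
  | smul z x _ hx => rw [smul_apply, inner_smul_right, hx, mul_zero]

/-- the expansion of an element of stage `k` -/
lemma expand {k : ℕ} {T : H →L[ℂ] H} (hT : T ∈ Fk b hD k) :
    T = ∑ a ∈ Hd D k, ∑ c ∈ Hd D k, cf b D T a c • E b D a c := by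
  classical
  rw [mem_Fk] at hT
  induction hT using Submodule.span_induction with
  | mem T hT =>
    obtain ⟨a', c', h1, h2, h3, h4, h5, rfl⟩ := hT
    have ha' := mem_Hd.2 ⟨h1, h3⟩
    have hc' := mem_Hd.2 ⟨h2, h4⟩
    rw [Finset.sum_eq_single_of_mem a' ha', Finset.sum_eq_single_of_mem c' hc']
    · unfold cf
      rw [cf_E b hD ha' hc' ha' hc', if_pos ⟨rfl, rfl, rfl⟩, one_smul]
    · intro c hc hne
      unfold cf
      rw [cf_E b hD ha' hc' ha' hc, if_neg (fun h => hne h.2.1), zero_smul]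
    · intro a ha hne
      refine Finset.sum_eq_zero fun c hc => ?_
      unfold cf
      rw [cf_E b hD ha' hc' ha hc, if_neg (fun h => hne h.1), zero_smul]
  | zero => simp [cf]
  | add x y _ _ hx hy =>
    conv_lhs => rw [hx, hy]
    rw [← Finset.sum_add_distrib]
    refine Finset.sum_congr rfl fun a _ => ?_
    rw [← Finset.sum_add_distrib]
    refine Finset.sum_congr rfl fun c _ => ?_
    unfold cf
    rw [add_apply, inner_add_right, add_smul]
  | smul z x _ hx =>
    conv_lhs => rw [hx]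
    rw [Finset.smul_sum]
    refine Finset.sum_congr rfl fun a _ => ?_
    rw [Finset.smul_sum]
    refine Finset.sum_congr rfl fun c _ => ?_
    unfold cf
    rw [smul_apply, inner_smul_right, mul_smul]

/-- the union of the algebras of the stages -/
noncomputable def FU : NonUnitalStarSubalgebra ℂ (H →L[ℂ] H) where
  carrier := ⋃ k, (Fk b hD k : Set (H →L[ℂ] H))
  mul_mem' := by
    intro T T' hT hT'
    obtain ⟨n, hn⟩ := Set.mem_iUnion.1 hT
    obtain ⟨m, hm⟩ := Set.mem_iUnion.1 hT'
    exact Set.mem_iUnion.2 ⟨max n m, mul_mem (Fk_mono b hD (le_max_left n m) hn)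
      (Fk_mono b hD (le_max_right n m) hm)⟩
  add_mem' := by
    intro T T' hT hT'
    obtain ⟨n, hn⟩ := Set.mem_iUnion.1 hT
    obtain ⟨m, hm⟩ := Set.mem_iUnion.1 hT'
    exact Set.mem_iUnion.2 ⟨max n m, add_mem (Fk_mono b hD (le_max_left n m) hn)
      (Fk_mono b hD (le_max_right n m) hm)⟩
  zero_mem' := Set.mem_iUnion.2 ⟨0, zero_mem (Fk b hD 0)⟩
  smul_mem' := by
    intro c T hT
    obtain ⟨n, hn⟩ := Set.mem_iUnion.1 hT
    exact Set.mem_iUnion.2 ⟨n, SMulMemClass.smul_mem (s := Fk b hD n) c hn⟩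
  star_mem' := by
    intro T hT
    obtain ⟨n, hn⟩ := Set.mem_iUnion.1 hT
    exact Set.mem_iUnion.2 ⟨n, star_mem (s := Fk b hD n) hn⟩

lemma mem_FU {T : H →L[ℂ] H} : T ∈ FU b hD ↔ ∃ k, T ∈ Fk b hD k := Set.mem_iUnion

/-- the AF algebra of the diagram -/
noncomputable def AD : NonUnitalStarSubalgebra ℂ (H →L[ℂ] H) := (FU b hD).topologicalClosure

lemma AD_coe : (AD b hD : Set (H →L[ℂ] H)) = closure (⋃ k, (Fk b hD k : Set (H →L[ℂ] H))) := rfl

lemma Fk_le_AD (k : ℕ) : Fk b hD k ≤ AD b hD := fun T hT =>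
  NonUnitalStarSubalgebra.le_topologicalClosure _ ((mem_FU b hD).2 ⟨k, hT⟩)

lemma AD_closed : IsClosed (AD b hD : Set (H →L[ℂ] H)) :=
  NonUnitalStarSubalgebra.isClosed_topologicalClosure _

end

end Pool.Agent.J6H74.SAF
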