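import Pool.Agent.J6H74.SAF.Path

/-!
# Ranks of projections on finite sets of basis vectors

Adapted from `Pool/Agent/TH723/AF/Rank.lean`.
-/

set_option autoImplicit false

open scoped InnerProductSpace

namespace Pool.Agent.J6H74.SAF

open Pool.Agent.TH723.AF (op op_ext vec_ext inner_b norm_b op_apply op_of_some op_of_none inner_op
  op_mul star_op inner_op_symm)

universe u v

variable {H : Type v} [NormedAddCommGroup H] [InnerProductSpace ℂ H] [CompleteSpace H]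

/-- projections -/
structure Pj (p : H →L[ℂ] H) : Prop where
  mul : p * p = p
  st : star p = p

lemma Pj.inner {p : H →L[ℂ] H} (h : Pj p) (x y : H) : ⟪p x, y⟫_ℂ = ⟪x, p y⟫_ℂ := by
  have := ContinuousLinearMap.adjoint_inner_right p x y
  rw [← ContinuousLinearMap.star_eq_adjoint, h.st] at this
  exact this.symm

lemma Pj.app {p : H →L[ℂ] H} (h : Pj p) (x : H) : p (p x) = p x := by
  conv_rhs => rw [← h.mul]
  rfl

lemma Pj.normsq {p : H →L[ℂ] H} (h : Pj p) (x : H) : RCLike.re ⟪p x, x⟫_ℂ = ‖p x‖ ^ 2 := by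
  rw [← inner_self_eq_norm_sq (𝕜 := ℂ) (p x), ← h.inner (p x) x, h.app]

lemma Pj.norm_le {p : H →L[ℂ] H} (h : Pj p) (x : H) : ‖p x‖ ≤ ‖x‖ := by
  have h1 := h.normsq x
  have h2 : RCLike.re ⟪p x, x⟫_ℂ ≤ ‖p x‖ * ‖x‖ := re_inner_le_norm _ _
  by_contra h3
  push Not at h3
  nlinarith [norm_nonneg x, norm_nonneg (p x)]

lemma Pj.norm_le_one {p : H →L[ℂ] H} (h : Pj p) : ‖p‖ ≤ 1 :=
  ContinuousLinearMap.opNorm_le_bound _ zero_le_one fun x => by rw [one_mul]; exact h.norm_le x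

variable {ι : Type u} (b : HilbertBasis ι ℂ H)

/-- the projection onto the span of the basis vectors with index in `S` -/
noncomputable def PB (S : Finset ι) : H →L[ℂ] H :=
  op b (open Classical in PEquiv.ofSet (S : Set ι))

lemma PB_of_mem {S : Finset ι} {w : ι} (h : w ∈ S) : PB b S (b w) = b w := by
  classical
  unfold PB
  apply op_of_some
  rw [PEquiv.ofSet_eq_some_self_iff]
  exact h

lemma PB_of_notMem {S : Finset ι} {w : ι} (h : w ∉ S) : PB b S (b w) = 0 := by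
  classical
  unfold PB
  apply op_of_none
  exact if_neg h

lemma PB_inner (S : Finset ι) (x y : H) : ⟪PB b S x, y⟫_ℂ = ⟪x, PB b S y⟫_ℂ := by
  classical
  unfold PB
  rw [inner_op_symm, PEquiv.ofSet_symm]

/-- operators which commute with `PB S` -/
def Cm (S : Finset ι) (T : H →L[ℂ] H) : Prop := ∀ x, T (PB b S x) = PB b S (T x)

variable {b}

lemma Cm.star {S : Finset ι} {T : H →L[ℂ] H} (h : Cm b S T) : Cm b S (star T) := by
  intro x
  apply ext_inner_left ℂ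
  intro y
  rw [← PB_inner, ContinuousLinearMap.star_eq_adjoint, ContinuousLinearMap.adjoint_inner_right,
    ContinuousLinearMap.adjoint_inner_right, h, PB_inner]

variable (b)

/-- the range of the projection `p` in the span of the basis vectors with index in `S` -/
def U (S : Finset ι) (p : H →L[ℂ] H) : Submodule ℂ H where
  carrier := {x | PB b S x = x ∧ p x = x}
  add_mem' := by
    rintro x y ⟨h1, h2⟩ ⟨h3, h4⟩
    exact ⟨by rw [map_add, h1, h3], by rw [map_add, h2, h4]⟩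
  zero_mem' := ⟨map_zero _, map_zero _⟩
  smul_mem' := by
    rintro c x ⟨h1, h2⟩
    exact ⟨by rw [map_smul, h1], by rw [map_smul, h2]⟩

/-- the rank of `p` on `S` -/
noncomputable def rank (S : Finset ι) (p : H →L[ℂ] H) : ℕ := Module.finrank ℂ (U b S p)

variable {b}

lemma mem_U {S : Finset ι} {p : H →L[ℂ] H} {x : H} : x ∈ U b S p ↔ PB b S x = x ∧ p x = x :=
  Iff.rfl

variable {S : Finset ι} {p : H →L[ℂ] H}

lemma U_coef {x : H} (hx : x ∈ U b S p) {w : ι} (h : ⟪b w, x⟫_ℂ ≠ 0) : w ∈ S := by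
  by_contra h2
  rw [← hx.1, ← PB_inner, PB_of_notMem b h2, inner_zero_left] at h
  exact h rfl

variable (b S p) in
lemma U_finite : FiniteDimensional ℂ (U b S p) := by
  let φ : U b S p →ₗ[ℂ] (S → ℂ) :=
    { toFun := fun x w => ⟪b w.1, x.1⟫_ℂ
      map_add' := by
        intro x y
        funext w
        exact inner_add_right _ _ _
      map_smul' := by
        intro c x
        funext w
        exact inner_smul_right _ _ _ }
  apply FiniteDimensional.of_injective φ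
  intro x y h
  apply Subtype.ext
  apply vec_ext b
  intro w
  by_cases hw : w ∈ S
  · exact congrFun h ⟨w, hw⟩
  · have h1 : ⟪b w, x.1⟫_ℂ = 0 := by
      by_contra h1
      exact hw (U_coef x.2 h1)
    have h2 : ⟪b w, y.1⟫_ℂ = 0 := by
      by_contra h2
      exact hw (U_coef y.2 h2)
    rw [h1, h2]

lemma app_mem_U (hp : Cm b S p) (hpj : Pj p) {w : ι} (hw : w ∈ S) :
    p (b w) ∈ U b S p := by
  refine ⟨?_, hpj.app _⟩
  rw [← hp, PB_of_mem b hw]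

lemma rank_eq_complex (hp : Cm b S p) (hpj : Pj p) :
    (rank b S p : ℂ) = ∑ w ∈ S, ⟪b w, p (b w)⟫_ℂ := by
  classical
  have hfd := U_finite b S p
  let u := stdOrthonormalBasis ℂ (U b S p)
  have h1 : ∀ w ∈ S,
      ⟪b w, p (b w)⟫_ℂ = ∑ i, ⟪(u i : H), b w⟫_ℂ * ⟪b w, (u i : H)⟫_ℂ := by
    intro w hw
    have h2 := congrArg (fun x : U b S p => (x : H))
      (u.sum_repr' ⟨p (b w), app_mem_U hp hpj hw⟩)
    simp only [Submodule.coe_sum, Submodule.coe_smul, Submodule.coe_inner] at h2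
    conv_lhs => rw [← h2]
    rw [inner_sum]
    refine Finset.sum_congr rfl fun i _ => ?_
    rw [inner_smul_right]
    congr 1
    rw [← hpj.inner, (u i).2.2]
  rw [Finset.sum_congr rfl h1, Finset.sum_comm]
  have h3 : ∀ i, ∑ w ∈ S, ⟪(u i : H), b w⟫_ℂ * ⟪b w, (u i : H)⟫_ℂ = 1 := by
    intro i
    have h4 := b.hasSum_inner_mul_inner (u i : H) (u i : H)
    have h5 : ∀ w, w ∉ S → ⟪(u i : H), b w⟫_ℂ * ⟪b w, (u i : H)⟫_ℂ = 0 := by
      intro w hw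
      have : ⟪b w, (u i : H)⟫_ℂ = 0 := by
        by_contra h6
        exact hw (U_coef (u i).2 h6)
      rw [this, mul_zero]
    have h6 : HasSum (fun w => ⟪(u i : H), b w⟫_ℂ * ⟪b w, (u i : H)⟫_ℂ)
        (∑ w ∈ S, ⟪(u i : H), b w⟫_ℂ * ⟪b w, (u i : H)⟫_ℂ) := hasSum_sum_of_ne_finset_zero h5
    rw [h6.unique h4, ← Submodule.coe_inner]
    have := u.orthonormal.1 i
    rw [inner_self_eq_norm_sq_to_K, this]
    simp
  rw [Finset.sum_congr rfl fun i _ => h3 i]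
  rw [Finset.sum_const, Finset.card_univ, Fintype.card_fin, nsmul_eq_mul, mul_one]
  rfl

lemma rank_eq (hp : Cm b S p) (hpj : Pj p) : (rank b S p : ℝ) = ∑ w ∈ S, ‖p (b w)‖ ^ 2 := by
  have h := congrArg RCLike.re (rank_eq_complex hp hpj)
  rw [map_sum] at h
  have h2 : RCLike.re ((rank b S p : ℂ)) = (rank b S p : ℝ) := by simp
  rw [h2] at h
  rw [h]
  refine Finset.sum_congr rfl fun w _ => ?_
  rw [← hpj.inner, hpj.normsq]

/-! ### comparison -/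

lemma abs_re_inner_le {T : H →L[ℂ] H} {δ : ℝ} (h : ‖T‖ ≤ δ) (x : H) :
    |RCLike.re ⟪T x, x⟫_ℂ| ≤ δ * ‖x‖ ^ 2 := by
  have h1 : |RCLike.re ⟪T x, x⟫_ℂ| ≤ ‖T x‖ * ‖x‖ :=
    (RCLike.abs_re_le_norm _).trans (norm_inner_le_norm _ _)
  have h2 : ‖T x‖ ≤ δ * ‖x‖ := (T.le_opNorm x).trans (by gcongr)
  calc |RCLike.re ⟪T x, x⟫_ℂ| ≤ ‖T x‖ * ‖x‖ := h1
    _ ≤ (δ * ‖x‖) * ‖x‖ := by gcongr
    _ = δ * ‖x‖ ^ 2 := by ring

lemma rank_le {q w : H →L[ℂ] H} (_hp : Cm b S p) (_hpj : Pj p)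
    (hq : Cm b S q) (hqj : Pj q) (hw : Cm b S w) {δ : ℝ} (hδ : δ < 1 / 2)
    (h1 : ‖star w * w - p‖ ≤ δ) (h2 : ‖w * star w - q‖ ≤ δ) :
    rank b S p ≤ rank b S q := by
  have hfd := U_finite b S q
  let φ : U b S p →ₗ[ℂ] U b S q :=
    { toFun := fun x => ⟨q (w x.1), by
        refine ⟨?_, hqj.app _⟩
        rw [← hq, ← hw, x.2.1]⟩
      map_add' := by
        intro x y
        apply Subtype.ext
        change q (w (x.1 + y.1)) = q (w x.1) + q (w y.1)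
        rw [map_add, map_add]
      map_smul' := by
        intro c x
        apply Subtype.ext
        change q (w (c • x.1)) = c • q (w x.1)
        rw [map_smul, map_smul] }
  apply LinearMap.finrank_le_finrank_of_injective (f := φ)
  rw [← LinearMap.ker_eq_bot, LinearMap.ker_eq_bot']
  intro x hx
  apply Subtype.ext
  have hx' : q (w x.1) = 0 := congrArg Subtype.val hx
  change x.1 = 0
  set x' := x.1 with hx0
  have hpx : p x' = x' := x.2.2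
  set y := w x' with hy
  have e1 : ‖y‖ ^ 2 = RCLike.re ⟪(star w * w) x', x'⟫_ℂ := by
    rw [mul_apply_eq_comp, ContinuousLinearMap.star_eq_adjoint,
      ContinuousLinearMap.adjoint_inner_left, inner_self_eq_norm_sq]
  have e2 : RCLike.re ⟪(star w * w) x', x'⟫_ℂ =
      RCLike.re ⟪(star w * w - p) x', x'⟫_ℂ + ‖x'‖ ^ 2 := by
    rw [sub_apply, inner_sub_left, map_sub, hpx, inner_self_eq_norm_sq]
    ring
  have e3 := abs_re_inner_le h1 x'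
  have e4 : ‖star w y‖ ^ 2 = RCLike.re ⟪(w * star w) y, y⟫_ℂ := by
    rw [mul_apply_eq_comp, ← ContinuousLinearMap.adjoint_inner_right,
      ← ContinuousLinearMap.star_eq_adjoint, inner_self_eq_norm_sq]
  have e5 : RCLike.re ⟪(w * star w) y, y⟫_ℂ = RCLike.re ⟪(w * star w - q) y, y⟫_ℂ := by
    rw [sub_apply, inner_sub_left, map_sub, hx', inner_zero_left]
    simp
  have e6 := abs_re_inner_le h2 y
  have e7 : ‖y‖ ^ 2 ≤ ‖x'‖ * ‖star w y‖ := by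
    have : RCLike.re ⟪x', star w y⟫_ℂ = ‖y‖ ^ 2 := by
      rw [ContinuousLinearMap.star_eq_adjoint, ContinuousLinearMap.adjoint_inner_right,
        inner_self_eq_norm_sq]
    rw [← this]
    exact re_inner_le_norm _ _
  have e8 : ‖star w y‖ ^ 2 ≤ δ * ‖y‖ ^ 2 := by
    rw [e4, e5]
    exact (le_abs_self _).trans e6
  have e9 : (1 - δ) * ‖x'‖ ^ 2 ≤ ‖y‖ ^ 2 := by
    have := (abs_le.1 e3).1
    rw [e1, e2]
    linarith
  -- ‖y‖⁴ ≤ ‖x‖² δ ‖y‖²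
  have e10 : ‖y‖ ^ 2 * ‖y‖ ^ 2 ≤ ‖x'‖ ^ 2 * (δ * ‖y‖ ^ 2) := by
    calc ‖y‖ ^ 2 * ‖y‖ ^ 2 ≤ (‖x'‖ * ‖star w y‖) * (‖x'‖ * ‖star w y‖) := by
          apply mul_le_mul e7 e7 (by positivity) (by positivity)
      _ = ‖x'‖ ^ 2 * ‖star w y‖ ^ 2 := by ring
      _ ≤ ‖x'‖ ^ 2 * (δ * ‖y‖ ^ 2) := by gcongr
  by_contra hne
  have hpos : 0 < ‖x'‖ ^ 2 := by
    have := norm_pos_iff.2 hne
    positivity
  have hy0 : 0 < ‖y‖ ^ 2 := by nlinarith
  have e11 : ‖y‖ ^ 2 ≤ ‖x'‖ ^ 2 * δ := by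
    by_contra h
    push Not at h
    nlinarith
  nlinarith

lemma rank_congr {q w : H →L[ℂ] H} (hp : Cm b S p) (hpj : Pj p)
    (hq : Cm b S q) (hqj : Pj q) (hw : Cm b S w) {δ : ℝ} (hδ : δ < 1 / 2)
    (h1 : ‖star w * w - p‖ ≤ δ) (h2 : ‖w * star w - q‖ ≤ δ) :
    rank b S p = rank b S q := by
  refine le_antisymm (rank_le hp hpj hq hqj hw hδ h1 h2) ?_
  refine rank_le hq hqj hp hpj hw.star hδ ?_ ?_
  · rw [star_star]
    exact h2
  · rw [star_star]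
    exact h1

lemma rank_add_le {p₁ p₂ : H →L[ℂ] H} (hp : Cm b S p) (hpj : Pj p)
    (hp₁ : Cm b S p₁) (hpj₁ : Pj p₁) (hp₂ : Cm b S p₂) (hpj₂ : Pj p₂)
    (h : ‖p₁ + p₂ - p‖ ≤ 1 / 4) : rank b S p₁ + rank b S p₂ ≤ rank b S p := by
  have hfd := U_finite b S p
  have hfd₁ := U_finite b S p₁
  have hfd₂ := U_finite b S p₂
  let φ : U b S p₁ × U b S p₂ →ₗ[ℂ] U b S p :=
    { toFun := fun x => ⟨p (x.1.1 + x.2.1), by
        refine ⟨?_, hpj.app _⟩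
        rw [← hp, map_add, x.1.2.1, x.2.2.1]⟩
      map_add' := by
        intro x y
        apply Subtype.ext
        change p ((x.1.1 + y.1.1) + (x.2.1 + y.2.1)) = p (x.1.1 + x.2.1) + p (y.1.1 + y.2.1)
        rw [← map_add]
        congr 1
        abel
      map_smul' := by
        intro c x
        apply Subtype.ext
        change p (c • x.1.1 + c • x.2.1) = c • p (x.1.1 + x.2.1)
        rw [← smul_add, map_smul] }
  have h0 : rank b S p₁ + rank b S p₂ = Module.finrank ℂ (U b S p₁ × U b S p₂) :=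
    Module.finrank_prod.symm
  rw [h0]
  apply LinearMap.finrank_le_finrank_of_injective (f := φ)
  rw [← LinearMap.ker_eq_bot, LinearMap.ker_eq_bot']
  rintro ⟨⟨x, hx⟩, ⟨y, hy⟩⟩ hxy
  have hxy' : p (x + y) = 0 := congrArg Subtype.val hxy
  have hx1 : p₁ x = x := hx.2
  have hy1 : p₂ y = y := hy.2
  set zz := x + y with hzz
  -- first estimate
  have e1 : ‖p₁ zz‖ ^ 2 + ‖p₂ zz‖ ^ 2 ≤ 1 / 4 * ‖zz‖ ^ 2 := by
    have h1 := abs_re_inner_le h zz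
    have h2 : RCLike.re ⟪(p₁ + p₂ - p) zz, zz⟫_ℂ = ‖p₁ zz‖ ^ 2 + ‖p₂ zz‖ ^ 2 := by
      rw [sub_apply, add_apply, inner_sub_left, inner_add_left, map_sub, map_add, hpj₁.normsq,
        hpj₂.normsq, hxy', inner_zero_left]
      simp
    rw [← h2]
    exact (le_abs_self _).trans h1
  have e2 : ‖zz‖ ^ 2 ≤ ‖p₁ zz‖ * ‖x‖ + ‖p₂ zz‖ * ‖y‖ := by
    have h1 : ‖zz‖ ^ 2 = RCLike.re ⟪zz, x⟫_ℂ + RCLike.re ⟪zz, y⟫_ℂ := by
      rw [← map_add, ← inner_add_right, inner_self_eq_norm_sq]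
    have h2 : RCLike.re ⟪zz, x⟫_ℂ ≤ ‖p₁ zz‖ * ‖x‖ := by
      conv_lhs => rw [← hx1, ← hpj₁.inner]
      exact re_inner_le_norm _ _
    have h3 : RCLike.re ⟪zz, y⟫_ℂ ≤ ‖p₂ zz‖ * ‖y‖ := by
      conv_lhs => rw [← hy1, ← hpj₂.inner]
      exact re_inner_le_norm _ _
    rw [h1]
    exact add_le_add h2 h3
  have e3 : ‖zz‖ ^ 2 * ‖zz‖ ^ 2 ≤ 1 / 4 * ‖zz‖ ^ 2 * (‖x‖ ^ 2 + ‖y‖ ^ 2) := by
    have h1 : (‖p₁ zz‖ * ‖x‖ + ‖p₂ zz‖ * ‖y‖) ^ 2 ≤
        (‖p₁ zz‖ ^ 2 + ‖p₂ zz‖ ^ 2) * (‖x‖ ^ 2 + ‖y‖ ^ 2) := by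
      nlinarith [sq_nonneg (‖p₁ zz‖ * ‖y‖ - ‖p₂ zz‖ * ‖x‖)]
    calc ‖zz‖ ^ 2 * ‖zz‖ ^ 2 ≤ (‖p₁ zz‖ * ‖x‖ + ‖p₂ zz‖ * ‖y‖) ^ 2 := by
          rw [pow_two (‖p₁ zz‖ * ‖x‖ + ‖p₂ zz‖ * ‖y‖)]
          exact mul_le_mul e2 e2 (by positivity) (by positivity)
      _ ≤ _ := h1
      _ ≤ _ := by gcongr
  have e4 : ‖zz‖ ^ 2 ≤ 1 / 4 * (‖x‖ ^ 2 + ‖y‖ ^ 2) := by
    by_contra h1
    push Not at h1
    have h2 : 0 < ‖zz‖ ^ 2 := lt_of_le_of_lt (by positivity) h1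
    nlinarith
  -- second estimate
  have e5 : ‖p₂ x‖ ^ 2 ≤ 1 / 4 * ‖x‖ ^ 2 := by
    have h1 := abs_re_inner_le h x
    have h2 : RCLike.re ⟪(p₁ + p₂ - p) x, x⟫_ℂ = ‖x‖ ^ 2 + ‖p₂ x‖ ^ 2 - ‖p x‖ ^ 2 := by
      rw [sub_apply, add_apply, inner_sub_left, inner_add_left, map_sub, map_add, hpj₁.normsq,
        hpj₂.normsq, hpj.normsq, hx1]
    have h3 := hpj.norm_le x
    have h4 := (le_abs_self _).trans h1
    rw [h2] at h4
    nlinarith [norm_nonneg (p x), norm_nonneg x]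
  have e6 : ‖p₂ x‖ ≤ 1 / 2 * ‖x‖ := by
    nlinarith [norm_nonneg (p₂ x), norm_nonneg x]
  have e7 : -(1 / 2 * (‖x‖ * ‖y‖)) ≤ RCLike.re ⟪x, y⟫_ℂ := by
    have h1 : |RCLike.re ⟪x, y⟫_ℂ| ≤ ‖p₂ x‖ * ‖y‖ := by
      conv_lhs => rw [← hy1, ← hpj₂.inner]
      exact (RCLike.abs_re_le_norm _).trans (norm_inner_le_norm _ _)
    have h2 := (abs_le.1 h1).1
    nlinarith [norm_nonneg y]
  have e8 : ‖zz‖ ^ 2 = ‖x‖ ^ 2 + 2 * RCLike.re ⟪x, y⟫_ℂ + ‖y‖ ^ 2 := norm_add_sq x y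
  have e9 : ‖x‖ ^ 2 + ‖y‖ ^ 2 ≤ 0 := by
    nlinarith [sq_nonneg (‖x‖ - ‖y‖)]
  have e10 : x = 0 := by
    have : ‖x‖ ^ 2 = 0 := by nlinarith [sq_nonneg ‖x‖, sq_nonneg ‖y‖]
    exact norm_eq_zero.1 (pow_eq_zero_iff two_ne_zero |>.1 this)
  have e11 : y = 0 := by
    have : ‖y‖ ^ 2 = 0 := by nlinarith [sq_nonneg ‖x‖, sq_nonneg ‖y‖]
    exact norm_eq_zero.1 (pow_eq_zero_iff two_ne_zero |>.1 this)
  subst e10
  subst e11
  rfl

lemma le_rank_add {p₁ p₂ : H →L[ℂ] H} (_hp : Cm b S p)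
    (hp₁ : Cm b S p₁) (hpj₁ : Pj p₁) (hp₂ : Cm b S p₂) (hpj₂ : Pj p₂)
    (h : ‖p₁ + p₂ - p‖ ≤ 1 / 4) : rank b S p ≤ rank b S p₁ + rank b S p₂ := by
  have hfd₁ := U_finite b S p₁
  have hfd₂ := U_finite b S p₂
  let φ : U b S p →ₗ[ℂ] U b S p₁ × U b S p₂ :=
    { toFun := fun x => ⟨⟨p₁ x.1, by
        refine ⟨?_, hpj₁.app _⟩
        rw [← hp₁, x.2.1]⟩, ⟨p₂ x.1, by
        refine ⟨?_, hpj₂.app _⟩
        rw [← hp₂, x.2.1]⟩⟩
      map_add' := by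
        intro x y
        refine Prod.ext (Subtype.ext ?_) (Subtype.ext ?_)
        · exact map_add p₁ x.1 y.1
        · exact map_add p₂ x.1 y.1
      map_smul' := by
        intro c x
        refine Prod.ext (Subtype.ext ?_) (Subtype.ext ?_)
        · exact map_smul p₁ c x.1
        · exact map_smul p₂ c x.1 }
  have h0 : rank b S p₁ + rank b S p₂ = Module.finrank ℂ (U b S p₁ × U b S p₂) :=
    Module.finrank_prod.symm
  rw [h0]
  apply LinearMap.finrank_le_finrank_of_injective (f := φ)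
  rw [← LinearMap.ker_eq_bot, LinearMap.ker_eq_bot']
  intro x hx
  apply Subtype.ext
  have h1 : p₁ x.1 = 0 := congrArg (fun q => q.1.1) hx
  have h2 : p₂ x.1 = 0 := congrArg (fun q => q.2.1) hx
  have h3 : (p₁ + p₂ - p) x.1 = -x.1 := by
    rw [sub_apply, add_apply, h1, h2, x.2.2]
    simp
  have h4 := (p₁ + p₂ - p).le_opNorm x.1
  rw [h3, norm_neg] at h4
  have h5 : ‖x.1‖ ≤ 1 / 4 * ‖x.1‖ := h4.trans (by gcongr)
  have h6 : ‖x.1‖ = 0 := by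
    have := norm_nonneg x.1
    linarith
  exact norm_eq_zero.1 h6

lemma rank_add {p₁ p₂ : H →L[ℂ] H} (hp : Cm b S p) (hpj : Pj p)
    (hp₁ : Cm b S p₁) (hpj₁ : Pj p₁) (hp₂ : Cm b S p₂) (hpj₂ : Pj p₂)
    (h : ‖p₁ + p₂ - p‖ ≤ 1 / 4) : rank b S p = rank b S p₁ + rank b S p₂ :=
  le_antisymm (le_rank_add hp hp₁ hpj₁ hp₂ hpj₂ h)
    (rank_add_le hp hpj hp₁ hpj₁ hp₂ hpj₂ h)

end Pool.Agent.J6H74.SAF
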