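import Pool.Agent.J6H74.SAF.Grp
import Pool.Agent.J6H74.SAF.CK

/-!
# The diagram of a labelled tree
-/

set_option autoImplicit false

namespace Pool.Agent.J6H74.SAF

open Pool.Agent.H579R3.Epi (K)

/-! ### linear maps from vectors -/

section

universe u w

variable {V : Type u} [AddCommGroup V] [Module ℚ V] {X : Type w} [AddCommGroup X] [Module ℚ X]

/-- `x` has the coordinates `n` in stage `k` -/
def comb (m : ℕ → ℕ) (v : ℕ → ℕ → V) (k : ℕ) (n : ℕ → ℚ) : V :=
  ∑ j ∈ Finset.range (m k), n j • v k j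

/-- the coordinates in the next stage -/
def nxt (D : Dg) (m : ℕ → ℕ) (k : ℕ) (n : ℕ → ℚ) (j' : ℕ) : ℚ :=
  ∑ j ∈ Finset.range (m k), n j * (D k j).count j'

lemma comb_nxt {D : Dg} {m : ℕ → ℕ} (hD : Ok D m) {v : ℕ → ℕ → V}
    (hv : ∀ k i, i < m k → v k i = ((D k i).map (v (k + 1))).sum) (k : ℕ) (n : ℕ → ℚ) :
    comb m v (k + 1) (nxt D m k n) = comb m v k n := by
  unfold comb nxt
  have h1 : ∀ j ∈ Finset.range (m k), n j • v k j =
      ∑ j' ∈ Finset.range (m (k + 1)), (n j * (D k j).count j') • v (k + 1) j' := by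
    intro j hj
    rw [Finset.mem_range] at hj
    rw [hv k j hj, sum_map_count _ _ (hD.lt k j hj), Finset.smul_sum]
    refine Finset.sum_congr rfl fun j' _ => ?_
    rw [mul_smul, Nat.cast_smul_eq_nsmul]
  rw [Finset.sum_congr rfl h1, Finset.sum_comm]
  refine Finset.sum_congr rfl fun j' _ => ?_
  rw [Finset.sum_smul]

variable {D : Dg} {m : ℕ → ℕ} (hD : Ok D m) {τ : V →ₗ[ℚ] ℚ} {v : ℕ → ℕ → V} (hv : Vc D m τ v)
  {x : ℕ → ℕ → X} (hx : ∀ k i, i < m k → x k i = ((D k i).map (x (k + 1))).sum)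

include hD hv hx

lemma comb_lift {k k' : ℕ} (h : k ≤ k') (n : ℕ → ℚ) :
    ∃ n' : ℕ → ℚ, comb m v k n = comb m v k' n' ∧ comb m x k n = comb m x k' n' := by
  induction k', h using Nat.le_induction with
  | base => exact ⟨n, rfl, rfl⟩
  | succ k' _ ih =>
    obtain ⟨n', h1, h2⟩ := ih
    exact ⟨nxt D m k' n', h1.trans (comb_nxt hD hv.rel k' n').symm,
      h2.trans (comb_nxt hD hx k' n').symm⟩

lemma comb_unique {k k' : ℕ} {n n' : ℕ → ℚ} (h : comb m v k n = comb m v k' n') :
    comb m x k n = comb m x k' n' := by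
  obtain ⟨a, h1, h2⟩ := comb_lift hD hv hx (le_max_left k k') n
  obtain ⟨c, h3, h4⟩ := comb_lift hD hv hx (le_max_right k k') n'
  rw [h2, h4]
  rw [h1, h3] at h
  unfold comb at h ⊢
  have h5 := Fintype.linearIndependent_iff.1 (hv.li (max k k')) (fun i => a i - c i) (by
    simp only [sub_smul, Finset.sum_sub_distrib]
    rw [Fin.sum_univ_eq_sum_range (fun i => a i • v (max k k') i),
      Fin.sum_univ_eq_sum_range (fun i => c i • v (max k k') i), sub_eq_zero]
    exact h)
  refine Finset.sum_congr rfl fun j hj => ?_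
  rw [sub_eq_zero.1 (h5 ⟨j, Finset.mem_range.1 hj⟩)]

/-- vectors with the relations of the diagram give a linear map -/
theorem exists_linear (hspan : ∀ z : V, ∃ k n, z = comb m v k n) :
    ∃ α : V →ₗ[ℚ] X, ∀ k n, α (comb m v k n) = comb m x k n := by
  choose κ ν hκ using hspan
  let f : V → X := fun z => comb m x (κ z) (ν z)
  have hf : ∀ z k n, z = comb m v k n → f z = comb m x k n := by
    intro z k n h
    exact comb_unique hD hv hx ((hκ z).symm.trans h)
  refine ⟨{ toFun := f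
            map_add' := ?_
            map_smul' := ?_ }, ?_⟩
  · intro z z'
    obtain ⟨n₁, h1, h2⟩ := comb_lift hD hv hx (le_max_left (κ z) (κ z')) (ν z)
    obtain ⟨n₂, h3, h4⟩ := comb_lift hD hv hx (le_max_right (κ z) (κ z')) (ν z')
    have e1 : z + z' = comb m v (max (κ z) (κ z')) (fun j => n₁ j + n₂ j) := by
      conv_lhs => rw [hκ z, hκ z', h1, h3]
      unfold comb
      rw [← Finset.sum_add_distrib]
      exact Finset.sum_congr rfl fun j _ => (add_smul _ _ _).symm
    rw [hf _ _ _ e1, hf z _ _ ((hκ z).trans h1), hf z' _ _ ((hκ z').trans h3)]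
    unfold comb
    rw [← Finset.sum_add_distrib]
    exact Finset.sum_congr rfl fun j _ => add_smul _ _ _
  · intro c z
    have e1 : c • z = comb m v (κ z) (fun j => c * ν z j) := by
      conv_lhs => rw [hκ z]
      unfold comb
      rw [Finset.smul_sum]
      exact Finset.sum_congr rfl fun j _ => (mul_smul _ _ _).symm
    rw [hf _ _ _ e1, hf z _ _ (hκ z), RingHom.id_apply]
    unfold comb
    rw [Finset.smul_sum]
    exact Finset.sum_congr rfl fun j _ => mul_smul _ _ _
  · intro k n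
    exact hf _ k n rfl

end

/-! ### the stages -/

/-- good lists of vectors -/
def Gd (B : List VV) : Prop := 0 < B.length ∧ (∀ x ∈ B, 0 < tau x) ∧
  LinearIndependent ℚ (fun i : Fin B.length => B.getD i 0)

open Classical in
/-- the next stage -/
noncomputable def nB (B : List VV) (g : VV) : List VV :=
  if h : (∀ x ∈ B, 0 < tau x) ∧ 0 < tau g then (next_exists tau B g h.1 h.2).choose else B

/-- `l` is the list of the coordinates of `x` with respect to `B'` -/
def IsL (B' : List VV) (x : VV) (l : List ℕ) : Prop :=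
  (∀ j ∈ l, j < B'.length) ∧ (∀ j < B'.length, j ∈ l) ∧ (l.map fun j => B'.getD j 0).sum = x

open Classical in
/-- the list of the coordinates of `x` with respect to `B'` -/
noncomputable def ls (B' : List VV) (x : VV) : List ℕ :=
  if h : ∃ l, IsL B' x l then h.choose else []

lemma ls_spec {B' : List VV} {x : VV} (h : ∃ l, IsL B' x l) : IsL B' x (ls B' x) := by
  unfold ls
  rw [dif_pos h]
  exact h.choose_spec

lemma nB_spec {B : List VV} {g : VV} (hB : Gd B) (hg : 0 < tau g) :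
    Gd (nB B g) ∧ (∀ x ∈ nB B g, x ∈ Dy (insert g {x | x ∈ B})) ∧
      ∀ x ∈ g :: B, IsL (nB B g) x (ls (nB B g) x) := by
  have h : (∀ x ∈ B, 0 < tau x) ∧ 0 < tau g := ⟨hB.2.1, hg⟩
  have h1 : nB B g = (next_exists tau B g h.1 h.2).choose := by
    unfold nB
    rw [dif_pos h]
  obtain ⟨g1, g2, g3, g4, g5⟩ := (next_exists tau B g h.1 h.2).choose_spec
  rw [← h1] at g1 g2 g3 g4 g5
  exact ⟨⟨g1, g2, g3⟩, g4, fun x hx => ls_spec (g5 x hx)⟩

/-- an enumeration of the vectors -/
noncomputable def en : ℕ → VV := (exists_surjective_nat VV).choose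

lemma en_surj : Function.Surjective en := (exists_surjective_nat VV).choose_spec

open Classical in
/-- the vectors which are made positive -/
noncomputable def gs (Λ : List ℤ → Set K) (n : ℕ) : VV :=
  if en n ∈ GG Λ ∧ 0 < tau (en n) then en n else e []

lemma gs_pos (Λ : List ℤ → Set K) (n : ℕ) : 0 < tau (gs Λ n) := by
  unfold gs
  split_ifs with h
  · exact h.2
  · rw [tau_e]
    norm_num

lemma gs_mem (Λ : List ℤ → Set K) (n : ℕ) : gs Λ n ∈ GG Λ := by
  unfold gs
  split_ifs with h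
  · exact h.1
  · exact e_mem Λ []

/-- the vectors of the stages -/
noncomputable def BB (Λ : List ℤ → Set K) : ℕ → List VV
  | 0 => [e []]
  | k + 1 => nB (BB Λ k) (gs Λ k)

lemma BB_good (Λ : List ℤ → Set K) (k : ℕ) : Gd (BB Λ k) := by
  induction k with
  | zero =>
    refine ⟨Nat.one_pos, ?_, ?_⟩
    · intro x hx
      rw [BB, List.mem_singleton] at hx
      rw [hx, tau_e]
      norm_num
    · change LinearIndependent ℚ (fun i : Fin 1 => [e []].getD i 0)
      rw [linearIndependent_unique_iff]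
      intro h
      have h1 : e [] = 0 := h
      have h2 := tau_e []
      rw [h1, map_zero] at h2
      norm_num at h2
  | succ k ih => exact (nB_spec ih (gs_pos Λ k)).1

/-- the diagram of a labelled tree -/
noncomputable def DD (Λ : List ℤ → Set K) : Dg := fun k i => ls (BB Λ (k + 1)) ((BB Λ k).getD i 0)

/-- the number of the vertices -/
noncomputable def mm (Λ : List ℤ → Set K) (k : ℕ) : ℕ := (BB Λ k).length

/-- the vectors of the vertices -/
noncomputable def vv (Λ : List ℤ → Set K) (k i : ℕ) : VV := (BB Λ k).getD i 0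

lemma getD_mem {B : List VV} {i : ℕ} (h : i < B.length) : B.getD i 0 ∈ B := by
  rw [List.getD_eq_getElem _ _ h]
  exact List.getElem_mem _

lemma DD_isL (Λ : List ℤ → Set K) {k i : ℕ} (hi : i < mm Λ k) :
    IsL (BB Λ (k + 1)) ((BB Λ k).getD i 0) (DD Λ k i) :=
  (nB_spec (BB_good Λ k) (gs_pos Λ k)).2.2 _ (List.mem_cons_of_mem _ (getD_mem hi))

lemma DD_ok (Λ : List ℤ → Set K) : Ok (DD Λ) (mm Λ) where
  one := rfl
  pos k := (BB_good Λ k).1
  lt k _ hi := (DD_isL Λ hi).1
  full k _ hi := (DD_isL Λ hi).2.1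

lemma vv_vc (Λ : List ℤ → Set K) : Vc (DD Λ) (mm Λ) tau (vv Λ) where
  rel _ _ hi := (DD_isL Λ hi).2.2.symm
  pos k _ hi := (BB_good Λ k).2.1 _ (getD_mem hi)
  li k := (BB_good Λ k).2.2

lemma BB_mem (Λ : List ℤ → Set K) (k : ℕ) : ∀ x ∈ BB Λ k, x ∈ GG Λ := by
  induction k with
  | zero =>
    intro x hx
    rw [BB, List.mem_singleton] at hx
    rw [hx]
    exact e_mem Λ []
  | succ k ih =>
    intro x hx
    refine Dy_mem ?_ ((nB_spec (BB_good Λ k) (gs_pos Λ k)).2.1 x hx)
    intro y hy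
    rcases Set.mem_insert_iff.1 hy with rfl | hy
    · exact gs_mem Λ k
    · exact ih y hy

lemma vv_mem (Λ : List ℤ → Set K) {k i : ℕ} (hi : i < mm Λ k) : vv Λ k i ∈ GG Λ :=
  BB_mem Λ k _ (getD_mem hi)

/-- positive elements of the group are combinations of the vectors of a stage -/
lemma pos_combo (Λ : List ℤ → Set K) {x : VV} (hx : x ∈ GG Λ) (h0 : 0 < tau x) :
    ∃ k, ∃ n : ℕ → ℕ, x = ∑ j ∈ Finset.range (mm Λ k), n j • vv Λ k j := by
  obtain ⟨n, rfl⟩ := en_surj x
  have h1 : gs Λ n = en n := if_pos ⟨hx, h0⟩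
  have h2 := (nB_spec (BB_good Λ n) (gs_pos Λ n)).2.2 (gs Λ n) List.mem_cons_self
  obtain ⟨h3, -, h5⟩ := h2
  rw [h1] at h3 h5
  have hB1 : BB Λ (n + 1) = nB (BB Λ n) (en n) := by rw [BB, h1]
  refine ⟨n + 1, fun j => (ls (nB (BB Λ n) (en n)) (en n)).count j, ?_⟩
  have h6 := sum_map_count (ls (nB (BB Λ n) (en n)) (en n))
    (fun j => (nB (BB Λ n) (en n)).getD j 0) h3
  conv_lhs => rw [← h5]
  rw [h6]
  unfold mm vv
  rw [hB1]

lemma spans (Λ : List ℤ → Set K) (z : VV) : ∃ k n, z = comb (mm Λ) (vv Λ) k n := by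
  have hD := DD_ok Λ
  have hv := vv_vc Λ
  induction z using Finsupp.induction_linear with
  | zero => exact ⟨0, fun _ => 0, by simp [comb]⟩
  | add x y hx hy =>
    obtain ⟨k, n, rfl⟩ := hx
    obtain ⟨k', n', rfl⟩ := hy
    obtain ⟨a, h1, -⟩ := comb_lift hD hv hv.rel (le_max_left k k') n
    obtain ⟨c, h3, -⟩ := comb_lift hD hv hv.rel (le_max_right k k') n'
    refine ⟨max k k', fun j => a j + c j, ?_⟩
    rw [h1, h3]
    unfold comb
    rw [← Finset.sum_add_distrib]
    exact Finset.sum_congr rfl fun j _ => (add_smul _ _ _).symm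
  | single u q =>
    obtain ⟨k, n, hn⟩ := pos_combo Λ (e_mem Λ u) (by rw [tau_e]; norm_num)
    refine ⟨k, fun j => q * n j, ?_⟩
    have h1 : (Finsupp.single u q : VV) = q • e u := by
      unfold e
      rw [Finsupp.smul_single, smul_eq_mul, mul_one]
    rw [h1, hn]
    unfold comb
    rw [Finset.smul_sum]
    refine Finset.sum_congr rfl fun j _ => ?_
    rw [mul_smul, Nat.cast_smul_eq_nsmul]

/-! ### the two directions -/

section

universe v

variable {H : Type v} [NormedAddCommGroup H] [InnerProductSpace ℂ H] [CompleteSpace H]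
  (b : HilbertBasis ℕ ℂ H)

/-- the AF algebra of a labelled tree -/
noncomputable def AA (Λ : List ℤ → Set K) : NonUnitalStarSubalgebra ℂ (H →L[ℂ] H) :=
  AD b (DD_ok Λ)

/-- an embedding gives a map of the labelled trees -/
theorem map_of_embedding {Λ Λ' : List ℤ → Set K} (φ : AA b Λ →⋆ₙₐ[ℂ] AA b Λ')
    (hφ : Function.Injective φ) :
    ∃ g : List ℤ → List ℤ, g [] = [] ∧ (∀ k p, ∃ k', g (k :: p) = k' :: g p) ∧
      ∀ p, Λ p ⊆ Λ' (g p) := by
  obtain ⟨x, hx1, hx2, hx3⟩ := emb_data (hD := DD_ok Λ) (hD' := DD_ok Λ') φ (vv_vc Λ') hφ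
  obtain ⟨α, hα⟩ := exists_linear (DD_ok Λ) (vv_vc Λ) hx1 (spans Λ)
  have hxG : ∀ k i, i < mm Λ k → x k i ∈ GG Λ' := by
    intro k i hi
    obtain ⟨k', n, h⟩ := hx3 k i hi
    rw [h]
    exact sum_mem fun j hj => nsmul_mem (vv_mem Λ' (Finset.mem_range.1 hj)) _
  have hpos : ∀ z ∈ GG Λ, 0 < tau z → α z ∈ GG Λ' := by
    intro z hz h0
    obtain ⟨k, n, hn⟩ := pos_combo Λ hz h0
    have h1 : z = comb (mm Λ) (vv Λ) k (fun j => n j) := by
      rw [hn]
      unfold comb
      exact Finset.sum_congr rfl fun j _ => (Nat.cast_smul_eq_nsmul ℚ _ _).symm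
    rw [h1, hα]
    unfold comb
    refine sum_mem fun j hj => ?_
    rw [Nat.cast_smul_eq_nsmul]
    exact nsmul_mem (hxG k j (Finset.mem_range.1 hj)) _
  have hG : ∀ z ∈ GG Λ, α z ∈ GG Λ' := by
    intro z hz
    obtain ⟨N, hN⟩ := exists_nat_gt (-(tau z))
    have h1 : 0 < tau (z + (N + 1) • e []) := by
      rw [map_add, map_nsmul, tau_e, nsmul_eq_mul, mul_one]
      push_cast
      linarith
    have h2 := hpos _ (add_mem hz (nsmul_mem (e_mem Λ []) (N + 1))) h1
    have h3 := hpos _ (e_mem Λ []) (by rw [tau_e]; norm_num)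
    have h4 : α z = α (z + (N + 1) • e []) - (N + 1) • α (e []) := by
      rw [map_add, map_nsmul]
      abel
    rw [h4]
    exact sub_mem h2 (nsmul_mem h3 _)
  apply map_of_linear hG
  have h1 : e [] = comb (mm Λ) (vv Λ) 0 (fun _ => 1) := by
    unfold comb
    have h2 : mm Λ 0 = 1 := rfl
    rw [h2, Finset.sum_range_one, one_smul]
    rfl
  rw [h1, hα]
  unfold comb
  have h2 : mm Λ 0 = 1 := rfl
  rw [h2, Finset.sum_range_one, one_smul]
  intro h3
  have h4 := hx2 0 0 (by rw [h2]; exact Nat.one_pos)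
  rw [h3, map_zero] at h4
  exact lt_irrefl _ h4

/-- a map of the labelled trees gives an embedding -/
theorem embedding_of_map {Λ Λ' : List ℤ → Set K} {g : List ℤ → List ℤ} (hnil : g [] = [])
    (hcons : ∀ k p, ∃ k', g (k :: p) = k' :: g p) (hL : ∀ p, Λ p ⊆ Λ' (g p)) :
    ∃ φ : AA b Λ →⋆ₙₐ[ℂ] AA b Λ', Function.Injective φ ∧
      ∀ h1 : (1 : H →L[ℂ] H) ∈ AA b Λ, (φ ⟨1, h1⟩ : H →L[ℂ] H) = 1 := by
  have hlen : ∀ u, (g u).length = u.length := by
    intro u
    induction u with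
    | nil => rw [hnil]
    | cons a u ih =>
      obtain ⟨k', hk'⟩ := hcons a u
      rw [hk', List.length_cons, List.length_cons, ih]
  let β := Finsupp.lmapDomain ℚ ℚ g
  refine embedding_of_vectors b (DD_ok Λ) (DD_ok Λ') (vv_vc Λ') (y := fun k i => β (vv Λ k i))
    ?_ ?_ ?_ ?_
  · intro k i hi
    change β (vv Λ k i) = _
    rw [(vv_vc Λ).rel k i hi, map_list_sum, List.map_map]
    rfl
  · change β (e []) = e []
    rw [map_e, hnil]
  · intro k i hi
    change 0 < tau (β (vv Λ k i))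
    rw [tau_map]
    exact (vv_vc Λ).pos k i hi
  · intro k i hi
    apply pos_combo
    · exact map_mem hlen hcons hL (vv_mem Λ hi)
    · rw [tau_map]
      exact (vv_vc Λ).pos k i hi

end

end Pool.Agent.J6H74.SAF
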